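import Pool.Agent.H30.KT.St

/-!
# `K₂` is central in the Steinberg group
-/

namespace Pool.Agent.H30.KT

open scoped commutatorElement

variable {A : Type*} [CommRing A]

theorem isSt_chi : IsSt (fun i j (a : A) => x j i (-a)) where
  diag i a := x_self _ _
  add i j a b h := by rw [neg_add, x_add]
  comm i j k a b h1 h2 h3 := by
    have := x_comm (-b) (-a) h2.symm h1.symm h3.symm
    rw [← commutatorElement_inv, this, ← x_neg]
    congr 1
    ring
  comm' i j k l a b h1 h2 h3 h4 := x_commute _ _ h4 h3

/-- The contragredient involution of the Steinberg group. -/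
noncomputable def chi : St A →* St A := St.lift _ isSt_chi

theorem chi_x (i j : ℕ) (a : A) : chi (x i j a) = x j i (-a) := St.lift_x _ _ _ _ _

theorem chi_chi (w : St A) : chi (chi w) = w := by
  induction w using St.induction with
  | one => simp
  | mul w v hw hv => simp only [map_mul, hw, hv]
  | inv w hw => simp only [map_inv, hw]
  | gen i j a => rw [chi_x, chi_x, neg_neg]

/-- The standard pairing. -/
noncomputable def pr (r c : ℕ →₀ A) : A := r.sum fun i a => a * c i

theorem pr_add_left (r r' c : ℕ →₀ A) : pr (r + r') c = pr r c + pr r' c :=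
  Finsupp.sum_add_index' (fun _ => zero_mul _) (fun _ _ _ => add_mul _ _ _)

theorem pr_add_right (r c c' : ℕ →₀ A) : pr r (c + c') = pr r c + pr r c' := by
  unfold pr
  rw [← Finsupp.sum_add]
  exact Finsupp.sum_congr fun i _ => by rw [Finsupp.add_apply, mul_add]

theorem pr_single_left (i : ℕ) (b : A) (c : ℕ →₀ A) : pr (Finsupp.single i b) c = b * c i :=
  Finsupp.sum_single_index (zero_mul _)

theorem pr_single_right (r : ℕ →₀ A) (i : ℕ) (b : A) : pr r (Finsupp.single i b) = r i * b := by
  classical
  unfold pr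
  rw [Finsupp.sum]
  simp only [Finsupp.single_apply, mul_ite, mul_zero]
  rw [Finset.sum_ite_eq]
  split_ifs with h
  · rfl
  · rw [Finsupp.notMem_support_iff.1 h, zero_mul]

theorem pr_inv (w : St A) (r c : ℕ →₀ A) :
    pr ((phi A (chi w) : Module.End A (ℕ →₀ A)) r) ((phi A w : Module.End A (ℕ →₀ A)) c) =
      pr r c := by
  induction w using St.induction generalizing r c with
  | one => simp
  | mul w v hw hv =>
    simp only [map_mul, Units.val_mul, Module.End.mul_apply]
    rw [hw, hv]
  | inv w hw =>
    have h := hw ((((phi A (chi w))⁻¹ : (Module.End A (ℕ →₀ A))ˣ) : Module.End A (ℕ →₀ A)) r)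
      ((((phi A w)⁻¹ : (Module.End A (ℕ →₀ A))ˣ) : Module.End A (ℕ →₀ A)) c)
    rw [← Module.End.mul_apply, ← Module.End.mul_apply, ← Units.val_mul, ← Units.val_mul,
      mul_inv_cancel, mul_inv_cancel] at h
    rw [map_inv, map_inv, map_inv]
    exact h.symm
  | gen i j a =>
    rw [chi_x, phi_x, phi_x]
    by_cases h : i = j
    · subst h; simp [el]
    · rw [el_apply_of_ne h, el_apply_of_ne (Ne.symm h), pr_add_left, pr_add_right, pr_add_right,
        pr_single_right, pr_single_left, pr_single_left, Finsupp.single_eq_of_ne (Ne.symm h)]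
      ring

theorem phi_chi_of_mem (w : St A) (hw : w ∈ K2 A) : chi w ∈ K2 A := by
  have hw' : phi A w = 1 := hw
  change phi A (chi w) = 1
  apply Units.ext
  refine LinearMap.ext fun r => Finsupp.ext fun k => ?_
  have h := pr_inv w r (Finsupp.single k 1)
  rw [hw', Units.val_one, Module.End.one_apply, pr_single_right, pr_single_right, mul_one,
    mul_one] at h
  simpa using h

/-! ### The column subgroups -/

/-- The subgroup of the `n`-th column. -/
noncomputable def colGroup (A : Type*) [CommRing A] (n : ℕ) : Subgroup (St A) :=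
  Subgroup.closure {g | ∃ (i : ℕ) (a : A), g = x i n a}

theorem col_comm (n : ℕ) : ∀ g ∈ {g : St A | ∃ (i : ℕ) (a : A), g = x i n a},
    ∀ h ∈ {g : St A | ∃ (i : ℕ) (a : A), g = x i n a}, g * h = h * g := by
  rintro _ ⟨i, a, rfl⟩ _ ⟨k, b, rfl⟩
  by_cases hi : i = n
  · subst hi; simp [x_self]
  · by_cases hk : k = n
    · subst hk; simp [x_self]
    · exact x_commute a b (Ne.symm hk) hi

noncomputable instance (n : ℕ) : CommGroup (colGroup A n) :=
  Subgroup.closureCommGroupOfComm (col_comm n)

theorem x_mem_col (n i : ℕ) (a : A) : x i n a ∈ colGroup A n :=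
  Subgroup.subset_closure ⟨i, a, rfl⟩

/-- The additive parametrisation of the column subgroup. -/
noncomputable def Y (A : Type*) [CommRing A] (n : ℕ) : (ℕ →₀ A) →+ Additive (colGroup A n) :=
  Finsupp.liftAddHom fun i =>
    { toFun := fun a => Additive.ofMul ⟨x i n a, x_mem_col n i a⟩
      map_zero' := by
        rw [← ofMul_one]
        congr 1
        exact Subtype.ext (x_zero i n)
      map_add' := fun a b => by
        rw [← ofMul_mul]
        congr 1
        exact Subtype.ext (x_add i n a b) }

/-- The element of the Steinberg group with `n`-th column `c`. -/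
noncomputable def YY (n : ℕ) (c : ℕ →₀ A) : St A := ((Y A n c).toMul : colGroup A n)

theorem YY_add (n : ℕ) (c c' : ℕ →₀ A) : YY n (c + c') = YY n c * YY n c' := by
  unfold YY
  rw [map_add, toMul_add]
  rfl

theorem YY_zero (n : ℕ) : YY n (0 : ℕ →₀ A) = 1 := by
  unfold YY
  rw [map_zero]
  rfl

theorem YY_single (n i : ℕ) (a : A) : YY n (Finsupp.single i a) = x i n a := by
  unfold YY Y
  erw [Finsupp.liftAddHom_apply_single]
  rfl

theorem conj_x_YY {i j n : ℕ} (hi : i ≠ n) (hj : j ≠ n) (a : A) (c : ℕ →₀ A) :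
    x i j a * YY n c * (x i j a)⁻¹ = YY n ((el i j a : Module.End A (ℕ →₀ A)) c) := by
  by_cases hij : i = j
  · subst hij; simp [x_self, el]
  induction c using Finsupp.induction_linear with
  | zero => rw [map_zero, YY_zero]; simp
  | add c c' hc hc' =>
    rw [map_add, YY_add, YY_add, ← hc, ← hc']
    group
  | single k b =>
    rw [el_apply_of_ne hij, YY_add, YY_single, YY_single]
    by_cases hk : k = j
    · subst hk
      rw [Finsupp.single_eq_same, ← x_comm a b hij hj hi, commutatorElement_def]
      have h1 : x k n b * (x i k a * x k n b * (x i k a)⁻¹ * (x k n b)⁻¹) =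
          (x i k a * x k n b * (x i k a)⁻¹ * (x k n b)⁻¹) * x k n b := by
        rw [← commutatorElement_def, x_comm a b hij hj hi]
        exact x_commute _ _ (Ne.symm hi) hj |>.trans rfl
      rw [h1]
      group
    · rw [Finsupp.single_eq_of_ne (Ne.symm hk), mul_zero, x_zero, mul_one,
        x_commute a b (Ne.symm hk) hi, mul_inv_cancel_right]

/-- The subgroup generated by the `x_{ij}(a)` with `i, j ≠ n`. -/
noncomputable def Hn (A : Type*) [CommRing A] (n : ℕ) : Subgroup (St A) :=
  Subgroup.closure {g | ∃ (i j : ℕ) (a : A), i ≠ n ∧ j ≠ n ∧ g = x i j a}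

theorem conj_YY {n : ℕ} (g : St A) (hg : g ∈ Hn A n) (c : ℕ →₀ A) :
    g * YY n c * g⁻¹ = YY n ((phi A g : Module.End A (ℕ →₀ A)) c) := by
  unfold Hn at hg
  induction hg using Subgroup.closure_induction generalizing c with
  | mem g hg =>
    obtain ⟨i, j, a, hi, hj, rfl⟩ := hg
    rw [phi_x]
    exact conj_x_YY hi hj a c
  | one => simp
  | mul g h _ _ hg hh =>
    rw [map_mul, Units.val_mul, Module.End.mul_apply, ← hg, ← hh]
    group
  | inv g _ hg =>
    have h := hg ((((phi A g)⁻¹ : (Module.End A (ℕ →₀ A))ˣ) : Module.End A (ℕ →₀ A)) c)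
    rw [← Module.End.mul_apply, ← Units.val_mul, mul_inv_cancel, Units.val_one,
      Module.End.one_apply] at h
    rw [map_inv, ← h]
    group

theorem exists_Hn (g : St A) : ∃ N : ℕ, ∀ n ≥ N, g ∈ Hn A n := by
  induction g using St.induction with
  | one => exact ⟨0, fun n _ => one_mem _⟩
  | mul g h hg hh =>
    obtain ⟨N, hN⟩ := hg
    obtain ⟨M, hM⟩ := hh
    exact ⟨max N M, fun n hn => mul_mem (hN n (le_of_max_le_left hn)) (hM n (le_of_max_le_right hn))⟩
  | inv g hg =>
    obtain ⟨N, hN⟩ := hg
    exact ⟨N, fun n hn => inv_mem (hN n hn)⟩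
  | gen i j a =>
    exact ⟨i + j + 1, fun n hn => Subgroup.subset_closure ⟨i, j, a, by omega, by omega, rfl⟩⟩

/-- Conjugation on a root element is determined by the linear action (monomial case). -/
theorem conj_mono (g : St A) {i j i' j' : ℕ} (hij : i ≠ j) (hij' : i' ≠ j') (d e : A)
    (h1 : (phi A g : Module.End A (ℕ →₀ A)) (Finsupp.single i 1) = Finsupp.single i' d)
    (h2 : (phi A (chi g) : Module.End A (ℕ →₀ A)) (Finsupp.single j 1) = Finsupp.single j' e)
    (a : A) : g * x i j a * g⁻¹ = x i' j' (d * a * e) := by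
  obtain ⟨N, hN⟩ := exists_Hn g
  obtain ⟨M, hM⟩ := exists_Hn (chi g)
  set n := N + M + i + j + i' + j' + 1 with hn
  have e1 : g * x i n a * g⁻¹ = x i' n (d * a) := by
    have h := conj_YY g (hN n (by omega)) (Finsupp.single i a)
    have h3 : Finsupp.single i a = a • Finsupp.single i (1 : A) := by simp
    rw [YY_single] at h
    rw [h, h3, map_smul, h1, Finsupp.smul_single, YY_single, smul_eq_mul, mul_comm]
  have e2 : g * x n j 1 * g⁻¹ = x n j' e := by
    have h := conj_YY (chi g) (hM n (by omega)) (Finsupp.single j (-1))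
    have h3 : Finsupp.single j (-1 : A) = (-1 : A) • Finsupp.single j (1 : A) := by simp
    rw [YY_single] at h
    rw [h3, map_smul, h2, Finsupp.smul_single, YY_single, smul_eq_mul] at h
    have h4 := congrArg chi h
    rw [map_mul, map_mul, map_inv, chi_chi, chi_x, chi_x] at h4
    simpa using h4
  have hin : i ≠ n := by omega
  have hnj : n ≠ j := by omega
  have hin' : i' ≠ n := by omega
  have hnj' : n ≠ j' := by omega
  rw [← mul_one a, ← x_comm a 1 hin hnj hij, commutatorElement_def]
  have h5 : g * (x i n a * x n j 1 * (x i n a)⁻¹ * (x n j 1)⁻¹) * g⁻¹ =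
      (g * x i n a * g⁻¹) * (g * x n j 1 * g⁻¹) * (g * x i n a * g⁻¹)⁻¹ *
        (g * x n j 1 * g⁻¹)⁻¹ := by group
  rw [h5, e1, e2, ← commutatorElement_def, x_comm _ _ hin' hnj' hij', mul_one]

/-- `K₂(A)` is central in the Steinberg group. -/
theorem K2_central (g : St A) (hg : g ∈ K2 A) (h : St A) : g * h = h * g := by
  have hg' : phi A g = 1 := hg
  have hg'' : phi A (chi g) = 1 := phi_chi_of_mem g hg
  induction h using St.induction with
  | one => simp
  | mul h k hh hk => rw [← mul_assoc, hh, mul_assoc, hk, mul_assoc]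
  | inv h hh =>
    rw [eq_inv_mul_iff_mul_eq, ← mul_assoc, ← hh, mul_inv_cancel_right]
  | gen i j a =>
    by_cases hij : i = j
    · subst hij; simp [x_self]
    · have h := conj_mono g hij hij 1 1 (by rw [hg']; simp) (by rw [hg'']; simp) a
      rw [one_mul, mul_one] at h
      exact mul_inv_eq_iff_eq_mul.1 h

end Pool.Agent.H30.KT
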