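import Mathlib

/-!
# Finite infinitesimal thickenings of `ℚ⟦X⟧`
-/

namespace Pool.Agent.H30.KT

open PowerSeries IsLocalRing

section

variable {A : Type*} [CommRing A] [Algebra ℚ⟦X⟧ A] (ψ : A →+* ℚ⟦X⟧)
  (h1 : ∀ b, ψ (algebraMap ℚ⟦X⟧ A b) = b) (h2 : ∀ a, ψ a = 0 → IsNilpotent a)

include h1 h2

theorem nil_sub (a : A) : IsNilpotent (a - algebraMap ℚ⟦X⟧ A (ψ a)) :=
  h2 _ (by rw [map_sub, h1, sub_self])

theorem isIntegral_all (a : A) : IsIntegral ℚ⟦X⟧ a := by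
  have h3 : IsIntegral ℚ⟦X⟧ (a - algebraMap ℚ⟦X⟧ A (ψ a)) := by
    obtain ⟨n, hn⟩ := nil_sub ψ h1 h2 a
    exact ⟨Polynomial.X ^ n, Polynomial.monic_X_pow n, by simpa using hn⟩
  have h4 := h3.add (isIntegral_algebraMap (R := ℚ⟦X⟧) (A := A) (x := ψ a))
  rwa [sub_add_cancel] at h4

theorem finite_of [Algebra.FiniteType ℚ⟦X⟧ A] : Module.Finite ℚ⟦X⟧ A := by
  haveI : Algebra.IsIntegral ℚ⟦X⟧ A := ⟨isIntegral_all ψ h1 h2⟩
  exact Algebra.IsIntegral.finite

theorem isNoeth [Algebra.FiniteType ℚ⟦X⟧ A] : IsNoetherianRing A :=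
  Algebra.FiniteType.isNoetherianRing ℚ⟦X⟧ A

theorem isUnit_iff' (a : A) : IsUnit a ↔ IsUnit (ψ a) := by
  constructor
  · exact fun h => h.map ψ
  · intro h
    have h3 : IsUnit (algebraMap ℚ⟦X⟧ A (ψ a)) := h.map _
    have h4 := nil_sub ψ h1 h2 a
    have h5 := h4.isUnit_add_left_of_commute h3 (Commute.all _ _)
    rwa [add_sub_cancel] at h5

theorem isLoc : IsLocalRing A := by
  haveI : IsLocalHom ψ := ⟨fun a h => (isUnit_iff' ψ h1 h2 a).2 h⟩
  exact RingHom.domain_isLocalRing ψ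

theorem minPrime (p : Ideal A) (hp : p ∈ minimalPrimes A) : p = RingHom.ker ψ := by
  have hpp : p.IsPrime := hp.1.1
  have h3 : RingHom.ker ψ ≤ p := by
    intro a ha
    obtain ⟨n, hn⟩ := h2 a ha
    exact hpp.mem_of_pow_mem n (by rw [hn]; exact p.zero_mem)
  have h4 : (RingHom.ker ψ).IsPrime := RingHom.ker_isPrime ψ
  exact le_antisymm (hp.2 ⟨h4, bot_le⟩ h3) h3

theorem kdim : ringKrullDim A = 1 := by
  have h3 : ringKrullDim ℚ⟦X⟧ = 1 := IsDiscreteValuationRing.ringKrullDim_eq_one _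
  apply le_antisymm
  · rw [← h3]
    refine Order.krullDim_le_of_strictMono
      (fun p : PrimeSpectrum A => PrimeSpectrum.comap (algebraMap ℚ⟦X⟧ A) p) ?_
    intro p q hpq
    have hle : p.asIdeal ≤ q.asIdeal := hpq.le
    have hne : ¬ q.asIdeal ≤ p.asIdeal := hpq.not_ge
    obtain ⟨a, haq, hap⟩ := Set.not_subset.1 hne
    have key : ∀ (r : PrimeSpectrum A), a ∈ r.asIdeal ↔ algebraMap ℚ⟦X⟧ A (ψ a) ∈ r.asIdeal := by
      intro r
      obtain ⟨n, hn⟩ := nil_sub ψ h1 h2 a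
      have h5 : a - algebraMap ℚ⟦X⟧ A (ψ a) ∈ r.asIdeal :=
        r.2.mem_of_pow_mem n (by rw [hn]; exact Ideal.zero_mem _)
      constructor
      · intro h
        have := r.asIdeal.sub_mem h h5
        rwa [sub_sub_cancel] at this
      · intro h
        have := r.asIdeal.add_mem h5 h
        rwa [sub_add_cancel] at this
    refine lt_of_le_not_ge (fun b hb => hle hb) (fun hcon => ?_)
    exact hap ((key p).2 (hcon (show ψ a ∈ _ from (key q).1 haq)))
  · rw [← h3]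
    exact ringKrullDim_le_of_surjective ψ (fun b => ⟨_, h1 b⟩)

theorem pow_le [Algebra.FiniteType ℚ⟦X⟧ A] [IsLocalRing A] :
    ∃ K : ℕ, (maximalIdeal A) ^ K ≤ Ideal.span {algebraMap ℚ⟦X⟧ A X} := by
  have hN : IsNoetherianRing A := isNoeth ψ h1 h2
  obtain ⟨K, hK⟩ := IsNoetherianRing.isNilpotent_nilradical A
  refine ⟨K, ?_⟩
  set q := Ideal.Quotient.mk (Ideal.span {algebraMap ℚ⟦X⟧ A X}) with hq
  have h3 : (maximalIdeal A).map q ≤ (nilradical A).map q := by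
    rw [Ideal.map_le_iff_le_comap]
    intro a ha
    have ha' : ¬ IsUnit (ψ a) := fun h => ha ((isUnit_iff' ψ h1 h2 a).2 h)
    have h4 : ψ a ∈ maximalIdeal ℚ⟦X⟧ := ha'
    have h5 : (X : ℚ⟦X⟧) ∣ ψ a := by
      rw [PowerSeries.X_dvd_iff]
      by_contra hcon
      exact ha' (PowerSeries.isUnit_iff_constantCoeff.2 (IsUnit.mk0 _ hcon))
    obtain ⟨b, hb⟩ := h5
    have h6 : q (algebraMap ℚ⟦X⟧ A (ψ a)) = 0 := by
      rw [hq, Ideal.Quotient.eq_zero_iff_mem, hb, map_mul]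
      exact Ideal.mul_mem_right _ _ (Ideal.mem_span_singleton_self _)
    have h7 : q a = q (a - algebraMap ℚ⟦X⟧ A (ψ a)) := by
      rw [map_sub, h6, sub_zero]
    change q a ∈ (nilradical A).map q
    rw [h7]
    exact Ideal.mem_map_of_mem q (nil_sub ψ h1 h2 a)
  have h8 : ((maximalIdeal A) ^ K).map q ≤ ⊥ := by
    rw [Ideal.map_pow]
    refine (Ideal.pow_right_mono h3 K).trans ?_
    rw [← Ideal.map_pow, hK, Ideal.zero_eq_bot, Ideal.map_bot]
  intro a ha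
  have h9 : q a ∈ ((maximalIdeal A) ^ K).map q := Ideal.mem_map_of_mem q ha
  have h10 := h8 h9
  exact Ideal.Quotient.eq_zero_iff_mem.1 h10

omit h1 h2 in
/-- Convergent sums in `ℚ⟦X⟧`. -/
theorem exists_sum (k : ℕ) (c : ℕ → Fin k → ℚ⟦X⟧) :
    ∃ T : ℕ → Fin k → ℚ⟦X⟧, ∀ n, T n = c n + (X : ℚ⟦X⟧) • T (n + 1) := by
  refine ⟨fun n j => PowerSeries.mk (fun m => ∑ i ∈ Finset.range (m + 1),
    coeff (m - i) (c (n + i) j)), fun n => ?_⟩
  funext j
  ext m
  rw [Pi.add_apply, Pi.smul_apply, smul_eq_mul, map_add, coeff_mk]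
  cases m with
  | zero => simp
  | succ m =>
    rw [Finset.sum_range_succ', PowerSeries.coeff_succ_X_mul, coeff_mk]
    simp only [Nat.add_sub_add_right, add_zero, Nat.sub_zero]
    rw [add_comm]
    congr 1
    refine Finset.sum_congr rfl fun i _ => ?_
    rw [show n + (i + 1) = n + 1 + i by ring]

omit h1 h2 in
theorem exists_lim [Module.Finite ℚ⟦X⟧ A] (d : ℕ → A) :
    ∃ L : A, ∀ n, ∃ e : A, L - ∑ i ∈ Finset.range n, (X : ℚ⟦X⟧) ^ i • d i = (X : ℚ⟦X⟧) ^ n • e := by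
  obtain ⟨k, π, hπ⟩ := Module.Finite.exists_fin' ℚ⟦X⟧ A
  choose c hc using fun i => hπ (d i)
  obtain ⟨T, hT⟩ := exists_sum k c
  refine ⟨π (T 0), fun n => ⟨π (T n), ?_⟩⟩
  induction n with
  | zero => simp
  | succ n ih =>
    rw [Finset.sum_range_succ, ← sub_sub, ih, hT n, map_add, map_smul, smul_add, hc, smul_smul,
      ← pow_succ]
    abel

theorem isAdic [Algebra.FiniteType ℚ⟦X⟧ A] [IsLocalRing A] :
    IsAdicComplete (maximalIdeal A) A := by
  have hN : IsNoetherianRing A := isNoeth ψ h1 h2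
  have hfin : Module.Finite ℚ⟦X⟧ A := finite_of ψ h1 h2
  obtain ⟨K, hK⟩ := pow_le ψ h1 h2 (A := A)
  have hK' : (maximalIdeal A) ^ (K + 1) ≤ Ideal.span {algebraMap ℚ⟦X⟧ A X} :=
    (Ideal.pow_le_pow_right (Nat.le_succ K)).trans hK
  have hτ : algebraMap ℚ⟦X⟧ A X ∈ maximalIdeal A := by
    rw [IsLocalRing.mem_maximalIdeal, mem_nonunits_iff, isUnit_iff' ψ h1 h2, h1]
    exact PowerSeries.X_prime.not_unit
  have hP : IsPrecomplete (maximalIdeal A) A := by
    refine ⟨fun f hf => ?_⟩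
    have hf' : ∀ {m n : ℕ}, m ≤ n → f m - f n ∈ (maximalIdeal A) ^ m := by
      intro m n hmn
      have := SModEq.sub_mem.1 (hf hmn)
      rwa [smul_eq_mul, Ideal.mul_top] at this
    have hd : ∀ n, ∃ d : A, f ((K + 1) * (n + 1)) - f ((K + 1) * n) = (X : ℚ⟦X⟧) ^ n • d := by
      intro n
      have e1 : f ((K + 1) * (n + 1)) - f ((K + 1) * n) ∈ (maximalIdeal A) ^ ((K + 1) * n) := by
        rw [← neg_sub]
        exact Ideal.neg_mem_iff _ |>.2 (hf' (Nat.mul_le_mul_left _ (Nat.le_succ n)))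
      rw [pow_mul] at e1
      have e2 := Ideal.pow_right_mono hK' n e1
      rw [Ideal.span_singleton_pow, Ideal.mem_span_singleton] at e2
      obtain ⟨d, hd⟩ := e2
      refine ⟨d, ?_⟩
      rw [hd, Algebra.smul_def, map_pow]
    choose d hd using hd
    obtain ⟨L, hL⟩ := exists_lim d
    refine ⟨f 0 + L, fun n => ?_⟩
    rw [SModEq.sub_mem, smul_eq_mul, Ideal.mul_top]
    have hs : ∀ n, f ((K + 1) * n) = f 0 + ∑ i ∈ Finset.range n, (X : ℚ⟦X⟧) ^ i • d i := by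
      intro n
      induction n with
      | zero => simp
      | succ n ih =>
        rw [Finset.sum_range_succ, ← add_assoc, ← ih, ← hd n]
        ring
    obtain ⟨e, he⟩ := hL n
    have e3 : f n - (f 0 + L) = (f n - f ((K + 1) * n)) - (X : ℚ⟦X⟧) ^ n • e := by
      rw [← he, hs n]; ring
    rw [e3]
    refine Ideal.sub_mem _ (hf' (Nat.le_mul_of_pos_left _ (Nat.succ_pos K))) ?_
    rw [Algebra.smul_def, map_pow]
    exact Ideal.mul_mem_right _ _ (Ideal.pow_mem_pow hτ n)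
  exact { toIsHausdorff := inferInstance, toIsPrecomplete := hP }

end

end Pool.Agent.H30.KT
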