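import Pool.Agent.H30.KT.Sym

/-!
# The derivation attached to a symbol
-/

namespace Pool.Agent.H30.KT

/-- Additive maps `R → K`, as an `R`-module by precomposition. -/
def HM (R K : Type*) [CommRing R] [AddCommGroup K] : Type _ := R →+ K

namespace HM

variable {R K : Type*} [CommRing R] [AddCommGroup K]

instance : AddCommGroup (HM R K) := inferInstanceAs (AddCommGroup (R →+ K))

instance : FunLike (HM R K) R K := inferInstanceAs (FunLike (R →+ K) R K)

instance : AddMonoidHomClass (HM R K) R K := inferInstanceAs (AddMonoidHomClass (R →+ K) R K)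

theorem add_apply (f g : HM R K) (a : R) : (f + g) a = f a + g a := rfl

theorem zero_apply (a : R) : (0 : HM R K) a = 0 := rfl

theorem neg_apply (f : HM R K) (a : R) : (-f) a = - f a := rfl

theorem sub_apply (f g : HM R K) (a : R) : (f - g) a = f a - g a := rfl

theorem ext' {f g : HM R K} (h : ∀ a, f a = g a) : f = g := DFunLike.ext f g h

instance : SMul R (HM R K) := ⟨fun r f => (AddMonoidHom.comp (f : R →+ K) (AddMonoidHom.mulLeft r) : R →+ K)⟩

theorem smul_apply (r : R) (f : HM R K) (a : R) : (r • f) a = f (r * a) := rfl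

instance : Module R (HM R K) where
  one_smul f := ext' fun a => by rw [smul_apply, one_mul]
  mul_smul r s f := ext' fun a => by
    rw [smul_apply, smul_apply, smul_apply]
    congr 1
    ring
  smul_zero r := ext' fun a => rfl
  smul_add r f g := ext' fun a => rfl
  add_smul r s f := ext' fun a => by
    rw [smul_apply, add_apply, smul_apply, smul_apply, add_mul, map_add]
  zero_smul f := ext' fun a => by
    rw [smul_apply, zero_mul, map_zero]
    rfl

end HM

section

variable {R L K : Type*} [CommRing R] [CommRing L] [AddCommGroup K]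
  (i : R →+* L) (ε : L) (hε : ε * ε = 0) {σ : Lˣ → Lˣ → K} (h : IsSymbol σ)
  [Algebra ℚ R] [IsLocalRing R]

omit [IsLocalRing R] in
theorem isUnit_nat (n : ℕ) (hn : n ≠ 0) : IsUnit (n : R) := by
  have h1 : IsUnit (algebraMap ℚ R (n : ℚ)) := (IsUnit.mk0 (n : ℚ) (by exact_mod_cast hn)).map _
  simpa using h1

/-- In a local `ℚ`-algebra an element has at most one natural shift which is not a unit. -/
theorem shift_unique (b : R) (n n' : ℕ) (hn : ¬ IsUnit (b + n)) (hn' : ¬ IsUnit (b + n')) :
    n = n' := by
  by_contra hne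
  rcases lt_or_gt_of_ne hne with hlt | hlt
  · have h1 : IsUnit ((b + n') - (b + n)) := by
      have h2 : (b + n' : R) - (b + n) = ((n' - n : ℕ) : R) := by
        rw [Nat.cast_sub hlt.le]; ring
      rw [h2]
      exact isUnit_nat _ (by omega)
    have h3 := IsLocalRing.isUnit_or_isUnit_of_isUnit_add (a := b + n') (b := -(b + n))
      (by rwa [← sub_eq_add_neg])
    rcases h3 with h3 | h3
    · exact hn' h3
    · exact hn (by simpa using h3.neg)
  · have h1 : IsUnit ((b + n) - (b + n')) := by
      have h2 : (b + n : R) - (b + n') = ((n - n' : ℕ) : R) := by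
        rw [Nat.cast_sub hlt.le]; ring
      rw [h2]
      exact isUnit_nat _ (by omega)
    have h3 := IsLocalRing.isUnit_or_isUnit_of_isUnit_add (a := b + n) (b := -(b + n'))
      (by rwa [← sub_eq_add_neg])
    rcases h3 with h3 | h3
    · exact hn h3
    · exact hn' (by simpa using h3.neg)

theorem exists_shift (b b' : R) : ∃ n : ℕ, IsUnit (b + n) ∧ IsUnit (b' + n) := by
  by_contra hcon
  push Not at hcon
  have h0 := hcon 0
  have h1 := hcon 1
  have h2 := hcon 2
  by_cases a0 : IsUnit (b + (0 : ℕ))
  · have a0' := h0 a0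
    by_cases a1 : IsUnit (b + (1 : ℕ))
    · exact absurd (shift_unique b' 0 1 a0' (h1 a1)) (by norm_num)
    · by_cases a2 : IsUnit (b + (2 : ℕ))
      · exact absurd (shift_unique b' 0 2 a0' (h2 a2)) (by norm_num)
      · exact absurd (shift_unique b 1 2 a1 a2) (by norm_num)
  · by_cases a1 : IsUnit (b + (1 : ℕ))
    · by_cases a2 : IsUnit (b + (2 : ℕ))
      · exact absurd (shift_unique b' 1 2 (h1 a1) (h2 a2)) (by norm_num)
      · exact absurd (shift_unique b 0 2 a0 a2) (by norm_num)
    · exact absurd (shift_unique b 0 1 a0 a1) (by norm_num)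

include h

omit [IsLocalRing R] in
theorem TT_nat (a : R) (n : ℕ) (hn : n ≠ 0) (c : Rˣ) (hc : (c : R) = n) :
    TT i ε hε σ a c = 0 := by
  induction n generalizing c with
  | zero => exact absurd rfl hn
  | succ m ih =>
    rcases Nat.eq_zero_or_pos m with hm | hm
    · subst hm
      have : c = 1 := Units.ext (by rw [hc]; simp)
      rw [this, TT_one i ε hε h]
    · obtain ⟨d, hd⟩ := isUnit_nat (R := R) m (by omega)
      rw [TT_add i ε hε h a d 1 c (by rw [hd, hc]; simp), ih (by omega) d hd, TT_one i ε hε h,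
        add_zero]

omit [IsLocalRing R] in
theorem TT_shift (a : R) (c c' : Rˣ) (n : ℕ) (hc : (c' : R) = c + n) :
    TT i ε hε σ a c' = TT i ε hε σ a c := by
  rcases Nat.eq_zero_or_pos n with hn | hn
  · subst hn
    have : c' = c := Units.ext (by rw [hc]; simp)
    rw [this]
  · obtain ⟨d, hd⟩ := isUnit_nat (R := R) n (by omega)
    rw [TT_add i ε hε h a c d c' (by rw [hd, hc]), TT_nat i ε hε h a n (by omega) d hd, add_zero]

omit h

/-- The shift making an element a unit. -/
noncomputable def sh (c : R) : ℕ := (exists_shift c c).choose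

theorem sh_spec (c : R) : IsUnit (c + sh c) := (exists_shift c c).choose_spec.1

/-- The extension of `TT` to all elements. -/
noncomputable def TX (σ : Lˣ → Lˣ → K) (a c : R) : K := TT i ε hε σ a (sh_spec c).unit

include h

theorem TX_eq (a c : R) (n : ℕ) (d : Rˣ) (hd : (d : R) = c + n) :
    TX i ε hε σ a c = TT i ε hε σ a d := by
  unfold TX
  have hs : ((sh_spec c).unit : R) = c + sh c := rfl
  rcases le_total n (sh c) with hle | hle
  · refine TT_shift i ε hε h a d _ (sh c - n) ?_
    rw [hs, hd, Nat.cast_sub hle]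
    ring
  · refine (TT_shift i ε hε h a _ d (n - sh c) ?_).symm
    rw [hs, hd, Nat.cast_sub hle]
    ring

theorem TX_add_left (a b c : R) :
    TX i ε hε σ (a + b) c = TX i ε hε σ a c + TX i ε hε σ b c := TT_add_left i ε hε h a b _

theorem TX_add (a c c' : R) : TX i ε hε σ a (c + c') = TX i ε hε σ a c + TX i ε hε σ a c' := by
  obtain ⟨n, hn, hn'⟩ := exists_shift (c' : R) (c + c' + sh c)
  obtain ⟨u, hu⟩ := sh_spec c
  obtain ⟨u', hu'⟩ := hn
  obtain ⟨s, hs⟩ := hn'
  rw [TX_eq i ε hε h a c (sh c) u hu, TX_eq i ε hε h a c' n u' hu',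
    TX_eq i ε hε h a (c + c') (sh c + n) s (by rw [hs]; push_cast; ring),
    TT_add i ε hε h a u u' s (by rw [hu, hu', hs]; ring)]

theorem TX_zero_right (a : R) : TX i ε hε σ a 0 = 0 := by
  have := TX_add i ε hε h a 0 0
  rw [add_zero] at this
  exact left_eq_add.1 this

theorem TX_nat_mul (a c : R) (n : ℕ) :
    TX i ε hε σ a (n * c) = n • TX i ε hε σ a c := by
  induction n with
  | zero => simp [TX_zero_right i ε hε h]
  | succ m ih => rw [Nat.cast_succ, add_mul, TX_add i ε hε h, ih, one_mul, succ_nsmul]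

theorem TX_nat_mul_left (a c : R) (n : ℕ) :
    TX i ε hε σ (a * n) c = n • TX i ε hε σ a c := by
  induction n with
  | zero =>
    have := TX_add_left i ε hε h 0 0 c
    rw [add_zero] at this
    simp [left_eq_add.1 this]
  | succ m ih => rw [Nat.cast_succ, mul_add, TX_add_left i ε hε h, ih, mul_one, succ_nsmul]

theorem TX_one (a : R) : TX i ε hε σ a 1 = 0 := by
  rw [TX_eq i ε hε h a 1 0 1 (by simp), TT_one i ε hε h]

theorem TX_nat (a : R) (n : ℕ) : TX i ε hε σ a n = 0 := by
  have := TX_nat_mul i ε hε h a 1 n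
  rw [mul_one, TX_one i ε hε h, smul_zero] at this
  exact this

theorem TX_mul (a c c' : R) :
    TX i ε hε σ a (c * c') = TX i ε hε σ (a * c) c' + TX i ε hε σ (a * c') c := by
  obtain ⟨u, hu⟩ := sh_spec c
  obtain ⟨u', hu'⟩ := sh_spec c'
  set n := sh c
  set n' := sh c'
  have h1 := TT_mul i ε hε h a u u'
  rw [← TX_eq i ε hε h (a * u) c' n' u' hu', ← TX_eq i ε hε h (a * u') c n u hu,
    ← TX_eq i ε hε h a ((c + n) * (c' + n')) 0 (u * u') (by simp [hu, hu'])] at h1
  rw [hu, hu'] at h1
  have h2 : (c + n) * (c' + n') = c * c' + (n * c' + (n' * c + (n * n' : ℕ))) := by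
    push_cast; ring
  have h3 : a * (c + n) = a * c + a * n := by ring
  have h4 : a * (c' + n') = a * c' + a * n' := by ring
  rw [h2, h3, h4, TX_add i ε hε h, TX_add i ε hε h, TX_add i ε hε h, TX_add_left i ε hε h,
    TX_add_left i ε hε h, TX_nat_mul i ε hε h, TX_nat_mul i ε hε h, TX_nat_mul_left i ε hε h,
    TX_nat_mul_left i ε hε h, TX_nat i ε hε h, add_zero] at h1
  have h5 : TX i ε hε σ a (c * c') = (TX i ε hε σ a (c * c') +
      (n • TX i ε hε σ a c' + n' • TX i ε hε σ a c)) -
      (n • TX i ε hε σ a c' + n' • TX i ε hε σ a c) := by abel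
  rw [h5, h1]
  abel

/-- The derivation attached to a symbol. -/
noncomputable def derS : Derivation ℤ R (HM R K) :=
  Derivation.mk' (M := HM R K)
    (AddMonoidHom.toIntLinearMap
      { toFun := fun c => ((⟨⟨fun a => TX i ε hε σ a c, by
            have := TX_add_left i ε hε h 0 0 c
            rw [add_zero] at this
            exact left_eq_add.1 this⟩, fun a b => TX_add_left i ε hε h a b c⟩ : R →+ K) : HM R K)
        map_zero' := HM.ext' fun a => TX_zero_right i ε hε h a
        map_add' := fun c c' => HM.ext' fun a => TX_add i ε hε h a c c' })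
    (fun c c' => HM.ext' fun a => by
      rw [HM.add_apply, HM.smul_apply, HM.smul_apply]
      change TX i ε hε σ a (c * c') = TX i ε hε σ (c * a) c' + TX i ε hε σ (c' * a) c
      rw [TX_mul i ε hε h, mul_comm a c, mul_comm a c'])

theorem derS_apply (c a : R) : (derS i ε hε h c) a = TX i ε hε σ a c := rfl

theorem derS_unit (c : Rˣ) (a : R) : (derS i ε hε h (c : R)) a = TT i ε hε σ a c := by
  rw [derS_apply, TX_eq i ε hε h a c 0 c (by simp)]

end

end Pool.Agent.H30.KT
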