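import Pool.Agent.H30.KT.Symb

/-!
# A central extension detecting symbols over dual numbers
-/

namespace Pool.Agent.H30.KT

open Matrix
open scoped commutatorElement

/-- The data: two ring homomorphisms `ι, s : R → S` whose difference has square zero. -/
structure SqData (R S : Type*) [CommRing R] [CommRing S] where
  ι : R →+* S
  s : R →+* S
  sq : ∀ a b, (s a - ι a) * (s b - ι b) = 0

section

variable {R S : Type*} [CommRing R] [CommRing S] (D : SqData R S) {n : Type*} [Fintype n]
  [DecidableEq n]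

/-- The unit matrix under `ι`. -/
def mι (g : (Matrix n n R)ˣ) : (Matrix n n S)ˣ :=
  Units.map (D.ι.mapMatrix : Matrix n n R →+* Matrix n n S).toMonoidHom g

/-- The unit matrix under `s`. -/
def ms (g : (Matrix n n R)ˣ) : (Matrix n n S)ˣ :=
  Units.map (D.s.mapMatrix : Matrix n n R →+* Matrix n n S).toMonoidHom g

/-- `λ(g) = s(g) ι(g)⁻¹ - 1`. -/
def lam (g : (Matrix n n R)ˣ) : Matrix n n S := (ms D g : Matrix n n S) * (((mι D g)⁻¹ : (Matrix n n S)ˣ) : Matrix n n S) - 1

theorem sub_mul_lam (g h : (Matrix n n R)ˣ) :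
    ((ms D g : Matrix n n S) - (mι D g : Matrix n n S)) * lam D h = 0 := by
  have h1 : lam D h = ((ms D h : Matrix n n S) - (mι D h : Matrix n n S)) *
      (((mι D h)⁻¹ : (Matrix n n S)ˣ) : Matrix n n S) := by
    unfold lam
    rw [sub_mul, Units.mul_inv]
  have h2 : ((ms D g : Matrix n n S) - (mι D g : Matrix n n S)) *
      ((ms D h : Matrix n n S) - (mι D h : Matrix n n S)) = 0 := by
    ext i j
    rw [Matrix.mul_apply]
    exact Finset.sum_eq_zero fun k _ => D.sq _ _
  rw [h1, ← mul_assoc, h2, zero_mul]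

theorem lam_mul (g h : (Matrix n n R)ˣ) :
    lam D (g * h) = lam D g + (mι D g : Matrix n n S) * lam D h * (((mι D g)⁻¹ : (Matrix n n S)ˣ) : Matrix n n S) := by
  have h0 := sub_mul_lam D g h
  rw [sub_mul, sub_eq_zero] at h0
  rw [← h0]
  unfold lam
  have e1 : ms D (g * h) = ms D g * ms D h := map_mul _ _ _
  have e2 : mι D (g * h) = mι D g * mι D h := map_mul _ _ _
  rw [e1, e2, _root_.mul_inv_rev, Units.val_mul, Units.val_mul]
  noncomm_ring

theorem lam_one : lam D (1 : (Matrix n n R)ˣ) = 0 := by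
  unfold lam
  have e1 : ms D (1 : (Matrix n n R)ˣ) = 1 := map_one _
  have e2 : mι D (1 : (Matrix n n R)ˣ) = 1 := map_one _
  rw [e1, e2]
  simp

/-- The cocycle. -/
def coc (X : Matrix n n R) (g h : (Matrix n n R)ˣ) : S :=
  trace (D.ι.mapMatrix X * ((mι D g : Matrix n n S) * lam D h * (((mι D g)⁻¹ : (Matrix n n S)ˣ) : Matrix n n S)))

theorem coc_add (X Y : Matrix n n R) (g h : (Matrix n n R)ˣ) :
    coc D (X + Y) g h = coc D X g h + coc D Y g h := by
  unfold coc
  rw [map_add, add_mul, trace_add]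

theorem coc_zero (g h : (Matrix n n R)ˣ) : coc D 0 g h = 0 := by
  unfold coc
  rw [map_zero, zero_mul, trace_zero]

theorem coc_one_right (X : Matrix n n R) (g : (Matrix n n R)ˣ) : coc D X g 1 = 0 := by
  unfold coc
  rw [lam_one]
  simp

theorem coc_mul (X : Matrix n n R) (g h k : (Matrix n n R)ˣ) :
    coc D X g (h * k) = coc D X g h + coc D X (g * h) k := by
  unfold coc
  rw [lam_mul]
  have e2 : mι D (g * h) = mι D g * mι D h := map_mul _ _ _
  rw [e2, _root_.mul_inv_rev, Units.val_mul, Units.val_mul, ← trace_add]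
  congr 1
  noncomm_ring

theorem coc_conj (Y : Matrix n n R) (g h k : (Matrix n n R)ˣ) :
    coc D ((g : Matrix n n R) * Y * ((g⁻¹ : (Matrix n n R)ˣ) : Matrix n n R)) (g * h) k =
      coc D Y h k := by
  unfold coc
  have e2 : mι D (g * h) = mι D g * mι D h := map_mul _ _ _
  have e3 : D.ι.mapMatrix ((g : Matrix n n R) * Y * ((g⁻¹ : (Matrix n n R)ˣ) : Matrix n n R)) =
      (mι D g : Matrix n n S) * D.ι.mapMatrix Y * (((mι D g)⁻¹ : (Matrix n n S)ˣ) : Matrix n n S) := by
    rw [map_mul, map_mul]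
    rfl
  rw [e2, e3, _root_.mul_inv_rev, Units.val_mul, Units.val_mul]
  have e4 : (mι D g : Matrix n n S) * D.ι.mapMatrix Y * (((mι D g)⁻¹ : (Matrix n n S)ˣ) : Matrix n n S) *
      ((mι D g : Matrix n n S) * (mι D h : Matrix n n S) * lam D k *
        ((((mι D h)⁻¹ : (Matrix n n S)ˣ) : Matrix n n S) * (((mι D g)⁻¹ : (Matrix n n S)ˣ) : Matrix n n S))) =
      (mι D g : Matrix n n S) * (D.ι.mapMatrix Y * ((mι D h : Matrix n n S) * lam D k *
        (((mι D h)⁻¹ : (Matrix n n S)ˣ) : Matrix n n S)) * (((mι D g)⁻¹ : (Matrix n n S)ˣ) : Matrix n n S)) := by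
    have : (((mι D g)⁻¹ : (Matrix n n S)ˣ) : Matrix n n S) * (mι D g : Matrix n n S) = 1 :=
      Units.inv_mul _
    calc _ = (mι D g : Matrix n n S) * D.ι.mapMatrix Y *
          ((((mι D g)⁻¹ : (Matrix n n S)ˣ) : Matrix n n S) * (mι D g : Matrix n n S)) *
          (mι D h : Matrix n n S) * lam D k *
          ((((mι D h)⁻¹ : (Matrix n n S)ˣ) : Matrix n n S) * (((mι D g)⁻¹ : (Matrix n n S)ˣ) : Matrix n n S)) := by noncomm_ring
      _ = _ := by rw [this]; noncomm_ring
  rw [e4, trace_mul_comm, mul_assoc, Units.inv_mul, mul_one]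

/-- The central extension. -/
@[ext] structure Gt (D : SqData R S) (n : Type*) [Fintype n] [DecidableEq n] where
  g : (Matrix n n R)ˣ
  X : Matrix n n R
  e : S

namespace Gt

variable {D}

instance : Mul (Gt D n) := ⟨fun a b => ⟨a.g * b.g,
  a.X + (a.g : Matrix n n R) * b.X * ((a.g⁻¹ : (Matrix n n R)ˣ) : Matrix n n R),
  a.e + b.e + coc D a.X a.g b.g⟩⟩

instance : One (Gt D n) := ⟨⟨1, 0, 0⟩⟩

instance : Inv (Gt D n) := ⟨fun a => ⟨a.g⁻¹,
  -(((a.g⁻¹ : (Matrix n n R)ˣ) : Matrix n n R) * a.X * (a.g : Matrix n n R)),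
  -a.e - coc D (-(((a.g⁻¹ : (Matrix n n R)ˣ) : Matrix n n R) * a.X * (a.g : Matrix n n R)))
    a.g⁻¹ a.g⟩⟩

theorem mul_g (a b : Gt D n) : (a * b).g = a.g * b.g := rfl
theorem mul_X (a b : Gt D n) : (a * b).X =
  a.X + (a.g : Matrix n n R) * b.X * ((a.g⁻¹ : (Matrix n n R)ˣ) : Matrix n n R) := rfl
theorem mul_e (a b : Gt D n) : (a * b).e = a.e + b.e + coc D a.X a.g b.g := rfl
theorem one_g : (1 : Gt D n).g = 1 := rfl
theorem one_X : (1 : Gt D n).X = 0 := rfl
theorem one_e : (1 : Gt D n).e = 0 := rfl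

instance : Group (Gt D n) := Group.ofLeftAxioms
  (by
    intro a b c
    apply Gt.ext
    · exact mul_assoc _ _ _
    · simp only [mul_X, mul_g, _root_.mul_inv_rev, Units.val_mul]
      noncomm_ring
    · simp only [mul_X, mul_g, mul_e]
      rw [coc_add, coc_conj, coc_mul]
      ring)
  (by
    intro a
    apply Gt.ext
    · exact one_mul _
    · rw [mul_X, one_X, one_g]; simp
    · rw [mul_e, one_X, one_e, coc_zero]; simp)
  (by
    intro a
    apply Gt.ext
    · exact inv_mul_cancel _
    · change -(((a.g⁻¹ : (Matrix n n R)ˣ) : Matrix n n R) * a.X * (a.g : Matrix n n R)) +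
        ((a.g⁻¹ : (Matrix n n R)ˣ) : Matrix n n R) * a.X *
          (((a.g⁻¹)⁻¹ : (Matrix n n R)ˣ) : Matrix n n R) = 0
      rw [inv_inv]
      exact neg_add_cancel _
    · change (-a.e - coc D (-(((a.g⁻¹ : (Matrix n n R)ˣ) : Matrix n n R) * a.X *
        (a.g : Matrix n n R))) a.g⁻¹ a.g) + a.e +
        coc D (-(((a.g⁻¹ : (Matrix n n R)ˣ) : Matrix n n R) * a.X * (a.g : Matrix n n R)))
          a.g⁻¹ a.g = (0 : S)
      ring)

/-- The central elements. -/
def cen (n : Type*) [Fintype n] [DecidableEq n] (e : S) : Gt D n := ⟨1, 0, e⟩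

theorem cen_mul_left (e : S) (a : Gt D n) : cen n e * a = ⟨a.g, a.X, e + a.e⟩ := by
  apply Gt.ext
  · exact one_mul _
  · rw [mul_X]; simp [cen]
  · rw [mul_e]; simp [cen, coc_zero]

theorem cen_add (e e' : S) : (cen n (e + e') : Gt D n) = cen n e * cen n e' := by
  rw [cen_mul_left]; rfl

theorem cen_zero : (cen n 0 : Gt D n) = 1 := rfl

theorem cen_neg (e : S) : (cen n (-e) : Gt D n) = (cen n e)⁻¹ := by
  rw [eq_inv_iff_mul_eq_one, ← cen_add, neg_add_cancel, cen_zero]

/-- The commutator of two elements whose linear parts commute. -/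
theorem comm_eq (P Q : Gt D n) (hP : P.g = 1) (hQ : Q.X = 0)
    (hX : P.X = (Q.g : Matrix n n R) * P.X * ((Q.g⁻¹ : (Matrix n n R)ˣ) : Matrix n n R)) :
    ⁅P, Q⁆ = cen n (coc D P.X 1 Q.g) := by
  rw [commutatorElement_def, mul_inv_eq_iff_eq_mul, mul_inv_eq_iff_eq_mul, mul_assoc, cen_mul_left]
  apply Gt.ext
  · rw [mul_g, mul_g, hP]; simp
  · rw [mul_X, mul_X, hP, hQ, ← hX]; simp
  · rw [mul_e, mul_e, hP, hQ, coc_zero]; ring

end Gt

/-! ### Root elements -/

/-- The elementary matrix as a unit. -/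
def eu {i j : n} (h : i ≠ j) (c : R) : (Matrix n n R)ˣ where
  val := 1 + Matrix.single i j c
  inv := 1 + Matrix.single i j (-c)
  val_inv := by
    rw [mul_add, add_mul, add_mul, Matrix.single_mul_single_of_ne _ _ _ _ h.symm]
    simp [add_assoc, ← Matrix.single_add]
  inv_val := by
    rw [mul_add, add_mul, add_mul, Matrix.single_mul_single_of_ne _ _ _ _ h.symm]
    simp [add_assoc, ← Matrix.single_add]

theorem eu_val {i j : n} (h : i ≠ j) (c : R) :
    ((eu h c : (Matrix n n R)ˣ) : Matrix n n R) = 1 + Matrix.single i j c := rfl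

theorem eu_inv_val {i j : n} (h : i ≠ j) (c : R) :
    (((eu h c)⁻¹ : (Matrix n n R)ˣ) : Matrix n n R) = 1 + Matrix.single i j (-c) := rfl

theorem map_one_add_single (f : R →+* S) (i j : n) (c : R) :
    f.mapMatrix (1 + Matrix.single i j c) = 1 + Matrix.single i j (f c) := by
  rw [map_add, map_one]
  congr 1
  ext a b
  simp [Matrix.single_apply, apply_ite f]

theorem mι_eu {i j : n} (h : i ≠ j) (c : R) : mι D (eu h c) = eu h (D.ι c) :=
  Units.ext (map_one_add_single D.ι i j c)

theorem ms_eu {i j : n} (h : i ≠ j) (c : R) : ms D (eu h c) = eu h (D.s c) :=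
  Units.ext (map_one_add_single D.s i j c)

theorem lam_eu {i j : n} (h : i ≠ j) (c : R) :
    lam D (eu h c) = Matrix.single i j (D.s c - D.ι c) := by
  unfold lam
  rw [mι_eu, ms_eu, eu_val, eu_inv_val, mul_add, add_mul, add_mul,
    Matrix.single_mul_single_of_ne _ _ _ _ h.symm, sub_eq_add_neg (D.s c), Matrix.single_add]
  simp only [one_mul, mul_one, add_zero]
  abel

theorem ι_single (i j : n) (c : R) :
    D.ι.mapMatrix (Matrix.single i j c) = Matrix.single i j (D.ι c) := by
  ext a b
  simp [Matrix.single_apply, apply_ite D.ι]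

/-- The cocycle on root elements vanishes unless the roots are opposite. -/
theorem coc_root {i j k l : n} (h : i ≠ j) (h' : k ≠ l) (hne : ¬ (j = k ∧ l = i)) (a c b : R) :
    coc D (Matrix.single i j a) (eu h c) (eu h' b) = 0 := by
  unfold coc
  rw [ι_single, lam_eu, mι_eu, eu_val, eu_inv_val]
  have e1 : Matrix.single i j (D.ι a) * ((1 + Matrix.single i j (D.ι c)) *
      Matrix.single k l (D.s b - D.ι b) * (1 + Matrix.single i j (-D.ι c))) =
      Matrix.single i j (D.ι a) * Matrix.single k l (D.s b - D.ι b) +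
      Matrix.single i j (D.ι a) * Matrix.single k l (D.s b - D.ι b) *
        Matrix.single i j (-D.ι c) := by
    have e0 : Matrix.single i j (D.ι a) * Matrix.single i j (D.ι c) = 0 :=
      Matrix.single_mul_single_of_ne _ _ _ _ h.symm _
    calc _ = Matrix.single i j (D.ι a) * Matrix.single k l (D.s b - D.ι b) +
      Matrix.single i j (D.ι a) * Matrix.single k l (D.s b - D.ι b) *
        Matrix.single i j (-D.ι c) + (Matrix.single i j (D.ι a) * Matrix.single i j (D.ι c)) *
        Matrix.single k l (D.s b - D.ι b) * (1 + Matrix.single i j (-D.ι c)) := by noncomm_ring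
      _ = _ := by rw [e0]; simp
  rw [e1]
  by_cases hjk : j = k
  · subst hjk
    rw [Matrix.single_mul_single_same]
    have hli : ¬ l = i := fun hh => hne ⟨rfl, hh⟩
    rw [Matrix.single_mul_single_of_ne _ _ _ _ hli, add_zero]
    exact Matrix.trace_single_eq_of_ne _ _ _ (Ne.symm hli)
  · rw [Matrix.single_mul_single_of_ne _ _ _ _ hjk]
    simp

variable {A : Type*} [CommRing A] (p0 : A →+* R) (p1 : A →+ R)
  (hp : ∀ a b, p1 (a * b) = p0 a * p1 b + p1 a * p0 b)

/-- The root element. -/
def rt {i j : n} (h : i ≠ j) (a : A) : Gt D n := ⟨eu h (p0 a), Matrix.single i j (p1 a), 0⟩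

theorem rt_add {i j : n} (h : i ≠ j) (a b : A) :
    rt D p0 p1 h (a + b) = rt D p0 p1 h a * rt D p0 p1 h b := by
  have e0 : ∀ c d : R, (Matrix.single i j c * Matrix.single i j d : Matrix n n R) = 0 :=
    fun c d => Matrix.single_mul_single_of_ne _ _ _ _ h.symm _
  apply Gt.ext
  · apply Units.ext
    change 1 + Matrix.single i j (p0 (a + b)) = (1 + Matrix.single i j (p0 a)) *
      (1 + Matrix.single i j (p0 b))
    rw [mul_add, add_mul, add_mul, e0, map_add, Matrix.single_add]
    simp only [one_mul, mul_one, add_zero]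
    abel
  · change Matrix.single i j (p1 (a + b)) = Matrix.single i j (p1 a) +
      (1 + Matrix.single i j (p0 a)) * Matrix.single i j (p1 b) * (1 + Matrix.single i j (-p0 a))
    simp only [mul_add, add_mul, one_mul, mul_one, e0, add_zero, zero_mul, map_add,
      Matrix.single_add]
  · change (0 : S) = 0 + 0 + coc D (Matrix.single i j (p1 a)) (eu h (p0 a)) (eu h (p0 b))
    rw [coc_root D h h (fun hh => h hh.1.symm)]
    simp

theorem rt_commute {i j k l : n} (h : i ≠ j) (h' : k ≠ l) (hjk : j ≠ k) (hil : i ≠ l) (a b : A) :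
    rt D p0 p1 h a * rt D p0 p1 h' b = rt D p0 p1 h' b * rt D p0 p1 h a := by
  have e0 : ∀ c d : R, (Matrix.single i j c * Matrix.single k l d : Matrix n n R) = 0 :=
    fun c d => Matrix.single_mul_single_of_ne _ _ _ _ hjk _
  have e1 : ∀ c d : R, (Matrix.single k l c * Matrix.single i j d : Matrix n n R) = 0 :=
    fun c d => Matrix.single_mul_single_of_ne _ _ _ _ hil.symm _
  apply Gt.ext
  · apply Units.ext
    change (1 + Matrix.single i j (p0 a)) * (1 + Matrix.single k l (p0 b)) =
      (1 + Matrix.single k l (p0 b)) * (1 + Matrix.single i j (p0 a))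
    rw [mul_add, add_mul, add_mul, e0, mul_add, add_mul, add_mul, e1]
    simp only [one_mul, mul_one, add_zero]
    abel
  · change Matrix.single i j (p1 a) +
      (1 + Matrix.single i j (p0 a)) * Matrix.single k l (p1 b) * (1 + Matrix.single i j (-p0 a)) =
      Matrix.single k l (p1 b) +
      (1 + Matrix.single k l (p0 b)) * Matrix.single i j (p1 a) * (1 + Matrix.single k l (-p0 b))
    simp only [mul_add, add_mul, one_mul, mul_one, add_zero, e0, e1, zero_mul]
    abel
  · change 0 + 0 + coc D _ _ _ = 0 + 0 + coc D _ _ _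
    congr 1
    exact (coc_root D h h' (fun hh => hjk hh.1) _ _ _).trans
      (coc_root D h' h (fun hh => hil hh.1.symm) _ _ _).symm

include hp in
theorem rt_comm {i j k : n} (hij : i ≠ j) (hjk : j ≠ k) (hik : i ≠ k) (a b : A) :
    ⁅rt D p0 p1 hij a, rt D p0 p1 hjk b⁆ = rt D p0 p1 hik (a * b) := by
  have z1 : ∀ c d : R, (Matrix.single j k c * Matrix.single i j d : Matrix n n R) = 0 :=
    fun c d => Matrix.single_mul_single_of_ne _ _ _ _ hik.symm _
  have z2 : ∀ c d : R, (Matrix.single i k c * Matrix.single i j d : Matrix n n R) = 0 :=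
    fun c d => Matrix.single_mul_single_of_ne _ _ _ _ hik.symm _
  have z3 : ∀ c d : R, (Matrix.single i k c * Matrix.single j k d : Matrix n n R) = 0 :=
    fun c d => Matrix.single_mul_single_of_ne _ _ _ _ hjk.symm _
  have z4 : ∀ c d : R, (Matrix.single j k c * Matrix.single i k d : Matrix n n R) = 0 :=
    fun c d => Matrix.single_mul_single_of_ne _ _ _ _ hik.symm _
  have z5 : ∀ c d : R, (Matrix.single i j c * Matrix.single i k d : Matrix n n R) = 0 :=
    fun c d => Matrix.single_mul_single_of_ne _ _ _ _ hij.symm _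
  have z6 : ∀ c d : R, (Matrix.single i k c * Matrix.single i k d : Matrix n n R) = 0 :=
    fun c d => Matrix.single_mul_single_of_ne _ _ _ _ hik.symm _
  have z7 : ∀ c d : R, (Matrix.single j k c * Matrix.single j k d : Matrix n n R) = 0 :=
    fun c d => Matrix.single_mul_single_of_ne _ _ _ _ hjk.symm _
  have z8 : ∀ c d : R, (Matrix.single i j c * Matrix.single i j d : Matrix n n R) = 0 :=
    fun c d => Matrix.single_mul_single_of_ne _ _ _ _ hij.symm _
  have s1 : ∀ c d : R, (Matrix.single i j c * Matrix.single j k d : Matrix n n R) =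
      Matrix.single i k (c * d) := fun c d => Matrix.single_mul_single_same _ _ _ _ _
  have sn : ∀ c : R, (Matrix.single i k (-c) : Matrix n n R) = - Matrix.single i k c := by
    intro c
    rw [eq_neg_iff_add_eq_zero, ← Matrix.single_add, neg_add_cancel, Matrix.single_zero]
  rw [commutatorElement_def, mul_inv_eq_iff_eq_mul, mul_inv_eq_iff_eq_mul, mul_assoc]
  apply Gt.ext
  · apply Units.ext
    change (1 + Matrix.single i j (p0 a)) * (1 + Matrix.single j k (p0 b)) =
      (1 + Matrix.single i k (p0 (a * b))) *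
      ((1 + Matrix.single j k (p0 b)) * (1 + Matrix.single i j (p0 a)))
    simp only [mul_add, add_mul, one_mul, mul_one, z1, z2, z3, s1, add_zero, map_mul]
    abel
  · change Matrix.single i j (p1 a) +
      (1 + Matrix.single i j (p0 a)) * Matrix.single j k (p1 b) * (1 + Matrix.single i j (-p0 a)) =
      Matrix.single i k (p1 (a * b)) + (1 + Matrix.single i k (p0 (a * b))) *
      (Matrix.single j k (p1 b) +
      (1 + Matrix.single j k (p0 b)) * Matrix.single i j (p1 a) * (1 + Matrix.single j k (-p0 b))) *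
      (1 + Matrix.single i k (-p0 (a * b)))
    simp only [mul_add, add_mul, one_mul, mul_one, z1, z2, z3, z4, z5, z6, s1, add_zero, zero_add,
      map_mul, hp, Matrix.single_add, mul_neg, neg_mul, neg_zero, sn]
    rw [mul_comm (p1 a)]
    abel
  · change 0 + 0 + coc D _ _ _ = 0 + (0 + 0 + coc D _ _ _) + coc D _ _ (eu hjk (p0 b) * eu hij (p0 a))
    rw [coc_mul]
    have f1 := coc_root D hij hjk (fun hh => hik hh.2.symm) (p1 a) (p0 a) (p0 b)
    have f2 := coc_root D hjk hij (fun hh => hik hh.1.symm) (p1 b) (p0 b) (p0 a)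
    have f3 := coc_root D hik hjk (fun hh => hjk hh.1.symm) (p1 (a * b)) (p0 (a * b)) (p0 b)
    have f4 : coc D (Matrix.single i k (p1 (a * b))) (eu hik (p0 (a * b)) * eu hjk (p0 b))
        (eu hij (p0 a)) = 0 := by
      unfold coc
      have e2 : mι D (eu hik (p0 (a * b)) * eu hjk (p0 b)) =
        mι D (eu hik (p0 (a * b))) * mι D (eu hjk (p0 b)) := map_mul _ _ _
      rw [ι_single, lam_eu, e2, mι_eu, mι_eu, Units.val_mul, eu_val, eu_val]
      have y1 : ∀ c d : S, (Matrix.single j k c * Matrix.single i j d : Matrix n n S) = 0 :=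
        fun c d => Matrix.single_mul_single_of_ne _ _ _ _ hik.symm _
      have y2 : ∀ c d : S, (Matrix.single i k c * Matrix.single i j d : Matrix n n S) = 0 :=
        fun c d => Matrix.single_mul_single_of_ne _ _ _ _ hik.symm _
      have y3 : ∀ c : S, (1 + Matrix.single i k (D.ι (p0 (a * b)))) *
          (1 + Matrix.single j k (D.ι (p0 b))) * Matrix.single i j c =
          (Matrix.single i j c : Matrix n n S) := by
        intro c
        simp only [add_mul, one_mul, mul_add, mul_one, mul_assoc, y1, y2, mul_zero, add_zero]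
      rw [y3, ← mul_assoc, y2, zero_mul, trace_zero]
    change 0 + 0 + coc D (Matrix.single i j (p1 a)) (eu hij (p0 a)) (eu hjk (p0 b)) =
      0 + (0 + 0 + coc D (Matrix.single j k (p1 b)) (eu hjk (p0 b)) (eu hij (p0 a))) +
      (coc D (Matrix.single i k (p1 (a * b))) (eu hik (p0 (a * b))) (eu hjk (p0 b)) +
      coc D (Matrix.single i k (p1 (a * b))) (eu hik (p0 (a * b)) * eu hjk (p0 b)) (eu hij (p0 a)))
    rw [f1, f2, f3, f4]
    simp

end

end Pool.Agent.H30.KT
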