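import Pool.Agent.H30.KT.Det

/-!
# Evaluation of the detecting extension on symbols
-/

namespace Pool.Agent.H30.KT

open Matrix
open scoped commutatorElement

section mat

variable {T : Type*} [CommRing T] {n : Type*} [Fintype n] [DecidableEq n]

theorem w_mat {i k : n} (h : i ≠ k) (c c' : T) (hc : c * c' = 1) :
    (1 + Matrix.single i k c) * (1 + Matrix.single k i (-c')) * (1 + Matrix.single i k c) =
      (1 - Matrix.single i i 1 - Matrix.single k k 1 + Matrix.single i k c - Matrix.single k i c' :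
        Matrix n n T) := by
  have z1 : ∀ a b : T, (Matrix.single i k a * Matrix.single i k b : Matrix n n T) = 0 :=
    fun a b => Matrix.single_mul_single_of_ne _ _ _ _ h.symm _
  have z2 : ∀ a b : T, (Matrix.single i i a * Matrix.single k i b : Matrix n n T) = 0 :=
    fun a b => Matrix.single_mul_single_of_ne _ _ _ _ h _
  have sn : ∀ (a b : n) (c : T), (Matrix.single a b (-c) : Matrix n n T) = - Matrix.single a b c := by
    intro a b c
    rw [eq_neg_iff_add_eq_zero, ← Matrix.single_add, neg_add_cancel, Matrix.single_zero]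
  have hc' : c' * c = 1 := by rw [mul_comm]; exact hc
  simp only [mul_add, add_mul, one_mul, mul_one, sn, mul_neg, neg_mul,
    Matrix.single_mul_single_same, z1, hc, hc']
  abel

theorem h_mat {i k : n} (h : i ≠ k) (c c' : T) (hc : c * c' = 1) :
    (1 - Matrix.single i i 1 - Matrix.single k k 1 + Matrix.single i k c - Matrix.single k i c' :
        Matrix n n T) *
      (1 - Matrix.single i i 1 - Matrix.single k k 1 + Matrix.single i k (-1) -
        Matrix.single k i (-1)) =
      1 - Matrix.single i i 1 - Matrix.single k k 1 + Matrix.single i i c +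
        Matrix.single k k c' := by
  have sn : ∀ (a b : n) (c : T), (Matrix.single a b (-c) : Matrix n n T) = - Matrix.single a b c := by
    intro a b c
    rw [eq_neg_iff_add_eq_zero, ← Matrix.single_add, neg_add_cancel, Matrix.single_zero]
  have z1 : ∀ a b : T, (Matrix.single i k a * Matrix.single i k b : Matrix n n T) = 0 :=
    fun a b => Matrix.single_mul_single_of_ne _ _ _ _ h.symm _
  have z2 : ∀ a b : T, (Matrix.single i i a * Matrix.single k k b : Matrix n n T) = 0 :=
    fun a b => Matrix.single_mul_single_of_ne _ _ _ _ h _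
  have z3 : ∀ a b : T, (Matrix.single i i a * Matrix.single k i b : Matrix n n T) = 0 :=
    fun a b => Matrix.single_mul_single_of_ne _ _ _ _ h _
  have z4 : ∀ a b : T, (Matrix.single k k a * Matrix.single i i b : Matrix n n T) = 0 :=
    fun a b => Matrix.single_mul_single_of_ne _ _ _ _ h.symm _
  have z5 : ∀ a b : T, (Matrix.single k k a * Matrix.single i k b : Matrix n n T) = 0 :=
    fun a b => Matrix.single_mul_single_of_ne _ _ _ _ h.symm _
  have z6 : ∀ a b : T, (Matrix.single i k a * Matrix.single i i b : Matrix n n T) = 0 :=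
    fun a b => Matrix.single_mul_single_of_ne _ _ _ _ h.symm _
  have z7 : ∀ a b : T, (Matrix.single k i a * Matrix.single k k b : Matrix n n T) = 0 :=
    fun a b => Matrix.single_mul_single_of_ne _ _ _ _ h _
  have z8 : ∀ a b : T, (Matrix.single k i a * Matrix.single k i b : Matrix n n T) = 0 :=
    fun a b => Matrix.single_mul_single_of_ne _ _ _ _ h _
  simp only [mul_add, add_mul, mul_sub, sub_mul, one_mul, mul_one, sn, mul_neg, neg_mul,
    Matrix.single_mul_single_same, z1, z2, z3, z4, z5, z6, z7, z8]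
  abel

/-- The diagonal matrix with `c` at `i` and `c'` at `k`. -/
def dm (i k : n) (c c' : T) : Matrix n n T :=
  Matrix.diagonal fun m => if m = i then c else if m = k then c' else 1

theorem dm_eq {i k : n} (h : i ≠ k) (c c' : T) :
    (1 - Matrix.single i i 1 - Matrix.single k k 1 + Matrix.single i i c +
        Matrix.single k k c' : Matrix n n T) = dm i k c c' := by
  ext a b
  unfold dm
  simp only [Matrix.add_apply, Matrix.sub_apply, Matrix.one_apply, Matrix.single_apply,
    Matrix.diagonal_apply]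
  by_cases hab : a = b
  · subst hab
    by_cases hai : a = i
    · subst hai; simp [h.symm]
    · by_cases hak : a = k
      · subst hak; simp [hai, Ne.symm hai]
      · simp [hai, hak, Ne.symm hai, Ne.symm hak]
  · have h1 : ¬ (i = a ∧ i = b) := fun hh => hab (hh.1.symm.trans hh.2)
    have h2 : ¬ (k = a ∧ k = b) := fun hh => hab (hh.1.symm.trans hh.2)
    simp [hab, h1, h2]

theorem dm_mul (i k : n) (c c' d d' : T) :
    dm i k c c' * dm i k d d' = dm i k (c * d) (c' * d') := by
  unfold dm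
  rw [Matrix.diagonal_mul_diagonal]
  congr 1
  funext m
  split_ifs <;> simp

theorem dm_one (i k : n) : dm i k (1 : T) 1 = 1 := by
  unfold dm
  simp

end mat

section

variable {R S : Type*} [CommRing R] [CommRing S] (D : SqData R S) {n : Type*} [Fintype n]
  [DecidableEq n] {A : Type*} [CommRing A] (p0 : A →+* R) (p1 : A →+ R)
  (hp : ∀ a b, p1 (a * b) = p0 a * p1 b + p1 a * p0 b)

/-- `w(u)` in the extension. -/
def wG {i j : n} (h : i ≠ j) (u : Aˣ) : Gt D n :=
  rt D p0 p1 h (u : A) * rt D p0 p1 h.symm (-((u⁻¹ : Aˣ) : A)) * rt D p0 p1 h (u : A)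

/-- `h(u)` in the extension. -/
def hG {i j : n} (h : i ≠ j) (u : Aˣ) : Gt D n := wG D p0 p1 h u * wG D p0 p1 h (-1)

theorem hG_g {i k : n} (h : i ≠ k) (v : Aˣ) :
    ((hG D p0 p1 h v).g : Matrix n n R) = dm i k (p0 v) (p0 ((v⁻¹ : Aˣ) : A)) := by
  have hv : p0 (v : A) * p0 ((v⁻¹ : Aˣ) : A) = 1 := by rw [← map_mul]; simp
  have e1 : ((wG D p0 p1 h v).g : Matrix n n R) =
      (1 + Matrix.single i k (p0 v)) * (1 + Matrix.single k i (-p0 ((v⁻¹ : Aˣ) : A))) *
        (1 + Matrix.single i k (p0 v)) := by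
    rw [← map_neg]
    rfl
  have e2 : ((wG D p0 p1 h (-1 : Aˣ)).g : Matrix n n R) =
      (1 + Matrix.single i k (-1)) * (1 + Matrix.single k i (-(-1))) *
        (1 + Matrix.single i k (-1)) := by
    have a1 : p0 (((-1 : Aˣ)) : A) = -1 := by simp
    have a2 : p0 (-(((-1 : Aˣ)⁻¹ : Aˣ) : A)) = -(-1) := by simp
    have : ((wG D p0 p1 h (-1 : Aˣ)).g : Matrix n n R) =
      (1 + Matrix.single i k (p0 (((-1 : Aˣ)) : A))) *
        (1 + Matrix.single k i (p0 (-(((-1 : Aˣ)⁻¹ : Aˣ) : A)))) *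
        (1 + Matrix.single i k (p0 (((-1 : Aˣ)) : A))) := rfl
    rw [this, a1, a2]
  have e3 : ((hG D p0 p1 h v).g : Matrix n n R) =
      ((wG D p0 p1 h v).g : Matrix n n R) * ((wG D p0 p1 h (-1 : Aˣ)).g : Matrix n n R) := rfl
  rw [e3, e1, e2, w_mat h _ _ hv, w_mat h _ _ (by ring), h_mat h _ _ hv, dm_eq h]

theorem hG_g_inv {i k : n} (h : i ≠ k) (v : Aˣ) :
    (((hG D p0 p1 h v).g⁻¹ : (Matrix n n R)ˣ) : Matrix n n R) =
      dm i k (p0 ((v⁻¹ : Aˣ) : A)) (p0 v) := by
  have hv : p0 (v : A) * p0 ((v⁻¹ : Aˣ) : A) = 1 := by rw [← map_mul]; simp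
  have h1 : ((hG D p0 p1 h v).g : Matrix n n R) * dm i k (p0 ((v⁻¹ : Aˣ) : A)) (p0 v) = 1 := by
    rw [hG_g, dm_mul, hv, mul_comm, hv, dm_one]
  exact (Units.inv_eq_of_mul_eq_one_right h1)

theorem Gt.X_mul_zero {P Q : Gt D n} (hP : P.X = 0) (hQ : Q.X = 0) : (P * Q).X = 0 := by
  rw [Gt.mul_X, hP, hQ]; simp

theorem rt_X_zero {i j : n} (h : i ≠ j) (a : A) (ha : p1 a = 0) : (rt D p0 p1 h a).X = 0 := by
  change Matrix.single i j (p1 a) = 0
  rw [ha, Matrix.single_zero]

theorem wG_X_zero {i j : n} (h : i ≠ j) (u : Aˣ) (h1 : p1 u = 0) (h2 : p1 ((u⁻¹ : Aˣ) : A) = 0) :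
    (wG D p0 p1 h u).X = 0 := by
  refine Gt.X_mul_zero D (Gt.X_mul_zero D ?_ ?_) ?_
  · exact rt_X_zero D p0 p1 h _ h1
  · exact rt_X_zero D p0 p1 h.symm _ (by rw [map_neg, h2, neg_zero])
  · exact rt_X_zero D p0 p1 h _ h1

include hp

omit [CommRing S] [Fintype n] [DecidableEq n] in
theorem p1_one : p1 1 = 0 := by
  have h1 := hp 1 1
  have h2 : p0 1 = 1 := map_one p0
  rw [h2, mul_one, one_mul, mul_one] at h1
  exact left_eq_add.1 h1

theorem p1_inv (u : Aˣ) (h0 : p0 (u : A) = 1) : p1 ((u⁻¹ : Aˣ) : A) = - p1 u := by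
  have h1 := hp u ((u⁻¹ : Aˣ) : A)
  have h2 : p0 ((u⁻¹ : Aˣ) : A) = 1 := by
    have : p0 (u : A) * p0 ((u⁻¹ : Aˣ) : A) = 1 := by rw [← map_mul]; simp
    rwa [h0, one_mul] at this
  rw [Units.mul_inv, p1_one p0 p1 hp, h0, h2, one_mul, mul_one] at h1
  exact eq_neg_of_add_eq_zero_left h1.symm

theorem p1_inv' (v : Aˣ) (h0 : p1 (v : A) = 0) : p1 ((v⁻¹ : Aˣ) : A) = 0 := by
  have h1 := hp v ((v⁻¹ : Aˣ) : A)
  rw [Units.mul_inv, p1_one p0 p1 hp, h0, zero_mul, add_zero] at h1
  have h2 : p0 ((v⁻¹ : Aˣ) : A) * p0 (v : A) = 1 := by rw [← map_mul]; simp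
  have h3 : p1 ((v⁻¹ : Aˣ) : A) = p0 ((v⁻¹ : Aˣ) : A) * (p0 (v : A) * p1 ((v⁻¹ : Aˣ) : A)) := by
    rw [← mul_assoc, h2, one_mul]
  rw [h3, ← h1, mul_zero]

theorem wG_neg_one_X {i j : n} (h : i ≠ j) : (wG D p0 p1 h (-1 : Aˣ)).X = 0 := by
  have e1 : p1 (((-1 : Aˣ)) : A) = 0 := by
    rw [Units.val_neg, Units.val_one, map_neg, p1_one p0 p1 hp, neg_zero]
  exact wG_X_zero D p0 p1 h _ e1 (p1_inv' p0 p1 hp _ e1)

theorem hG_X_zero {i j : n} (h : i ≠ j) (v : Aˣ) (h1 : p1 (v : A) = 0) :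
    (hG D p0 p1 h v).X = 0 :=
  Gt.X_mul_zero D (wG_X_zero D p0 p1 h v h1 (p1_inv' p0 p1 hp v h1)) (wG_neg_one_X D p0 p1 hp h)

theorem hG_X {i j : n} (h : i ≠ j) (u : Aˣ) (h0 : p0 (u : A) = 1) :
    (hG D p0 p1 h u).X = Matrix.single i i (p1 u) - Matrix.single j j (p1 u) := by
  have h2 : p0 ((u⁻¹ : Aˣ) : A) = 1 := by
    have : p0 (u : A) * p0 ((u⁻¹ : Aˣ) : A) = 1 := by rw [← map_mul]; simp
    rwa [h0, one_mul] at this
  have sn : ∀ (a b : n) (c : R), (Matrix.single a b (-c) : Matrix n n R) = - Matrix.single a b c := by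
    intro a b c
    rw [eq_neg_iff_add_eq_zero, ← Matrix.single_add, neg_add_cancel, Matrix.single_zero]
  have z1 : ∀ a b : R, (Matrix.single i j a * Matrix.single i j b : Matrix n n R) = 0 :=
    fun a b => Matrix.single_mul_single_of_ne _ _ _ _ h.symm _
  have z1' : ∀ a b : R, (Matrix.single j i a * Matrix.single j i b : Matrix n n R) = 0 :=
    fun a b => Matrix.single_mul_single_of_ne _ _ _ _ h _
  have z2 : ∀ a b : R, (Matrix.single i i a * Matrix.single j j b : Matrix n n R) = 0 :=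
    fun a b => Matrix.single_mul_single_of_ne _ _ _ _ h _
  have z3 : ∀ a b : R, (Matrix.single i i a * Matrix.single j i b : Matrix n n R) = 0 :=
    fun a b => Matrix.single_mul_single_of_ne _ _ _ _ h _
  have z4 : ∀ a b : R, (Matrix.single j j a * Matrix.single i i b : Matrix n n R) = 0 :=
    fun a b => Matrix.single_mul_single_of_ne _ _ _ _ h.symm _
  have z5 : ∀ a b : R, (Matrix.single j j a * Matrix.single i j b : Matrix n n R) = 0 :=
    fun a b => Matrix.single_mul_single_of_ne _ _ _ _ h.symm _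
  have z6 : ∀ a b : R, (Matrix.single i j a * Matrix.single i i b : Matrix n n R) = 0 :=
    fun a b => Matrix.single_mul_single_of_ne _ _ _ _ h.symm _
  have z7 : ∀ a b : R, (Matrix.single j i a * Matrix.single j j b : Matrix n n R) = 0 :=
    fun a b => Matrix.single_mul_single_of_ne _ _ _ _ h _
  have e1 : (hG D p0 p1 h u).X = (wG D p0 p1 h u).X := by
    unfold hG
    rw [Gt.mul_X, wG_neg_one_X D p0 p1 hp h]
    simp
  have e2 : (wG D p0 p1 h u).X = Matrix.single i j (p1 u) +
      (1 + Matrix.single i j (p0 u)) * Matrix.single j i (p1 (-((u⁻¹ : Aˣ) : A))) *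
        (1 + Matrix.single i j (-p0 u)) +
      ((1 + Matrix.single i j (p0 u)) * (1 + Matrix.single j i (p0 (-((u⁻¹ : Aˣ) : A))))) *
        Matrix.single i j (p1 u) * ((1 + Matrix.single j i (-p0 (-((u⁻¹ : Aˣ) : A)))) *
        (1 + Matrix.single i j (-p0 u))) := rfl
  rw [e1, e2, map_neg, map_neg, h0, h2, p1_inv p0 p1 hp u h0, neg_neg, neg_neg]
  simp only [mul_add, add_mul, one_mul, mul_one, sn, mul_neg, neg_mul, neg_neg, add_zero, zero_add,
    Matrix.single_mul_single_same, z1, z1', z2, z3, z4, z5, z6, z7, zero_mul, mul_zero, neg_zero]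
  abel

theorem hG_g_one {i j : n} (h : i ≠ j) (u : Aˣ) (h0 : p0 (u : A) = 1) :
    (hG D p0 p1 h u).g = 1 := by
  have h2 : p0 ((u⁻¹ : Aˣ) : A) = 1 := by
    have : p0 (u : A) * p0 ((u⁻¹ : Aˣ) : A) = 1 := by rw [← map_mul]; simp
    rwa [h0, one_mul] at this
  apply Units.ext
  rw [hG_g, h0, h2, dm_one, Units.val_one]

/-- **Value of the extension on a symbol** `{u, v}` with `u ≡ 1` and `v` constant. -/
theorem comm_hG {i j k : n} (hij : i ≠ j) (hik : i ≠ k) (hjk : j ≠ k) (u v : Aˣ)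
    (h0 : p0 (u : A) = 1) (h1 : p1 (v : A) = 0) :
    ⁅hG D p0 p1 hij u, hG D p0 p1 hik v⁆ =
      Gt.cen n (D.ι (p1 u) * (D.s (p0 v) * D.ι (p0 ((v⁻¹ : Aˣ) : A)) - 1)) := by
  have hv : p0 (v : A) * p0 ((v⁻¹ : Aˣ) : A) = 1 := by rw [← map_mul]; simp
  have hsd : ∀ (m : n) (c : R), (Matrix.single m m c : Matrix n n R) =
      Matrix.diagonal (fun l => if l = m then c else 0) := by
    intro m c
    ext a b
    rw [Matrix.single_apply, Matrix.diagonal_apply]
    by_cases hab : a = b
    · subst hab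
      by_cases ha : a = m
      · subst ha; simp
      · simp [ha, Ne.symm ha]
    · have : ¬ (m = a ∧ m = b) := fun hh => hab (hh.1.symm.trans hh.2)
      simp [hab, this]
  rw [Gt.comm_eq _ _ (hG_g_one D p0 p1 hp hij u h0) (hG_X_zero D p0 p1 hp hik v h1) ?_]
  · congr 1
    rw [hG_X D p0 p1 hp hij u h0]
    unfold coc
    have e0 : mι D (1 : (Matrix n n R)ˣ) = 1 := map_one _
    rw [e0, inv_one, Units.val_one, one_mul, mul_one, map_sub, ι_single, ι_single, sub_mul,
      trace_sub]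
    have hlam : ∀ m : n, lam D (hG D p0 p1 hik v).g m m =
        (if m = i then D.s (p0 v) * D.ι (p0 ((v⁻¹ : Aˣ) : A))
          else if m = k then D.s (p0 ((v⁻¹ : Aˣ) : A)) * D.ι (p0 v) else 1) - 1 := by
      intro m
      unfold lam
      have f1 : (ms D (hG D p0 p1 hik v).g : Matrix n n S) =
          dm i k (D.s (p0 v)) (D.s (p0 ((v⁻¹ : Aˣ) : A))) := by
        change D.s.mapMatrix ((hG D p0 p1 hik v).g : Matrix n n R) = _
        rw [hG_g]
        unfold dm
        rw [RingHom.mapMatrix_apply, Matrix.diagonal_map (map_zero _)]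
        congr 1
        funext l
        split_ifs <;> simp
      have f2 : (((mι D (hG D p0 p1 hik v).g)⁻¹ : (Matrix n n S)ˣ) : Matrix n n S) =
          dm i k (D.ι (p0 ((v⁻¹ : Aˣ) : A))) (D.ι (p0 v)) := by
        have : (mι D (hG D p0 p1 hik v).g)⁻¹ = mι D ((hG D p0 p1 hik v).g)⁻¹ := (map_inv _ _).symm
        rw [this]
        change D.ι.mapMatrix (((hG D p0 p1 hik v).g⁻¹ : (Matrix n n R)ˣ) : Matrix n n R) = _
        rw [hG_g_inv]
        unfold dm
        rw [RingHom.mapMatrix_apply, Matrix.diagonal_map (map_zero _)]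
        congr 1
        funext l
        split_ifs <;> simp
      rw [f1, f2, dm_mul, Matrix.sub_apply, Matrix.one_apply_eq]
      unfold dm
      rw [Matrix.diagonal_apply_eq]
    have htr : ∀ (m : n) (c : S) (M : Matrix n n S), trace (Matrix.single m m c * M) = c * M m m := by
      intro m c M
      rw [Matrix.trace, Finset.sum_eq_single m]
      · simp
      · intro l _ hl
        simp [hl]
      · intro hh
        exact absurd (Finset.mem_univ _) hh
    rw [htr, htr, hlam, hlam, if_pos rfl, if_neg hij.symm, if_neg hjk]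
    ring
  · rw [hG_X D p0 p1 hp hij u h0, hG_g, hG_g_inv, hsd, hsd]
    unfold dm
    rw [Matrix.diagonal_sub, Matrix.diagonal_mul_diagonal, Matrix.diagonal_mul_diagonal]
    congr 1
    funext l
    by_cases h1 : l = i
    · subst h1
      simp only [if_true, if_neg hij]
      linear_combination (-(p1 (u : A))) * hv
    · by_cases h2 : l = k
      · subst h2
        simp [h1, hjk.symm]
      · simp [h1, h2]

end

end Pool.Agent.H30.KT
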