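import Pool.Agent.H30.KT.Det2

/-!
# Passage to infinite matrices; detection of symbols
-/

namespace Pool.Agent.H30.KT

open Matrix
open scoped commutatorElement

section

variable {R S : Type*} [CommRing R] [CommRing S] (D : SqData R S)
  {A : Type*} [CommRing A] (p0 : A →+* R) (p1 : A →+ R)
  (hp : ∀ a b, p1 (a * b) = p0 a * p1 b + p1 a * p0 b)

/-- Sequences that are eventually `1`. -/
def evOne (D : SqData R S) : Subgroup (∀ N : ℕ, Gt D (Fin N)) where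
  carrier := {f | ∀ᶠ N in Filter.atTop, f N = 1}
  mul_mem' {f g} hf hg := by
    filter_upwards [hf, hg] with N h1 h2
    rw [Pi.mul_apply, h1, h2, one_mul]
  one_mem' := Filter.Eventually.of_forall fun _ => rfl
  inv_mem' {f} hf := by
    filter_upwards [hf] with N h1
    rw [Pi.inv_apply, h1, inv_one]

instance : (evOne D).Normal := ⟨fun f hf g => by
  have hf' : ∀ᶠ N in Filter.atTop, f N = 1 := hf
  change ∀ᶠ N in Filter.atTop, (g * f * g⁻¹) N = 1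
  filter_upwards [hf'] with N h1
  rw [Pi.mul_apply, Pi.mul_apply, Pi.inv_apply, h1, mul_one, mul_inv_cancel]⟩

theorem mk_eq_of_eventually {f g : ∀ N : ℕ, Gt D (Fin N)} (h : ∀ᶠ N in Filter.atTop, f N = g N) :
    (QuotientGroup.mk' (evOne D) f) = QuotientGroup.mk' (evOne D) g := by
  refine QuotientGroup.eq.2 ?_
  change ∀ᶠ N in Filter.atTop, (f⁻¹ * g) N = 1
  filter_upwards [h] with N h1
  rw [Pi.mul_apply, Pi.inv_apply, h1, inv_mul_cancel]

theorem eventually_of_mk_eq {f g : ∀ N : ℕ, Gt D (Fin N)}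
    (h : (QuotientGroup.mk' (evOne D) f) = QuotientGroup.mk' (evOne D) g) :
    ∀ᶠ N in Filter.atTop, f N = g N := by
  have h2 : ∀ᶠ N in Filter.atTop, (f⁻¹ * g) N = 1 := QuotientGroup.eq.1 h
  filter_upwards [h2] with N h1
  rw [Pi.mul_apply, Pi.inv_apply, inv_mul_eq_one] at h1
  exact h1

/-- The root element at level `N`. -/
def fN (N i j : ℕ) (a : A) : Gt D (Fin N) :=
  if h : i < N ∧ j < N ∧ i ≠ j then
    rt D p0 p1 (i := (⟨i, h.1⟩ : Fin N)) (j := ⟨j, h.2.1⟩) (fun hh => h.2.2 (Fin.mk.inj_iff.1 hh)) a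
  else 1

theorem fN_of {N i j : ℕ} (hi : i < N) (hj : j < N) (hij : i ≠ j)
    (h' : (⟨i, hi⟩ : Fin N) ≠ ⟨j, hj⟩) (a : A) :
    fN D p0 p1 N i j a = rt D p0 p1 h' a := by
  unfold fN
  rw [dif_pos ⟨hi, hj, hij⟩]

/-- The generators in the limit group. -/
def fI (i j : ℕ) (a : A) : (∀ N : ℕ, Gt D (Fin N)) ⧸ evOne D :=
  QuotientGroup.mk' (evOne D) (fun N => fN D p0 p1 N i j a)

include hp in
theorem isSt_fI : IsSt (fI D p0 p1) where
  diag i a := by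
    have : (fun N => fN D p0 p1 N i i a) = 1 := by
      funext N
      unfold fN
      rw [dif_neg (fun h => h.2.2 rfl)]
      rfl
    unfold fI
    rw [this, map_one]
  add i j a b h := by
    unfold fI
    rw [← map_mul]
    congr 1
    funext N
    rw [Pi.mul_apply]
    unfold fN
    by_cases hh : i < N ∧ j < N ∧ i ≠ j
    · rw [dif_pos hh, dif_pos hh, dif_pos hh, rt_add]
    · rw [dif_neg hh, dif_neg hh, dif_neg hh, one_mul]
  comm i j k a b h1 h2 h3 := by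
    unfold fI
    rw [← map_commutatorElement]
    refine mk_eq_of_eventually D ?_
    filter_upwards [Filter.eventually_gt_atTop (i + j + k)] with N hN
    have hi : i < N := by omega
    have hj : j < N := by omega
    have hk : k < N := by omega
    have a1 : (⟨i, hi⟩ : Fin N) ≠ ⟨j, hj⟩ := fun hh => h1 (Fin.mk.inj_iff.1 hh)
    have a2 : (⟨j, hj⟩ : Fin N) ≠ ⟨k, hk⟩ := fun hh => h2 (Fin.mk.inj_iff.1 hh)
    have a3 : (⟨i, hi⟩ : Fin N) ≠ ⟨k, hk⟩ := fun hh => h3 (Fin.mk.inj_iff.1 hh)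
    change ⁅fN D p0 p1 N i j a, fN D p0 p1 N j k b⁆ = fN D p0 p1 N i k (a * b)
    rw [fN_of D p0 p1 hi hj h1 a1, fN_of D p0 p1 hj hk h2 a2, fN_of D p0 p1 hi hk h3 a3,
      rt_comm D p0 p1 hp a1 a2 a3]
  comm' i j k l a b h1 h2 h3 h4 := by
    unfold fI
    rw [← map_mul, ← map_mul]
    refine mk_eq_of_eventually D ?_
    filter_upwards [Filter.eventually_gt_atTop (i + j + k + l)] with N hN
    have hi : i < N := by omega
    have hj : j < N := by omega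
    have hk : k < N := by omega
    have hl : l < N := by omega
    have a1 : (⟨i, hi⟩ : Fin N) ≠ ⟨j, hj⟩ := fun hh => h1 (Fin.mk.inj_iff.1 hh)
    have a2 : (⟨k, hk⟩ : Fin N) ≠ ⟨l, hl⟩ := fun hh => h2 (Fin.mk.inj_iff.1 hh)
    have a3 : (⟨j, hj⟩ : Fin N) ≠ ⟨k, hk⟩ := fun hh => h3 (Fin.mk.inj_iff.1 hh)
    have a4 : (⟨i, hi⟩ : Fin N) ≠ ⟨l, hl⟩ := fun hh => h4 (Fin.mk.inj_iff.1 hh)
    change fN D p0 p1 N i j a * fN D p0 p1 N k l b = fN D p0 p1 N k l b * fN D p0 p1 N i j a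
    rw [fN_of D p0 p1 hi hj h1 a1, fN_of D p0 p1 hk hl h2 a2]
    exact rt_commute D p0 p1 a1 a2 a3 a4 a b

/-- The homomorphism from the Steinberg group. -/
noncomputable def PhiD : St A →* (∀ N : ℕ, Gt D (Fin N)) ⧸ evOne D := St.lift (fI D p0 p1) (isSt_fI D p0 p1 hp)

theorem PhiD_x (i j : ℕ) (a : A) : PhiD D p0 p1 hp (x i j a) = fI D p0 p1 i j a :=
  St.lift_x _ _ _ _ _

/-- `w` at level `N`. -/
def wN (N i j : ℕ) (u : Aˣ) : Gt D (Fin N) :=
  fN D p0 p1 N i j (u : A) * fN D p0 p1 N j i (-((u⁻¹ : Aˣ) : A)) * fN D p0 p1 N i j (u : A)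

theorem PhiD_ww (i j : ℕ) (u : Aˣ) : PhiD D p0 p1 hp (ww i j u) =
    QuotientGroup.mk' (evOne D) (fun N => wN D p0 p1 N i j u) := by
  unfold ww
  rw [map_mul, map_mul, PhiD_x, PhiD_x]
  unfold fI
  rw [← map_mul, ← map_mul]
  rfl

theorem PhiD_hh (i j : ℕ) (u : Aˣ) : PhiD D p0 p1 hp (hh i j u) =
    QuotientGroup.mk' (evOne D) (fun N => wN D p0 p1 N i j u * wN D p0 p1 N i j (-1)) := by
  unfold hh
  rw [map_mul, PhiD_ww, PhiD_ww, ← map_mul]
  rfl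

theorem wN_of {N i j : ℕ} (hi : i < N) (hj : j < N) (hij : i ≠ j)
    (h' : (⟨i, hi⟩ : Fin N) ≠ ⟨j, hj⟩) (u : Aˣ) :
    wN D p0 p1 N i j u = wG D p0 p1 h' u := by
  unfold wN wG
  rw [fN_of D p0 p1 hi hj hij h', fN_of D p0 p1 hj hi hij.symm h'.symm]

/-- The value of the detecting homomorphism. -/
def dval (u v : Aˣ) : S := D.ι (p1 u) * (D.s (p0 v) * D.ι (p0 ((v⁻¹ : Aˣ) : A)) - 1)

theorem PhiD_symS (u v : Aˣ) (h0 : p0 (u : A) = 1) (h1 : p1 (v : A) = 0) :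
    PhiD D p0 p1 hp (symS u v : St A) =
    QuotientGroup.mk' (evOne D) (fun N => Gt.cen (Fin N) (dval D p0 p1 u v)) := by
  have e : (symS u v : St A) = ⁅hh 0 1 u, hh 0 2 v⁆ := rfl
  rw [e, map_commutatorElement, PhiD_hh, PhiD_hh, ← map_commutatorElement]
  refine mk_eq_of_eventually D ?_
  filter_upwards [Filter.eventually_gt_atTop 2] with N hN
  have i0 : 0 < N := by omega
  have i1 : 1 < N := by omega
  have a1 : (⟨0, i0⟩ : Fin N) ≠ ⟨1, i1⟩ := fun hh => by simpa using Fin.mk.inj_iff.1 hh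
  have a2 : (⟨0, i0⟩ : Fin N) ≠ ⟨2, hN⟩ := fun hh => by simpa using Fin.mk.inj_iff.1 hh
  have a3 : (⟨1, i1⟩ : Fin N) ≠ ⟨2, hN⟩ := fun hh => by simpa using Fin.mk.inj_iff.1 hh
  change ⁅wN D p0 p1 N 0 1 u * wN D p0 p1 N 0 1 (-1), wN D p0 p1 N 0 2 v * wN D p0 p1 N 0 2 (-1)⁆ = _
  rw [wN_of D p0 p1 i0 i1 (by norm_num) a1, wN_of D p0 p1 i0 i1 (by norm_num) a1,
    wN_of D p0 p1 i0 hN (by norm_num) a2, wN_of D p0 p1 i0 hN (by norm_num) a2]
  exact comm_hG D p0 p1 hp a1 a2 a3 u v h0 h1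

include hp in
/-- **Detection of symbols.** -/
theorem symS_ne (u v u' v' : Aˣ) (h0 : p0 (u : A) = 1) (h1 : p1 (v : A) = 0)
    (h0' : p0 (u' : A) = 1) (h1' : p1 (v' : A) = 0)
    (hne : dval D p0 p1 u v ≠ dval D p0 p1 u' v') : symS u v ≠ symS u' v' := by
  intro he
  have h2 : PhiD D p0 p1 hp (symS u v : St A) = PhiD D p0 p1 hp (symS u' v' : St A) := by
    rw [he]
  rw [PhiD_symS D p0 p1 hp u v h0 h1, PhiD_symS D p0 p1 hp u' v' h0' h1'] at h2
  obtain ⟨N, hN⟩ := (eventually_of_mk_eq D h2).exists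
  exact hne (congrArg Gt.e hN)

end

end Pool.Agent.H30.KT
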