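import Pool.Agent.H30.KT.Theta

/-!
# The ring `R`
-/

namespace Pool.Agent.H30.KT

open Polynomial

/-- The relation forced on derivations. -/
theorem rel_der {R M : Type*} [CommRing R] [AddCommGroup M] [Module R M] (δ : Derivation ℤ R M)
    (x y t g g' : R) (h6 : IsUnit (6 : R))
    (hx : 6 * x ^ 5 + 4 * t * x ^ 3 * y ^ 2 + 2 * g * x * y ^ 4 = 0)
    (hy : 6 * y ^ 5 + 2 * t * x ^ 4 * y + 4 * g * x ^ 2 * y ^ 3 = 0)
    (ht : x ^ 4 * y ^ 2 + g' * x ^ 2 * y ^ 4 = 0) :
    (x ^ 2 * y ^ 4) • (δ g - g' • δ t) = 0 := by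
  have h0 : 6 * (x ^ 6 + y ^ 6 + t * (x ^ 4 * y ^ 2) + g * (x ^ 2 * y ^ 4)) = 0 := by
    linear_combination x * hx + y * hy
  have h1 : x ^ 6 + y ^ 6 + t * (x ^ 4 * y ^ 2) + g * (x ^ 2 * y ^ 4) = 0 := by
    obtain ⟨u, hu⟩ := h6
    rw [← hu] at h0
    simpa using h0
  have h2 := congrArg δ h1
  rw [map_zero, map_add, map_add, map_add, Derivation.leibniz_pow, Derivation.leibniz_pow,
    Derivation.leibniz, Derivation.leibniz, Derivation.leibniz, Derivation.leibniz,
    Derivation.leibniz_pow, Derivation.leibniz_pow, Derivation.leibniz_pow,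
    Derivation.leibniz_pow] at h2
  have h3 : (6 * x ^ 5 + 4 * t * x ^ 3 * y ^ 2 + 2 * g * x * y ^ 4) • δ x +
      (6 * y ^ 5 + 2 * t * x ^ 4 * y + 4 * g * x ^ 2 * y ^ 3) • δ y +
      (x ^ 4 * y ^ 2) • δ t + (x ^ 2 * y ^ 4) • δ g = 0 := by
    rw [← h2]
    module
  rw [hx, hy, zero_smul, zero_smul, zero_add, zero_add] at h3
  have h4 : x ^ 4 * y ^ 2 = -(g' * x ^ 2 * y ^ 4) := eq_neg_of_add_eq_zero_left ht
  rw [h4] at h3
  rw [← h3]
  module

section

variable {B : Type*} [CommRing B]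

/-- The monomial `c x^a y^b`. -/
noncomputable def mo (c : B) (a b : ℕ) : B[X][X] := C (C c * X ^ a) * X ^ b

theorem coeff_mul_mo (F : B[X][X]) (c : B) (a b i j : ℕ) :
    ((F * mo c a b).coeff j).coeff i =
      if b ≤ j ∧ a ≤ i then c * (F.coeff (j - b)).coeff (i - a) else 0 := by
  unfold mo
  rw [← mul_assoc, coeff_mul_X_pow']
  by_cases hb : b ≤ j
  · rw [if_pos hb, coeff_mul_C, ← mul_assoc, coeff_mul_X_pow']
    by_cases ha : a ≤ i
    · rw [if_pos ha, if_pos ⟨hb, ha⟩, coeff_mul_C, mul_comm]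
    · rw [if_neg ha, if_neg (fun h => ha h.2)]
  · rw [if_neg hb, if_neg (fun h => hb h.1), coeff_zero]

/-- The functional `Λ`. -/
noncomputable def Lam (t g g' : B) : B[X][X] →+ B where
  toFun F := ((4 * t * g' - 2 * g) * (F.coeff 0).coeff 6 - 6 * g' * (F.coeff 2).coeff 4 +
    6 * (F.coeff 4).coeff 2 + (2 * t * g' - 4 * g) * (F.coeff 6).coeff 0)
  map_zero' := by simp
  map_add' F G := by
    simp only [coeff_add]
    ring

theorem Lam_apply (t g g' : B) (F : B[X][X]) : Lam t g g' F =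
    ((4 * t * g' - 2 * g) * (F.coeff 0).coeff 6 - 6 * g' * (F.coeff 2).coeff 4 +
    6 * (F.coeff 4).coeff 2 + (2 * t * g' - 4 * g) * (F.coeff 6).coeff 0) := rfl

/-- The ideal. -/
noncomputable def II (t g g' : B) : Ideal (B[X][X]) :=
  Ideal.span {mo 6 5 0 + mo (4 * t) 3 2 + mo (2 * g) 1 4, mo 6 0 5 + mo (2 * t) 4 1 + mo (4 * g) 2 3,
    mo 1 4 2 + mo g' 2 4, mo 1 7 0, mo 1 0 7}

theorem Lam_II (t g g' : B) (F : B[X][X]) (hF : F ∈ II t g g') : ∀ s, Lam t g g' (s * F) = 0 := by
  unfold II at hF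
  induction hF using Submodule.span_induction with
  | zero => intro s; rw [mul_zero, map_zero]
  | add u v _ _ hu hv => intro s; rw [mul_add, map_add, hu, hv, add_zero]
  | mem F hF =>
    intro s
    simp only [Set.mem_insert_iff, Set.mem_singleton_iff] at hF
    rcases hF with rfl | rfl | rfl | rfl | rfl
    · rw [Lam_apply]
      simp only [mul_add, coeff_add, coeff_mul_mo]
      norm_num
      ring
    · rw [Lam_apply]
      simp only [mul_add, coeff_add, coeff_mul_mo]
      norm_num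
      ring
    · rw [Lam_apply]
      simp only [mul_add, coeff_add, coeff_mul_mo]
      norm_num
      ring
    · rw [Lam_apply]
      simp only [coeff_mul_mo]
      norm_num
    · rw [Lam_apply]
      simp only [coeff_mul_mo]
      norm_num
  | smul r F _ hF =>
    intro s
    rw [smul_eq_mul, ← mul_assoc]
    exact hF _

/-- The ring `R`. -/
def RR (t g g' : B) := B[X][X] ⧸ II t g g'

noncomputable instance (t g g' : B) : CommRing (RR t g g') :=
  inferInstanceAs (CommRing (B[X][X] ⧸ II t g g'))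

noncomputable instance (t g g' : B) : Algebra B (RR t g g') :=
  inferInstanceAs (Algebra B (B[X][X] ⧸ II t g g'))

/-- The quotient map. -/
noncomputable def qm (t g g' : B) : B[X][X] →+* RR t g g' := Ideal.Quotient.mk (II t g g')

theorem qm_surj (t g g' : B) : Function.Surjective (qm t g g') := Ideal.Quotient.mk_surjective

/-- The functional on `R`. -/
noncomputable def LamR (t g g' : B) : RR t g g' →+ B :=
  QuotientAddGroup.lift _ (Lam t g g') (fun F hF => by
    have := Lam_II t g g' F hF 1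
    rwa [one_mul] at this)

theorem LamR_mk (t g g' : B) (F : B[X][X]) :
    LamR t g g' (qm t g g' F) = Lam t g g' F := rfl

theorem algebraMap_eq (t g g' : B) (b : B) : algebraMap B (RR t g g') b = qm t g g' (C (C b)) := rfl

theorem LamR_smul (t g g' : B) (b : B) (r : RR t g g') :
    LamR t g g' (algebraMap B _ b * r) = b * LamR t g g' r := by
  obtain ⟨F, rfl⟩ := qm_surj t g g' r
  rw [algebraMap_eq, ← map_mul, LamR_mk, LamR_mk, Lam_apply, Lam_apply]
  simp only [coeff_C_mul]
  ring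

/-- The element `x`. -/
noncomputable def rx (t g g' : B) : RR t g g' := qm t g g' (C X)

/-- The element `y`. -/
noncomputable def ry (t g g' : B) : RR t g g' := qm t g g' X

theorem mk_mo (t g g' : B) (c : B) (a b : ℕ) :
    qm t g g' (mo c a b) =
      algebraMap B (RR t g g') c * rx t g g' ^ a * ry t g g' ^ b := by
  unfold mo rx ry
  rw [map_mul, map_mul, map_mul, map_pow, map_pow, map_pow]
  rfl

theorem mk_zero {t g g' : B} {F : B[X][X]} (hF : F ∈ ({mo 6 5 0 + mo (4 * t) 3 2 + mo (2 * g) 1 4,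
    mo 6 0 5 + mo (2 * t) 4 1 + mo (4 * g) 2 3,
    mo 1 4 2 + mo g' 2 4, mo 1 7 0, mo 1 0 7} : Set (B[X][X]))) :
    qm t g g' F = 0 :=
  Ideal.Quotient.eq_zero_iff_mem.2 (Ideal.subset_span hF)

theorem rel_x (t g g' : B) : 6 * rx t g g' ^ 5 + 4 * algebraMap B (RR t g g') t * rx t g g' ^ 3 *
    ry t g g' ^ 2 + 2 * algebraMap B (RR t g g') g * rx t g g' * ry t g g' ^ 4 = 0 := by
  have h := mk_zero (t := t) (g := g) (g' := g')
    (F := mo 6 5 0 + mo (4 * t) 3 2 + mo (2 * g) 1 4) (by simp)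
  rw [map_add, map_add, mk_mo, mk_mo, mk_mo, map_mul, map_mul] at h
  rw [← h]
  simp only [map_ofNat, pow_zero, mul_one, pow_one]

theorem rel_y (t g g' : B) : 6 * ry t g g' ^ 5 + 2 * algebraMap B (RR t g g') t * rx t g g' ^ 4 *
    ry t g g' + 4 * algebraMap B (RR t g g') g * rx t g g' ^ 2 * ry t g g' ^ 3 = 0 := by
  have h := mk_zero (t := t) (g := g) (g' := g')
    (F := mo 6 0 5 + mo (2 * t) 4 1 + mo (4 * g) 2 3) (by simp)
  rw [map_add, map_add, mk_mo, mk_mo, mk_mo, map_mul, map_mul] at h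
  rw [← h]
  simp only [map_ofNat, pow_zero, mul_one, pow_one]

theorem rel_t (t g g' : B) : rx t g g' ^ 4 * ry t g g' ^ 2 +
    algebraMap B (RR t g g') g' * rx t g g' ^ 2 * ry t g g' ^ 4 = 0 := by
  have h := mk_zero (t := t) (g := g) (g' := g')
    (F := mo 1 4 2 + mo g' 2 4) (by simp)
  rw [map_add, mk_mo, mk_mo] at h
  rw [← h]
  simp only [map_one, one_mul]

theorem rx_pow (t g g' : B) : rx t g g' ^ 7 = 0 := by
  have h := mk_zero (t := t) (g := g) (g' := g') (F := mo 1 7 0) (by simp)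
  rw [mk_mo] at h
  rw [← h]
  simp

theorem ry_pow (t g g' : B) : ry t g g' ^ 7 = 0 := by
  have h := mk_zero (t := t) (g := g) (g' := g') (F := mo 1 0 7) (by simp)
  rw [mk_mo] at h
  rw [← h]
  simp

theorem LamR_w (t g g' : B) : LamR t g g' (rx t g g' ^ 2 * ry t g g' ^ 4) = 6 := by
  have h : rx t g g' ^ 2 * ry t g g' ^ 4 = qm t g g' (1 * mo 1 2 4) := by
    rw [one_mul, mk_mo, map_one, one_mul]
  rw [h, LamR_mk, Lam_apply]
  simp only [coeff_mul_mo]
  norm_num

/-- The map `R → B`. -/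
noncomputable def piR (t g g' : B) : RR t g g' →+* B :=
  Ideal.Quotient.lift _ ((constantCoeff (R := B)).comp (constantCoeff (R := B[X]))) (by
    intro F hF
    unfold II at hF
    induction hF using Submodule.span_induction with
    | zero => exact map_zero _
    | add u v _ _ hu hv => rw [map_add, hu, hv, add_zero]
    | mem F hF =>
      simp only [Set.mem_insert_iff, Set.mem_singleton_iff] at hF
      have key : ∀ (c : B) (a b : ℕ), ((constantCoeff (R := B)).comp
          (constantCoeff (R := B[X]))) (mo c a b) = if b ≤ 0 ∧ a ≤ 0 then c else 0 := by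
        intro c a b
        have h1 := coeff_mul_mo 1 c a b 0 0
        rw [one_mul] at h1
        change ((mo c a b).coeff 0).coeff 0 = _
        rw [h1]
        simp
      rcases hF with rfl | rfl | rfl | rfl | rfl <;>
      simp only [map_add, key] <;> norm_num
    | smul r F _ hF => rw [smul_eq_mul, map_mul, hF, mul_zero])

theorem piR_mk (t g g' : B) (F : B[X][X]) : piR t g g' (qm t g g' F) = (F.coeff 0).coeff 0 := rfl

theorem piR_algebraMap (t g g' : B) (b : B) : piR t g g' (algebraMap B _ b) = b := by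
  rw [algebraMap_eq, piR_mk]
  simp

theorem piR_nil (t g g' : B) (r : RR t g g') (hr : piR t g g' r = 0) : IsNilpotent r := by
  obtain ⟨F, rfl⟩ := qm_surj t g g' r
  have h0 : (F.coeff 0).coeff 0 = 0 := hr
  have h1 : F = F.divX * X + C ((F.coeff 0).divX * X) := by
    conv_lhs => rw [← divX_mul_X_add F, ← divX_mul_X_add (F.coeff 0), h0, map_zero, add_zero]
  have n1 : ∀ a : RR t g g', IsNilpotent (a * rx t g g') := fun a =>
    ⟨7, by rw [mul_pow, rx_pow, mul_zero]⟩
  have n2 : ∀ a : RR t g g', IsNilpotent (a * ry t g g') := fun a =>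
    ⟨7, by rw [mul_pow, ry_pow, mul_zero]⟩
  rw [h1, map_add, map_mul, map_mul, map_mul]
  exact (Commute.all _ _).isNilpotent_add (n2 _) (n1 _)

end

end Pool.Agent.H30.KT
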