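import Pool.Agent.H30.KT.Det3
import Pool.Agent.H30.KT.RingR

/-!
# The detecting data for the ring `R`
-/

namespace Pool.Agent.H30.KT

open Polynomial

section

variable {R K : Type*} [CommRing R] [AddCommGroup K]

instance : Module Rᵐᵒᵖ (HM R K) := Module.compHom _ ((RingHom.id R).fromOpposite mul_comm)

instance : IsCentralScalar R (HM R K) := ⟨fun _ _ => rfl⟩

end

section

variable {B K : Type*} [CommRing B] [Field K] [Algebra B K] (δ : K →+ K)
  (hδ : ∀ a b, δ (a * b) = a * δ b + b * δ a)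

variable (B K) in
/-- The quotient `K/B`. -/
abbrev QQ := K ⧸ (algebraMap B K).toAddMonoidHom.range

variable {R : Type*} [CommRing R] [Algebra B R] (Λ : R →+ B)
  (hΛ : ∀ b r, Λ (algebraMap B R b * r) = b * Λ r)

/-- The derivation on `B`, with values in the maps `R → K/B`. -/
def dB (b : B) : HM R (QQ B K) :=
  ((QuotientAddGroup.mk' (algebraMap B K).toAddMonoidHom.range).comp
    ((AddMonoidHom.mulLeft (δ (algebraMap B K b))).comp
      ((algebraMap B K).toAddMonoidHom.comp Λ)) : R →+ QQ B K)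

omit [Algebra B R] in
theorem dB_apply (b : B) (r : R) : dB δ Λ b r =
    QuotientAddGroup.mk' (algebraMap B K).toAddMonoidHom.range
      (δ (algebraMap B K b) * algebraMap B K (Λ r)) := rfl

omit [Algebra B R] in
theorem dB_add (b c : B) : dB δ Λ (b + c) = dB δ Λ b + dB δ Λ c := by
  apply HM.ext'
  intro r
  rw [HM.add_apply, dB_apply, dB_apply, dB_apply, ← map_add, map_add, map_add, add_mul]

theorem dB_zero : dB δ Λ (0 : B) = 0 := by
  have := dB_add δ Λ 0 0
  rw [add_zero] at this
  exact left_eq_add.1 this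

include hδ hΛ in
theorem dB_mul (b c : B) : dB δ Λ (b * c) =
    algebraMap B R b • dB δ Λ c + algebraMap B R c • dB δ Λ b := by
  apply HM.ext'
  intro r
  rw [HM.add_apply, HM.smul_apply, HM.smul_apply, dB_apply, dB_apply, dB_apply, hΛ, hΛ, ← map_add,
    map_mul (algebraMap B K) b c, hδ, map_mul (algebraMap B K) b (Λ r),
    map_mul (algebraMap B K) c (Λ r)]
  congr 1
  ring

include hδ in
theorem delta_one : δ 1 = 0 := by
  have := hδ 1 1
  rw [mul_one, one_mul] at this
  exact left_eq_add.1 this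

include hδ in
theorem dB_one : dB δ Λ (1 : B) = 0 := by
  apply HM.ext'
  intro r
  rw [dB_apply, map_one, delta_one δ hδ, zero_mul, map_zero]
  rfl

omit [Algebra B R] in
theorem dB_eq_zero (b : B) (h : ∃ c, δ (algebraMap B K b) = algebraMap B K c) :
    dB δ Λ b = 0 := by
  obtain ⟨c, hc⟩ := h
  apply HM.ext'
  intro r
  rw [dB_apply, hc, ← map_mul]
  exact (QuotientAddGroup.eq_zero_iff _).2 ⟨_, rfl⟩

/-- The ring homomorphism on `B`. -/
def sB : B →+* TrivSqZeroExt R (HM R (QQ B K)) where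
  toFun b := TrivSqZeroExt.inl (algebraMap B R b) + TrivSqZeroExt.inr (dB δ Λ b)
  map_one' := by
    rw [dB_one δ hδ Λ, map_one]
    simp
  map_mul' b c := by
    rw [dB_mul δ hδ Λ hΛ, map_mul]
    apply TrivSqZeroExt.ext
    · simp
    · simp
  map_zero' := by
    rw [dB_zero, map_zero]
    simp
  map_add' b c := by
    rw [dB_add, map_add]
    apply TrivSqZeroExt.ext
    · simp
    · simp

theorem sB_apply (b : B) : sB δ hδ Λ hΛ b =
    TrivSqZeroExt.inl (algebraMap B R b) + TrivSqZeroExt.inr (dB δ Λ b) := rfl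

end

section

variable {B K : Type*} [CommRing B] [Field K] [Algebra B K] (δ : K →+ K)
  (hδ : ∀ a b, δ (a * b) = a * δ b + b * δ a) (t g g' : B)

/-- The target ring. -/
abbrev SS (B K : Type*) [CommRing B] [Field K] [Algebra B K] (t g g' : B) :=
  TrivSqZeroExt (RR t g g') (HM (RR t g g') (QQ B K))

/-- The homomorphism on polynomials. -/
noncomputable def sP : B[X][X] →+* SS B K t g g' :=
  eval₂RingHom (eval₂RingHom (sB δ hδ (LamR t g g') (LamR_smul t g g'))
    (TrivSqZeroExt.inl (rx t g g'))) (TrivSqZeroExt.inl (ry t g g'))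

theorem sP_C (b : B) : sP δ hδ t g g' (C (C b)) = sB δ hδ (LamR t g g') (LamR_smul t g g') b := by
  unfold sP
  simp

theorem sP_mo (c : B) (a b : ℕ) (hc : dB δ (LamR t g g') c = 0) :
    sP δ hδ t g g' (mo c a b) = TrivSqZeroExt.inl (qm t g g' (mo c a b)) := by
  rw [mk_mo]
  unfold mo
  rw [map_mul, C_mul, map_mul, sP_C, sB_apply, hc, TrivSqZeroExt.inr_zero, add_zero, map_pow,
    map_pow]
  have h1 : sP δ hδ t g g' (C X) = TrivSqZeroExt.inl (rx t g g') := by
    unfold sP
    simp
  have h2 : sP δ hδ t g g' X = TrivSqZeroExt.inl (ry t g g') := by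
    unfold sP
    simp
  rw [h1, map_pow, h2, TrivSqZeroExt.inl_mul, TrivSqZeroExt.inl_mul, TrivSqZeroExt.inl_pow,
    TrivSqZeroExt.inl_pow]

theorem fst_sP (F : B[X][X]) : (sP δ hδ t g g' F).fst = qm t g g' F := by
  have h : (TrivSqZeroExt.fstHom (RR t g g') (RR t g g') (HM (RR t g g') (QQ B K))).toRingHom.comp
      (sP δ hδ t g g') = qm t g g' := by
    apply Polynomial.ringHom_ext'
    · apply Polynomial.ringHom_ext'
      · ext b
        change (sP δ hδ t g g' (C (C b))).fst = qm t g g' (C (C b))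
        rw [sP_C, sB_apply]
        simp [algebraMap_eq]
      · change (sP δ hδ t g g' (C X)).fst = qm t g g' (C X)
        unfold sP
        simp
        rfl
    · change (sP δ hδ t g g' X).fst = qm t g g' X
      unfold sP
      simp
      rfl
  exact RingHom.congr_fun h F

variable (ht : ∃ c, δ (algebraMap B K t) = algebraMap B K c)
  (hg : ∃ c, δ (algebraMap B K g) = algebraMap B K c)
  (hg' : ∃ c, δ (algebraMap B K g') = algebraMap B K c)

include ht hg hg'

theorem sP_zero (F : B[X][X]) (hF : F ∈ II t g g') : sP δ hδ t g g' F = 0 := by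
  have hn : ∀ (b : B) (n : ℕ), (∃ c, δ (algebraMap B K b) = algebraMap B K c) →
      dB δ (LamR t g g') ((n : B) * b) = 0 := by
    rintro b n ⟨c, hc⟩
    refine dB_eq_zero δ _ _ ⟨n * c, ?_⟩
    rw [map_mul, map_natCast, ← nsmul_eq_mul, map_nsmul, hc, map_mul, map_natCast, nsmul_eq_mul]
  have h1 : ∃ c, δ (algebraMap B K 1) = algebraMap B K c :=
    ⟨0, by rw [map_one, delta_one δ hδ, map_zero]⟩
  have n6 : dB δ (LamR t g g') (6 : B) = 0 := by simpa using hn 1 6 h1
  have n1 : dB δ (LamR t g g') (1 : B) = 0 := by simpa using hn 1 1 h1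
  have n4t : dB δ (LamR t g g') (4 * t) = 0 := by simpa using hn t 4 ht
  have n2t : dB δ (LamR t g g') (2 * t) = 0 := by simpa using hn t 2 ht
  have n2g : dB δ (LamR t g g') (2 * g) = 0 := by simpa using hn g 2 hg
  have n4g : dB δ (LamR t g g') (4 * g) = 0 := by simpa using hn g 4 hg
  have ng' : dB δ (LamR t g g') g' = 0 := by simpa using hn g' 1 hg'
  unfold II at hF
  induction hF using Submodule.span_induction with
  | zero => exact map_zero _
  | add u v _ _ hu hv => rw [map_add, hu, hv, add_zero]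
  | mem F hF =>
    have hz := mk_zero hF
    have key : sP δ hδ t g g' F = TrivSqZeroExt.inl (qm t g g' F) := by
      simp only [Set.mem_insert_iff, Set.mem_singleton_iff] at hF
      rcases hF with rfl | rfl | rfl | rfl | rfl
      · rw [map_add, map_add, map_add, map_add, sP_mo _ _ _ _ _ _ _ _ n6,
          sP_mo _ _ _ _ _ _ _ _ n4t, sP_mo _ _ _ _ _ _ _ _ n2g, TrivSqZeroExt.inl_add,
          TrivSqZeroExt.inl_add]
      · rw [map_add, map_add, map_add, map_add, sP_mo _ _ _ _ _ _ _ _ n6,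
          sP_mo _ _ _ _ _ _ _ _ n2t, sP_mo _ _ _ _ _ _ _ _ n4g, TrivSqZeroExt.inl_add,
          TrivSqZeroExt.inl_add]
      · rw [map_add, map_add, sP_mo _ _ _ _ _ _ _ _ n1,
          sP_mo _ _ _ _ _ _ _ _ ng', TrivSqZeroExt.inl_add]
      · rw [sP_mo _ _ _ _ _ _ _ _ n1]
      · rw [sP_mo _ _ _ _ _ _ _ _ n1]
    rw [key, hz, TrivSqZeroExt.inl_zero]
  | smul r F _ hF => rw [smul_eq_mul, map_mul, hF, mul_zero]

/-- The homomorphism on `R`. -/
noncomputable def sR : RR t g g' →+* SS B K t g g' :=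
  Ideal.Quotient.lift _ (sP δ hδ t g g') (sP_zero δ hδ t g g' ht hg hg')

theorem sR_qm (F : B[X][X]) : sR δ hδ t g g' ht hg hg' (qm t g g' F) = sP δ hδ t g g' F :=
  Ideal.Quotient.lift_mk _ _ _

theorem sR_algebraMap (b : B) : sR δ hδ t g g' ht hg hg' (algebraMap B _ b) =
    TrivSqZeroExt.inl (algebraMap B _ b) + TrivSqZeroExt.inr (dB δ (LamR t g g') b) := by
  have h := sR_qm δ hδ t g g' ht hg hg' (C (C b))
  rw [sP_C] at h
  exact h

theorem fst_sR (r : RR t g g') : (sR δ hδ t g g' ht hg hg' r).fst = r := by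
  obtain ⟨F, rfl⟩ := qm_surj t g g' r
  rw [sR_qm, fst_sP]

/-- The detecting data. -/
noncomputable def DR : SqData (RR t g g') (SS B K t g g') where
  ι := TrivSqZeroExt.inlHom _ _
  s := sR δ hδ t g g' ht hg hg'
  sq a b := by
    have key : ∀ c : RR t g g', (sR δ hδ t g g' ht hg hg' c - TrivSqZeroExt.inlHom (RR t g g')
        (HM (RR t g g') (QQ B K)) c).fst = 0 := by
      intro c
      rw [TrivSqZeroExt.fst_sub, fst_sR]
      change c - c = 0
      rw [sub_self]
    apply TrivSqZeroExt.ext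
    · rw [TrivSqZeroExt.fst_mul, key, zero_mul]; rfl
    · rw [TrivSqZeroExt.snd_mul, key, key]
      simp

end

end Pool.Agent.H30.KT
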