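import Pool.Agent.H30.KT.St

/-!
# The ring `Frac A` and the kernel of `δ₂`
-/

namespace Pool.Agent.H30.KT

open IsLocalRing

/-- `Frac A`: the product of the localizations of `A` at its minimal prime ideals. -/
abbrev FracP (A : Type*) [CommRing A] : Type _ :=
  ∀ p : {p : PrimeSpectrum A // p.asIdeal ∈ minimalPrimes A}, Localization.AtPrime p.1.asIdeal

/-- The element `κ` of `K₂(A)` is mapped to the neutral element of `K₂(B)` under the homomorphism
induced by `f`. -/
def Vanishes {A B : Type*} [CommRing A] [CommRing B] (f : A →+* B) (κ : K2 A) : Prop :=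
  K2.map f κ = 1

/-- The element `κ` of `K₂(A)` vanishes in `K₂(A/I)`. -/
def VanishesMod {A : Type*} [CommRing A] (I : Ideal A) (κ : K2 A) : Prop :=
  Vanishes (Ideal.Quotient.mk I) κ

/-- The element `κ` of `K₂(A)` vanishes in `K₂(Frac A)`. -/
def VanishesFrac {A : Type*} [CommRing A] (κ : K2 A) : Prop :=
  Vanishes (algebraMap A (FracP A)) κ

/-- The element `κ` of `K₂(A)` lies in the kernel of
`δ₂ : K₂(A) → lim_r K₂(A/𝔪^r) ⊕ K₂(Frac A)`. -/
def InKerDelta (A : Type*) [CommRing A] [IsLocalRing A] (κ : K2 A) : Prop :=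
  (∀ r : ℕ, VanishesMod (maximalIdeal A ^ r) κ) ∧ VanishesFrac κ

end Pool.Agent.H30.KT
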