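import Pool.Agent.H30.KT.NeOne
import Pool.Agent.H30.KT.Comp

/-!
# The structure of `A = R[ε]`
-/

namespace Pool.Agent.H30.KT

open PowerSeries IsLocalRing

variable (t g g' : ℚ⟦X⟧)

/-- The ring `A = R[ε]`. -/
def AA := DualNumber (RR t g g')

noncomputable instance : CommRing (AA t g g') := inferInstanceAs (CommRing (DualNumber (RR t g g')))

noncomputable instance : Algebra ℚ⟦X⟧ (AA t g g') :=
  inferInstanceAs (Algebra ℚ⟦X⟧ (DualNumber (RR t g g')))

/-- The inclusion `R → A`. -/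
noncomputable def incA : RR t g g' →+* AA t g g' := inc (RR t g g')

/-- The projection `A → ℚ⟦X⟧`. -/
noncomputable def psiA : AA t g g' →+* ℚ⟦X⟧ := (piR t g g').comp (p0R (RR t g g'))

theorem psiA_algebraMap (b : ℚ⟦X⟧) : psiA t g g' (algebraMap ℚ⟦X⟧ (AA t g g') b) = b :=
  piR_algebraMap t g g' b

theorem psiA_inl (r : RR t g g') : psiA t g g' (incA t g g' r) = piR t g g' r := rfl

theorem psiA_nil (a : AA t g g') (ha : psiA t g g' a = 0) : IsNilpotent a := by
  have key : ∀ a : DualNumber (RR t g g'), piR t g g' a.fst = 0 → IsNilpotent a := by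
    intro a ha
    have h1 : IsNilpotent a.fst := piR_nil t g g' _ ha
    have h2 : a = TrivSqZeroExt.inl a.fst + TrivSqZeroExt.inr a.snd :=
      (TrivSqZeroExt.inl_fst_add_inr_snd_eq a).symm
    rw [h2]
    refine (Commute.all _ _).isNilpotent_add ?_ ⟨2, ?_⟩
    · exact h1.map (TrivSqZeroExt.inlHom (RR t g g') (RR t g g'))
    · rw [pow_two, TrivSqZeroExt.inr_mul_inr]
  obtain ⟨n, hn⟩ := key a ha
  exact ⟨n, hn⟩

instance finR : Algebra.FiniteType ℚ⟦X⟧ (RR t g g') := by
  have h1 : Algebra.FiniteType ℚ⟦X⟧ (Polynomial (Polynomial ℚ⟦X⟧)) :=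
    Algebra.FiniteType.trans (S := Polynomial ℚ⟦X⟧) inferInstance inferInstance
  exact Algebra.FiniteType.of_surjective (Ideal.Quotient.mkₐ ℚ⟦X⟧ (II t g g'))
    (Ideal.Quotient.mkₐ_surjective _ _)

instance finA : Algebra.FiniteType ℚ⟦X⟧ (AA t g g') := by
  have h1 : Module.Finite ℚ⟦X⟧ (RR t g g') :=
    finite_of (piR t g g') (piR_algebraMap t g g') (piR_nil t g g')
  have h2 : Module.Finite ℚ⟦X⟧ (RR t g g' × RR t g g') := inferInstance
  have h3 : Module.Finite ℚ⟦X⟧ (AA t g g') := h2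
  infer_instance

instance locR : IsLocalRing (RR t g g') := isLoc (piR t g g') (piR_algebraMap t g g') (piR_nil t g g')

instance locA : IsLocalRing (AA t g g') :=
  isLoc (psiA t g g') (psiA_algebraMap t g g') (psiA_nil t g g')

theorem noethA : IsNoetherianRing (AA t g g') :=
  isNoeth (psiA t g g') (psiA_algebraMap t g g') (psiA_nil t g g')

theorem adicA : IsAdicComplete (maximalIdeal (AA t g g')) (AA t g g') :=
  isAdic (psiA t g g') (psiA_algebraMap t g g') (psiA_nil t g g')

theorem kdimA : ringKrullDim (AA t g g') = 1 :=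
  kdim (psiA t g g') (psiA_algebraMap t g g') (psiA_nil t g g')

theorem minA (p : Ideal (AA t g g')) (hp : p ∈ minimalPrimes (AA t g g')) :
    p = RingHom.ker (psiA t g g') :=
  minPrime (psiA t g g') (psiA_algebraMap t g g') (psiA_nil t g g') p hp

noncomputable instance algQR : Algebra ℚ (RR t g g') :=
  ((algebraMap ℚ⟦X⟧ (RR t g g')).comp (algebraMap ℚ ℚ⟦X⟧)).toAlgebra

end Pool.Agent.H30.KT
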