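import Mathlib

/-!
# A wild derivation
-/

namespace Pool.Agent.H30.KT

open scoped IntermediateField.algebraAdjoinAdjoin Cardinal

theorem lift_abs {A0 L S : Type*} [CommRing A0] [CommRing L] [Algebra A0 L]
    [Algebra.FormallySmooth A0 L] [CommRing S] (σ0 : A0 →+* S) (π : S →+* L)
    (hπ : Function.Surjective π) (hk : IsNilpotent (RingHom.ker π))
    (hc : π.comp σ0 = algebraMap A0 L) :
    ∃ F : L →+* S, (∀ a, π (F a) = a) ∧ ∀ a, F (algebraMap A0 L a) = σ0 a := by
  let _ : Algebra A0 S := σ0.toAlgebra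
  let g : S →ₐ[A0] L := { π with commutes' := fun a => RingHom.congr_fun hc a }
  let F := Algebra.FormallySmooth.liftOfSurjective (AlgHom.id A0 L) g hπ hk
  refine ⟨F.toRingHom, fun a => ?_, fun a => ?_⟩
  · exact Algebra.FormallySmooth.liftOfSurjective_apply (AlgHom.id A0 L) g hπ hk a
  · exact F.commutes a

theorem nil_ker {S L : Type*} [CommRing S] [CommRing L] (π : S →+* L)
    (h : ∀ a b, π a = 0 → π b = 0 → a * b = 0) : IsNilpotent (RingHom.ker π) := by
  refine ⟨2, ?_⟩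
  rw [pow_two, Ideal.zero_eq_bot, eq_bot_iff, Ideal.mul_le]
  intro a ha b hb
  rw [Ideal.mem_bot]
  exact h a b ha hb

theorem exists_der {L : Type*} [Field L] [CharZero L] [Algebra ℚ L] (t : L)
    (ht : Transcendental ℚ t) (hL : ℵ₀ < #L) :
    ∃ (g0 : L) (δ : L →+ L), (∀ a b, δ (a * b) = a * δ b + b * δ a) ∧ δ t = 0 ∧ δ g0 = 1 := by
  classical
  have h1 : AlgebraicIndepOn ℚ id ({t} : Set L) := by
    have : AlgebraicIndependent ℚ (fun x : ({t} : Set L) => (id (x : L) : L)) :=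
      (algebraicIndependent_singleton_iff (⟨t, rfl⟩ : ({t} : Set L))).2 ht
    exact this
  obtain ⟨s, hts, hs⟩ := exists_isTranscendenceBasis_superset h1
  have hts' : t ∈ s := hts rfl
  have hne : ∃ g0 ∈ s, g0 ≠ t := by
    by_contra hcon
    push Not at hcon
    have hsc : s.Countable := (Set.countable_singleton t).mono fun x hx => hcon x hx
    have : Countable s := hsc
    have h2 : #(MvPolynomial s ℚ) ≤ ℵ₀ := by
      refine MvPolynomial.cardinalMk_le_max_lift.trans ?_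
      simp
    have h3 : #(Algebra.adjoin ℚ (Set.range ((↑) : s → L))) ≤ ℵ₀ := by
      have e := hs.1.aevalEquiv.toEquiv
      have : Countable (MvPolynomial s ℚ) := Cardinal.mk_le_aleph0_iff.1 h2
      exact Cardinal.mk_le_aleph0_iff.2 e.symm.injective.countable
    have := hs.isAlgebraic
    have h4 := Algebra.IsAlgebraic.cardinalMk_le_max
      (Algebra.adjoin ℚ (Set.range ((↑) : s → L))) L
    exact absurd (h4.trans (max_le h3 le_rfl)) (not_le.2 hL)
  obtain ⟨g0, hg0, hg0t⟩ := hne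
  set A0 := Algebra.adjoin ℚ (Set.range ((↑) : s → L)) with hA0
  set Q := IntermediateField.adjoin ℚ (Set.range ((↑) : s → L)) with hQ
  have e1 : Algebra.FormallySmooth A0 Q := .of_isLocalization (nonZeroDivisors _)
  have e2 : Algebra.IsAlgebraic A0 L := hs.isAlgebraic
  have e3 : Algebra.IsAlgebraic Q L := IntermediateField.isAlgebraic_adjoin_iff_top.2 e2
  have e4 : Algebra.IsSeparable Q L := inferInstance
  have e5 : Algebra.FormallyEtale Q L := Algebra.FormallyEtale.of_isSeparable _ L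
  have e6 : Algebra.FormallySmooth A0 L := .comp A0 Q L
  let S := TrivSqZeroExt L L
  let v : s → S := fun i => TrivSqZeroExt.inl (i : L) + (if (i : L) = g0 then TrivSqZeroExt.inr 1 else 0)
  let σ1 : MvPolynomial s ℚ →ₐ[ℚ] S := MvPolynomial.aeval v
  let σ0 : A0 →ₐ[ℚ] S := σ1.comp hs.1.aevalEquiv.symm.toAlgHom
  have hv : ∀ i : s, σ0 ⟨(i : L), Algebra.subset_adjoin ⟨i, rfl⟩⟩ = v i := by
    intro i
    have e7 : hs.1.aevalEquiv.symm ⟨(i : L), Algebra.subset_adjoin ⟨i, rfl⟩⟩ =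
        MvPolynomial.X i := by
      rw [AlgEquiv.symm_apply_eq]
      apply Subtype.ext
      simp
    change σ1 (hs.1.aevalEquiv.symm ⟨(i : L), Algebra.subset_adjoin ⟨i, rfl⟩⟩) = v i
    rw [e7]
    exact MvPolynomial.aeval_X _ _
  let π : S →+* L := (TrivSqZeroExt.fstHom L L L).toRingHom
  have hπ : Function.Surjective π := fun a => ⟨TrivSqZeroExt.inl a, rfl⟩
  have hk : IsNilpotent (RingHom.ker π) := by
    refine nil_ker π fun a b ha hb => ?_
    have ha' : a.fst = 0 := ha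
    have hb' : b.fst = 0 := hb
    apply TrivSqZeroExt.ext
    · rw [TrivSqZeroExt.fst_mul, ha', zero_mul]; rfl
    · rw [TrivSqZeroExt.snd_mul, ha', hb', zero_smul, MulOpposite.op_zero, zero_smul, add_zero]; rfl
  have hc : π.comp (σ0 : A0 →+* S) = algebraMap A0 L := by
    have hh : (π.comp (σ1 : MvPolynomial s ℚ →+* S)) =
        ((MvPolynomial.aeval ((↑) : s → L) : MvPolynomial s ℚ →ₐ[ℚ] L) : MvPolynomial s ℚ →+* L) := by
      apply MvPolynomial.ringHom_ext
      · intro q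
        simp
      · intro i
        change π (σ1 (MvPolynomial.X i)) = MvPolynomial.aeval ((↑) : s → L) (MvPolynomial.X i)
        have e8 : σ1 (MvPolynomial.X i) = v i := MvPolynomial.aeval_X _ _
        have e9 : (v i).fst = (i : L) := by
          simp only [v]
          split_ifs
          · exact add_zero (i : L)
          · exact add_zero (i : L)
        exact (congrArg π e8).trans (e9.trans (MvPolynomial.aeval_X _ _).symm)
    ext a
    change π (σ1 (hs.1.aevalEquiv.symm a)) = (a : L)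
    have h5 := RingHom.congr_fun hh (hs.1.aevalEquiv.symm a)
    refine h5.trans ?_
    have h6 : ((hs.1.aevalEquiv (hs.1.aevalEquiv.symm a) : A0) : L) = a := by
      rw [AlgEquiv.apply_symm_apply]
    exact (hs.1.algebraMap_aevalEquiv _).symm.trans h6
  obtain ⟨F, hF1, hF2⟩ := lift_abs (σ0 : A0 →+* S) π hπ hk hc
  have hFv : ∀ i : s, F (i : L) = v i := by
    intro i
    have := hF2 ⟨(i : L), Algebra.subset_adjoin ⟨i, rfl⟩⟩
    exact this.trans (hv i)
  refine ⟨g0, { toFun := fun a => (F a).snd, map_zero' := by simp, map_add' := fun a b => by rw [map_add]; rfl }, ?_, ?_, ?_⟩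
  · intro a b
    change (F (a * b)).snd = a * (F b).snd + b * (F a).snd
    have ha : (F a).fst = a := hF1 a
    have hb : (F b).fst = b := hF1 b
    rw [map_mul, TrivSqZeroExt.snd_mul, ha, hb]
    simp
    exact mul_comm _ _
  · change (F t).snd = 0
    rw [hFv ⟨t, hts'⟩]
    simp [v, Ne.symm hg0t]
  · change (F g0).snd = 1
    rw [hFv ⟨g0, hg0⟩]
    simp only [v, if_true]
    exact zero_add (1 : L)

open PowerSeries in
theorem uncountable_ps : Uncountable ℚ⟦X⟧ := by
  by_contra hcon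
  rw [not_uncountable_iff] at hcon
  classical
  let f : Set ℕ → ℚ⟦X⟧ := fun s => PowerSeries.mk fun n => if n ∈ s then 1 else 0
  have hf : Function.Injective f := by
    intro s s' h
    ext n
    have h1 := congrArg (coeff n) h
    simp only [f, coeff_mk] at h1
    by_cases hs : n ∈ s <;> by_cases hs' : n ∈ s' <;> simp_all
  have h2 : Countable (Set ℕ) := hf.countable
  have h3 := Cardinal.mk_le_aleph0_iff.2 h2
  rw [Cardinal.mk_set, Cardinal.mk_nat] at h3
  exact absurd h3 (not_le.2 (Cardinal.cantor _))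

open PowerSeries in
theorem transc_X : Transcendental ℚ (X : ℚ⟦X⟧) := by
  rw [transcendental_iff_injective]
  have h : (Polynomial.aeval (X : ℚ⟦X⟧) : Polynomial ℚ →ₐ[ℚ] ℚ⟦X⟧) =
      Polynomial.coeToPowerSeries.algHom ℚ := by
    apply Polynomial.algHom_ext
    simp
  rw [h]
  intro p q hpq
  have : (p : ℚ⟦X⟧) = (q : ℚ⟦X⟧) := by simpa using hpq
  exact Polynomial.coe_injective ℚ this

open PowerSeries in
theorem exists_wild (K : Type) [Field K] [Algebra ℚ⟦X⟧ K] [IsFractionRing ℚ⟦X⟧ K] :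
    ∃ (g : ℚ⟦X⟧) (δ : K →+ K),
    (∀ a b, δ (a * b) = a * δ b + b * δ a) ∧ δ (algebraMap ℚ⟦X⟧ K X) = 0 ∧
    (∃ b : ℚ⟦X⟧, b ≠ 0 ∧ δ (algebraMap ℚ⟦X⟧ K g) = algebraMap ℚ⟦X⟧ K b) ∧
    (∃ b : ℚ⟦X⟧, δ (algebraMap ℚ⟦X⟧ K (PowerSeries.derivative ℚ g)) = algebraMap ℚ⟦X⟧ K b) := by
  have hinj : Function.Injective (algebraMap ℚ⟦X⟧ K) := IsFractionRing.injective _ _
  have hch0 : CharZero ℚ⟦X⟧ := charZero_of_injective_algebraMap (algebraMap ℚ ℚ⟦X⟧).injective
  have hch : CharZero K := charZero_of_injective_algebraMap hinj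
  have ht : Transcendental ℚ (algebraMap ℚ⟦X⟧ K X) := by
    have h1 := transc_X
    rw [transcendental_iff] at h1 ⊢
    intro p hp
    refine h1 p (hinj ?_)
    rw [map_zero, ← hp, Polynomial.aeval_def, Polynomial.aeval_def, Polynomial.hom_eval₂]
    congr 1
    exact Subsingleton.elim _ _
  have hunc : ℵ₀ < #K := by
    rw [Cardinal.aleph0_lt_mk_iff]
    have := uncountable_ps
    exact hinj.uncountable
  obtain ⟨g0, δ, hδ, hδt, hδg⟩ := exists_der _ ht hunc
  have hex : ∃ g : ℚ⟦X⟧, δ (algebraMap ℚ⟦X⟧ K g) ≠ 0 := by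
    obtain ⟨a, b, hb, hab⟩ := IsFractionRing.div_surjective (A := ℚ⟦X⟧) g0
    by_contra hcon
    push Not at hcon
    have hb' : algebraMap ℚ⟦X⟧ K b ≠ 0 := by
      rw [Ne, map_eq_zero_iff _ hinj]
      exact nonZeroDivisors.ne_zero hb
    have h2 := hδ g0 (algebraMap ℚ⟦X⟧ K b)
    rw [hcon b, mul_zero, zero_add, hδg, ← hab, div_mul_cancel₀ _ hb', hcon a, mul_one] at h2
    exact hb' h2.symm
  obtain ⟨g, hg⟩ := hex
  obtain ⟨a1, b1, hb1, hab1⟩ := IsFractionRing.div_surjective (A := ℚ⟦X⟧) (δ (algebraMap ℚ⟦X⟧ K g))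
  obtain ⟨a2, b2, hb2, hab2⟩ := IsFractionRing.div_surjective (A := ℚ⟦X⟧)
    (δ (algebraMap ℚ⟦X⟧ K (PowerSeries.derivative ℚ g)))
  have hb1' : algebraMap ℚ⟦X⟧ K b1 ≠ 0 := by
    rw [Ne, map_eq_zero_iff _ hinj]
    exact nonZeroDivisors.ne_zero hb1
  have hb2' : algebraMap ℚ⟦X⟧ K b2 ≠ 0 := by
    rw [Ne, map_eq_zero_iff _ hinj]
    exact nonZeroDivisors.ne_zero hb2
  refine ⟨g, (AddMonoidHom.mulLeft (algebraMap ℚ⟦X⟧ K (b1 * b2))).comp δ, ?_, ?_, ?_, ?_⟩
  · intro a b
    simp only [AddMonoidHom.comp_apply, AddMonoidHom.coe_mulLeft, hδ]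
    ring
  · simp only [AddMonoidHom.comp_apply, AddMonoidHom.coe_mulLeft, hδt, mul_zero]
  · have e : algebraMap ℚ⟦X⟧ K (b1 * b2) * δ (algebraMap ℚ⟦X⟧ K g) = algebraMap ℚ⟦X⟧ K (a1 * b2) := by
      rw [← hab1, map_mul, map_mul]
      field_simp
    refine ⟨a1 * b2, ?_, e⟩
    intro h0
    rw [h0, map_zero, mul_eq_zero, map_mul, mul_eq_zero] at e
    rcases e with (e | e) | e
    · exact hb1' e
    · exact hb2' e
    · exact hg e
  · refine ⟨a2 * b1, ?_⟩
    simp only [AddMonoidHom.comp_apply, AddMonoidHom.coe_mulLeft]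
    rw [← hab2, map_mul, map_mul]
    field_simp

end Pool.Agent.H30.KT
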