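import Pool.Agent.H30.KT.NeOne
import Pool.Agent.H30.KT.Str
import Pool.Agent.H30.KT.Frac
import Pool.Agent.H30.KT.Wild

/-!
# The counterexample
-/

namespace Pool.Agent.H30.KT

open PowerSeries IsLocalRing

section

variable {A R T R' : Type*} [CommRing R] [CommRing T] [CommRing R']

theorem map_ee (f : DualNumber R →+* T) (i' : R' →+* T) (j : R →+* R')
    (hf : ∀ r, f (TrivSqZeroExt.inl r) = i' (j r)) (hε : f DualNumber.eps * f DualNumber.eps = 0)
    (a : R) :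
    Units.map (f : DualNumber R →* T) (ee (inc R) DualNumber.eps (epsq R) a) =
      ee i' (f DualNumber.eps) hε (j a) := by
  apply Units.ext
  change f (1 + TrivSqZeroExt.inl a * DualNumber.eps) = 1 + i' (j a) * f DualNumber.eps
  rw [map_add, map_one, map_mul, hf]

theorem map_iu (f : DualNumber R →+* T) (i' : R' →+* T) (j : R →+* R')
    (hf : ∀ r, f (TrivSqZeroExt.inl r) = i' (j r)) (c : Rˣ) :
    Units.map (f : DualNumber R →* T) (iu (inc R) c) = iu i' (Units.map (j : R →* R') c) := by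
  apply Units.ext
  exact hf c

theorem eps_sq_map (f : DualNumber R →+* T) : f DualNumber.eps * f DualNumber.eps = 0 := by
  rw [← map_mul, epsq, map_zero]

variable (φ : ℚ⟦X⟧ →+* R) (w : R) (c : ℚ⟦X⟧) (C V : Rˣ)

/-- The class `κ`. -/
noncomputable def kappa : K2 (DualNumber R) :=
  symS (ee (inc R) DualNumber.eps (epsq R) (w * C)) (iu (inc R) C) *
    (symS (ee (inc R) DualNumber.eps (epsq R) (w * φ (dd c) * V)) (iu (inc R) V))⁻¹

theorem kappa_map (hC : (C : R) = φ c) (hV : (V : R) = φ (1 + X)) (f : DualNumber R →+* T)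
    (i' : R' →+* T) (j : R →+* R')
    (hf : ∀ r, f (TrivSqZeroExt.inl r) = i' (j r)) [Algebra ℚ R'] [IsLocalRing R']
    (h : theta (j.comp φ) (derS i' (f DualNumber.eps) (eps_sq_map f) (isSymbol_symA T)) c (j w) = 0) :
    K2.map f (kappa φ w c C V) = 1 := by
  unfold kappa
  rw [map_mul, map_inv, mul_inv_eq_one, K2_map_symS, K2_map_symS,
    map_ee f i' j hf (eps_sq_map f), map_ee f i' j hf (eps_sq_map f), map_iu f i' j hf,
    map_iu f i' j hf]
  have h2 := van_core i' (f DualNumber.eps) (eps_sq_map f) (j.comp φ) (j w) c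
    (Units.map (j : R →* R') C) (Units.map (j : R →* R') V)
    (by rw [Units.coe_map, MonoidHom.coe_coe, hC]; rfl)
    (by rw [Units.coe_map, MonoidHom.coe_coe, hV]; rfl) h
  rw [map_mul, map_mul, map_mul]
  exact h2

theorem kappa_nil (hC : (C : R) = φ c) (hV : (V : R) = φ (1 + X)) [Algebra ℚ R] [IsLocalRing R]
    (f : DualNumber R →+* T) (r : ℕ) (h : f (TrivSqZeroExt.inl (φ X)) ^ r = 0) :
    K2.map f (kappa φ w c C V) = 1 :=
  kappa_map φ w c C V hC hV f (f.comp (inc R)) (RingHom.id R) (fun _ => rfl)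
    (van_nil (f.comp (inc R)) (f DualNumber.eps) (eps_sq_map f) ((RingHom.id R).comp φ) w c r h)

theorem kappa_unit (g : ℚ⟦X⟧) (M : ℕ) (hC : (C : R) = φ (cM g M)) (hV : (V : R) = φ (1 + X))
    (f : DualNumber R →+* T)
    (i' : R' →+* T) (j : R →+* R')
    (hf : ∀ r, f (TrivSqZeroExt.inl r) = i' (j r)) [Algebra ℚ R'] [IsLocalRing R']
    (hX : IsUnit (j (φ X)))
    (hw : j w • theta (j.comp φ) (derS i' (f DualNumber.eps) (eps_sq_map f) (isSymbol_symA T)) g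
      = 0) :
    K2.map f (kappa φ w (cM g M) C V) = 1 :=
  kappa_map φ w (cM g M) C V hC hV f i' j hf
    (van_unit i' (f DualNumber.eps) (eps_sq_map f) (j.comp φ) (j w) g M hX hw)

end

theorem exists_data (K : Type) [Field K] [Algebra ℚ⟦X⟧ K] [IsFractionRing ℚ⟦X⟧ K] :
    ∃ (g : ℚ⟦X⟧) (M : ℕ) (δ : K →+ K), (∀ a b, δ (a * b) = a * δ b + b * δ a) ∧
      (∃ c, δ (algebraMap ℚ⟦X⟧ K X) = algebraMap ℚ⟦X⟧ K c) ∧
      (∃ c, δ (algebraMap ℚ⟦X⟧ K g) = algebraMap ℚ⟦X⟧ K c) ∧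
      (∃ c, δ (algebraMap ℚ⟦X⟧ K (dd g)) = algebraMap ℚ⟦X⟧ K c) ∧
      (∃ c, δ (algebraMap ℚ⟦X⟧ K (1 + X)) = algebraMap ℚ⟦X⟧ K c) ∧
      ¬ ∃ c, 6 * δ (algebraMap ℚ⟦X⟧ K (cM g M)) = algebraMap ℚ⟦X⟧ K c := by
  obtain ⟨g, δ, hδ, hδX, ⟨b0, hb0, hg⟩, hg'⟩ := exists_wild K
  have hinj : Function.Injective (algebraMap ℚ⟦X⟧ K) := IsFractionRing.injective _ _
  let δK : Derivation ℤ K K := Derivation.mk'
    { toFun := δ
      map_add' := map_add δ
      map_smul' := fun n a => map_zsmul δ n a } hδ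
  have hδK : ∀ a, δK a = δ a := fun _ => rfl
  have hM : ∃ M : ℕ, ¬ (X : ℚ⟦X⟧) ^ M ∣ 6 * (X * b0) := by
    by_contra hcon
    push Not at hcon
    have h6 : 6 * ((X : ℚ⟦X⟧) * b0) = 0 := by
      ext n
      rw [map_zero]
      exact PowerSeries.X_pow_dvd_iff.1 (hcon (n + 1)) n (Nat.lt_succ_self n)
    have h60 : (6 : ℚ⟦X⟧) ≠ 0 := by
      have hch0 : CharZero ℚ⟦X⟧ := charZero_of_injective_algebraMap (algebraMap ℚ ℚ⟦X⟧).injective
      norm_num
    rcases mul_eq_zero.1 h6 with h | h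
    · exact h60 h
    · rcases mul_eq_zero.1 h with h | h
      · exact PowerSeries.X_ne_zero h
      · exact hb0 h
  obtain ⟨M, hM⟩ := hM
  refine ⟨g, M, δ, hδ, ⟨0, by rw [hδX, map_zero]⟩, ⟨b0, hg⟩, hg', ⟨0, ?_⟩, ?_⟩
  · rw [map_add, map_add, hδX, map_one, delta_one δ hδ, map_zero, add_zero]
  · rintro ⟨b, hb⟩
    have h1 := theta_cM (algebraMap ℚ⟦X⟧ K) δK g M
    have h2 : ∀ h, theta (algebraMap ℚ⟦X⟧ K) δK h = δ (algebraMap ℚ⟦X⟧ K h) := by
      intro h
      unfold theta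
      rw [hδK, hδK, hδX, smul_zero, sub_zero]
    rw [h2, h2, hg, smul_eq_mul, smul_eq_mul] at h1
    have h3 : algebraMap ℚ⟦X⟧ K (X ^ M * b) = algebraMap ℚ⟦X⟧ K (6 * (X * b0)) := by
      rw [map_mul, map_pow, ← hb, map_mul, map_ofNat, map_mul, ← h1]
      ring
    exact hM ⟨b, (hinj h3).symm⟩

theorem rel_map {R' N : Type*} [CommRing R'] [AddCommGroup N] [Module R' N]
    (g : ℚ⟦X⟧) (j : RR X g (dd g) →+* R') (D : Derivation ℤ R' N) :
    j (rx X g (dd g) ^ 2 * ry X g (dd g) ^ 4) •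
      theta (j.comp (algebraMap ℚ⟦X⟧ (RR X g (dd g)))) D g = 0 := by
  have hx := congrArg j (rel_x X g (dd g))
  have hy := congrArg j (rel_y X g (dd g))
  have ht := congrArg j (rel_t X g (dd g))
  simp only [map_add, map_mul, map_pow, map_ofNat, map_zero] at hx hy ht
  have h6 : IsUnit (6 : R') := by
    have h0 : IsUnit ((j.comp (algebraMap ℚ⟦X⟧ (RR X g (dd g)))) (C (6 : ℚ))) :=
      ((IsUnit.mk0 (6 : ℚ) (by norm_num)).map C).map _
    have e : (C (6 : ℚ) : ℚ⟦X⟧) = 6 := map_ofNat _ 6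
    rwa [e, map_ofNat] at h0
  have h := rel_der D (j (rx X g (dd g))) (j (ry X g (dd g)))
    (j (algebraMap ℚ⟦X⟧ (RR X g (dd g)) X)) (j (algebraMap ℚ⟦X⟧ (RR X g (dd g)) g))
    (j (algebraMap ℚ⟦X⟧ (RR X g (dd g)) (dd g))) h6 hx hy ht
  rw [map_mul, map_pow, map_pow]
  exact h

theorem isUnit_inl (g : ℚ⟦X⟧) (r : RR X g (dd g)) (hr : piR X g (dd g) r ≠ 0) :
    IsUnit (algebraMap (AA X g (dd g)) (FracP (AA X g (dd g))) (incA X g (dd g) r)) := by
  rw [Pi.isUnit_iff]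
  intro p
  have hp := minA X g (dd g) p.1.asIdeal p.2
  have h1 : incA X g (dd g) r ∈ p.1.asIdeal.primeCompl := by
    change incA X g (dd g) r ∉ p.1.asIdeal
    rw [hp]
    exact hr
  exact IsLocalization.map_units (Localization.AtPrime p.1.asIdeal)
    (⟨_, h1⟩ : p.1.asIdeal.primeCompl)

section

variable (g : ℚ⟦X⟧) (M : ℕ) (C V : (RR X g (dd g))ˣ)
  (hC : (C : RR X g (dd g)) = algebraMap ℚ⟦X⟧ _ (cM g M))
  (hV : (V : RR X g (dd g)) = algebraMap ℚ⟦X⟧ _ (1 + X))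

/-- The class for the ring `A`. -/
noncomputable def kapA : K2 (AA X g (dd g)) :=
  kappa (algebraMap ℚ⟦X⟧ (RR X g (dd g))) (rx X g (dd g) ^ 2 * ry X g (dd g) ^ 4) (cM g M) C V

include hC hV

theorem main_nil (r : ℕ) :
    K2.map (Ideal.Quotient.mk (maximalIdeal (AA X g (dd g)) ^ r)) (kapA g M C V) = 1 := by
  have h1 : incA X g (dd g) (algebraMap ℚ⟦X⟧ (RR X g (dd g)) X) ∈
      maximalIdeal (AA X g (dd g)) := by
    rw [IsLocalRing.mem_maximalIdeal, mem_nonunits_iff]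
    intro hu
    have h2 := hu.map (psiA X g (dd g))
    rw [psiA_inl, piR_algebraMap] at h2
    exact PowerSeries.X_prime.not_isUnit h2
  have h2 : (Ideal.Quotient.mk (maximalIdeal (AA X g (dd g)) ^ r))
      (incA X g (dd g) (algebraMap ℚ⟦X⟧ (RR X g (dd g)) X)) ^ r = 0 := by
    rw [← map_pow, Ideal.Quotient.eq_zero_iff_mem]
    exact Ideal.pow_mem_pow h1 r
  exact kappa_nil (T := AA X g (dd g) ⧸ maximalIdeal (AA X g (dd g)) ^ r) _ _ _ C V hC hV _ r h2

theorem main_frac :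
    K2.map (algebraMap (AA X g (dd g)) (FracP (AA X g (dd g)))) (kapA g M C V) = 1 := by
  have hq : (RingHom.ker (piR X g (dd g))).IsPrime := RingHom.ker_isPrime _
  have hi : ∀ y : (RingHom.ker (piR X g (dd g))).primeCompl,
      IsUnit (((algebraMap (AA X g (dd g))
        (FracP (AA X g (dd g)))).comp (incA X g (dd g))) y) :=
    fun y => isUnit_inl g y y.2
  have h1 : algebraMap ℚ⟦X⟧ (RR X g (dd g)) X ∈ (RingHom.ker (piR X g (dd g))).primeCompl := by
    change ¬ (piR X g (dd g) (algebraMap ℚ⟦X⟧ (RR X g (dd g)) X) = 0)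
    rw [piR_algebraMap]
    exact PowerSeries.X_ne_zero
  have h2 : IsUnit (algebraMap (RR X g (dd g)) (Localization.AtPrime (RingHom.ker (piR X g (dd g))))
      (algebraMap ℚ⟦X⟧ (RR X g (dd g)) X)) :=
    IsLocalization.map_units (Localization.AtPrime (RingHom.ker (piR X g (dd g))))
      (⟨_, h1⟩ : (RingHom.ker (piR X g (dd g))).primeCompl)
  let i' : Localization.AtPrime (RingHom.ker (piR X g (dd g))) →+* FracP (AA X g (dd g)) :=
    IsLocalization.lift (S := Localization.AtPrime (RingHom.ker (piR X g (dd g)))) hi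
  have hf : ∀ r : RR X g (dd g), algebraMap (AA X g (dd g)) (FracP (AA X g (dd g)))
      (incA X g (dd g) r) = i' (algebraMap (RR X g (dd g))
        (Localization.AtPrime (RingHom.ker (piR X g (dd g)))) r) :=
    fun r => (IsLocalization.lift_eq hi r).symm
  exact kappa_unit (T := FracP (AA X g (dd g)))
    (R' := Localization.AtPrime (RingHom.ker (piR X g (dd g))))
    (algebraMap ℚ⟦X⟧ (RR X g (dd g))) (rx X g (dd g) ^ 2 * ry X g (dd g) ^ 4)
    C V g M hC hV (algebraMap (AA X g (dd g)) (FracP (AA X g (dd g)))) i'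
    (algebraMap (RR X g (dd g)) (Localization.AtPrime (RingHom.ker (piR X g (dd g)))))
    hf h2 (rel_map g _ _)

end

theorem main : ∃ (A : Type) (_ : CommRing A) (_ : Algebra ℚ A) (_ : IsLocalRing A),
    IsNoetherianRing A ∧ IsAdicComplete (maximalIdeal A) A ∧ ringKrullDim A = 1 ∧
    ∃ κ : K2 A, κ ≠ 1 ∧ InKerDelta A κ := by
  obtain ⟨g, M, δ, hδ, hX, hg, hg', h1X, hc⟩ := exists_data (FractionRing ℚ⟦X⟧)
  have hcu : IsUnit (cM g M) := by
    rw [PowerSeries.isUnit_iff_constantCoeff, cM]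
    simp
  have hVu : IsUnit (1 + X : ℚ⟦X⟧) := by
    rw [PowerSeries.isUnit_iff_constantCoeff]
    simp
  obtain ⟨C, hC⟩ := hcu.map (algebraMap ℚ⟦X⟧ (RR X g (dd g)))
  obtain ⟨V, hV⟩ := hVu.map (algebraMap ℚ⟦X⟧ (RR X g (dd g)))
  refine ⟨AA X g (dd g), inferInstance,
    ((algebraMap ℚ⟦X⟧ (AA X g (dd g))).comp (algebraMap ℚ ℚ⟦X⟧)).toAlgebra,
    locA X g (dd g), noethA X g (dd g),
    adicA X g (dd g), kdimA X g (dd g), kapA g M C V, ?_, main_nil g M C V hC hV,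
    main_frac g M C V hC hV⟩
  intro h
  have h2 : symS (ee (inc (RR X g (dd g))) DualNumber.eps (epsq _)
      (rx X g (dd g) ^ 2 * ry X g (dd g) ^ 4 * C)) (iu (inc (RR X g (dd g))) C) =
      symS (ee (inc (RR X g (dd g))) DualNumber.eps (epsq _)
        (rx X g (dd g) ^ 2 * ry X g (dd g) ^ 4 * algebraMap ℚ⟦X⟧ (RR X g (dd g)) (dd (cM g M)) * V))
        (iu (inc (RR X g (dd g))) V) := mul_inv_eq_one.1 h
  exact sym_ne δ hδ X g (dd g) hX hg hg' (cM g M) (1 + X) C V _ hC hV h1X hc h2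

end Pool.Agent.H30.KT
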