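import Pool.Agent.H30.KT.Van

/-!
# Non-vanishing
-/

namespace Pool.Agent.H30.KT

section

variable {R : Type*} [CommRing R]

theorem inl_calc {E : Type*} [AddCommGroup E] [Module R E] [Module Rᵐᵒᵖ E] [IsCentralScalar R E]
    (w b b' : R) (hb : b * b' = 1) (e : E) :
    (TrivSqZeroExt.inl (w * b) : TrivSqZeroExt R E) *
      ((TrivSqZeroExt.inl b + TrivSqZeroExt.inr e) * TrivSqZeroExt.inl b' - 1) =
      TrivSqZeroExt.inr (w • e) := by
  have hb' : b' * b = 1 := by rw [mul_comm]; exact hb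
  apply TrivSqZeroExt.ext
  · simp [hb]
  · simp only [TrivSqZeroExt.snd_mul, TrivSqZeroExt.fst_inl, TrivSqZeroExt.snd_inl,
      TrivSqZeroExt.snd_sub, TrivSqZeroExt.snd_add, TrivSqZeroExt.snd_inr, TrivSqZeroExt.snd_one,
      TrivSqZeroExt.fst_add, TrivSqZeroExt.fst_inr, smul_zero, zero_add, add_zero, sub_zero,
      op_smul_eq_smul, smul_smul]
    rw [mul_assoc, hb, mul_one]

/-- The inclusion `R → R[ε]`. -/
abbrev inc (R : Type*) [CommRing R] : R →+* DualNumber R := TrivSqZeroExt.inlHom R R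

theorem epsq (R : Type*) [CommRing R] : (DualNumber.eps : DualNumber R) * DualNumber.eps = 0 :=
  DualNumber.eps_mul_eps

/-- The projection. -/
abbrev p0R (R : Type*) [CommRing R] : DualNumber R →+* R :=
  (TrivSqZeroExt.fstHom R R R).toRingHom

/-- The coefficient of `ε`. -/
def p1R (R : Type*) [CommRing R] : DualNumber R →+ R where
  toFun := TrivSqZeroExt.snd
  map_zero' := rfl
  map_add' _ _ := rfl

theorem p1R_mul (a b : DualNumber R) :
    p1R R (a * b) = p0R R a * p1R R b + p1R R a * p0R R b := by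
  change (a * b).snd = a.fst * b.snd + a.snd * b.fst
  rw [TrivSqZeroExt.snd_mul, smul_eq_mul, MulOpposite.smul_eq_mul_unop, MulOpposite.unop_op]

theorem ee_val (a : R) : ((ee (inc R) DualNumber.eps (epsq R) a : (DualNumber R)ˣ) : DualNumber R) =
    1 + TrivSqZeroExt.inl a * DualNumber.eps := rfl

theorem p0_ee (a : R) : p0R R ((ee (inc R) DualNumber.eps (epsq R) a : (DualNumber R)ˣ) :
    DualNumber R) = 1 := by
  rw [ee_val]
  change (1 + TrivSqZeroExt.inl a * DualNumber.eps : DualNumber R).fst = 1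
  simp

theorem p1_ee (a : R) : p1R R ((ee (inc R) DualNumber.eps (epsq R) a : (DualNumber R)ˣ) :
    DualNumber R) = a := by
  rw [ee_val]
  change (1 + TrivSqZeroExt.inl a * DualNumber.eps : DualNumber R).snd = a
  simp

end

section

variable {B K : Type*} [CommRing B] [Field K] [Algebra B K] (δ : K →+ K)
  (hδ : ∀ a b, δ (a * b) = a * δ b + b * δ a) (t g g' : B)
  (ht : ∃ c, δ (algebraMap B K t) = algebraMap B K c)
  (hg : ∃ c, δ (algebraMap B K g) = algebraMap B K c)
  (hg' : ∃ c, δ (algebraMap B K g') = algebraMap B K c)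

theorem dval_eq (w : RR t g g') (b : B) (C : (RR t g g')ˣ) (hC : (C : RR t g g') = algebraMap B _ b) :
    dval (DR δ hδ t g g' ht hg hg') (p0R (RR t g g')) (p1R (RR t g g'))
      (ee (inc (RR t g g')) DualNumber.eps (epsq _) (w * C)) (iu (inc (RR t g g')) C) =
      TrivSqZeroExt.inr (w • dB δ (LamR t g g') b) := by
  unfold dval
  rw [p1_ee]
  have h1 : p0R (RR t g g') ((iu (inc (RR t g g')) C : (DualNumber (RR t g g'))ˣ) :
      DualNumber (RR t g g')) = C := rfl
  have h2 : p0R (RR t g g') (((iu (inc (RR t g g')) C)⁻¹ : (DualNumber (RR t g g'))ˣ) :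
      DualNumber (RR t g g')) = ((C⁻¹ : (RR t g g')ˣ) : RR t g g') := rfl
  rw [h1, h2]
  have h3 : (DR δ hδ t g g' ht hg hg').s (C : RR t g g') = TrivSqZeroExt.inl (C : RR t g g') +
      TrivSqZeroExt.inr (dB δ (LamR t g g') b) := by
    rw [hC]
    exact sR_algebraMap δ hδ t g g' ht hg hg' b
  rw [h3]
  exact inl_calc w C _ (by simp) _

include hδ ht hg hg' in
/-- The two symbols differ. -/
theorem sym_ne (b b2 : B) (C V : (RR t g g')ˣ) (a : RR t g g')
    (hC : (C : RR t g g') = algebraMap B _ b) (hV : (V : RR t g g') = algebraMap B _ b2)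
    (hb2 : ∃ c, δ (algebraMap B K b2) = algebraMap B K c)
    (hb : ¬ ∃ c, 6 * δ (algebraMap B K b) = algebraMap B K c) :
    symS (ee (inc (RR t g g')) DualNumber.eps (epsq _) (rx t g g' ^ 2 * ry t g g' ^ 4 * C))
      (iu (inc (RR t g g')) C) ≠
    symS (ee (inc (RR t g g')) DualNumber.eps (epsq _) (a * V)) (iu (inc (RR t g g')) V) := by
  refine symS_ne (DR δ hδ t g g' ht hg hg') (p0R (RR t g g')) (p1R (RR t g g')) p1R_mul _ _ _ _
    (p0_ee _) rfl (p0_ee _) rfl ?_
  rw [dval_eq δ hδ t g g' ht hg hg' _ b C hC, dval_eq δ hδ t g g' ht hg hg' _ b2 V hV,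
    dB_eq_zero δ (LamR t g g') b2 hb2, smul_zero]
  intro h
  have h2 : (rx t g g' ^ 2 * ry t g g' ^ 4) • dB δ (LamR t g g') b = 0 := by
    have := congrArg TrivSqZeroExt.snd h
    rwa [TrivSqZeroExt.snd_inr, TrivSqZeroExt.snd_inr] at this
  have h3 : ((rx t g g' ^ 2 * ry t g g' ^ 4) • dB δ (LamR t g g') b) 1 = 0 := by rw [h2]; rfl
  rw [HM.smul_apply, mul_one, dB_apply, LamR_w] at h3
  have h4 := (QuotientAddGroup.eq_zero_iff _).1 h3
  obtain ⟨c, hc⟩ := h4
  refine hb ⟨c, ?_⟩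
  have hc' : algebraMap B K c = δ (algebraMap B K b) * algebraMap B K 6 := hc
  rw [hc', map_ofNat, mul_comm]

end

end Pool.Agent.H30.KT
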