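import Mathlib

/-!
# The Steinberg group and `K₂`
-/

namespace Pool.Agent.H30.KT

open scoped commutatorElement

section defs

variable (A : Type*) [CommRing A]

/-- The Steinberg relations, for generators `x_{ij}(a)` with `i, j ∈ ℕ` (the generators
`x_{ii}(a)` are set to `1`). -/
inductive StRel : FreeGroup (ℕ × ℕ × A) → Prop
  | diag (i : ℕ) (a : A) : StRel (FreeGroup.of (i, i, a))
  | add (i j : ℕ) (a b : A) : i ≠ j →
      StRel (FreeGroup.of (i, j, a) * FreeGroup.of (i, j, b) * (FreeGroup.of (i, j, a + b))⁻¹)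
  | comm (i j k : ℕ) (a b : A) : i ≠ j → j ≠ k → i ≠ k →
      StRel (⁅FreeGroup.of (i, j, a), FreeGroup.of (j, k, b)⁆ * (FreeGroup.of (i, k, a * b))⁻¹)
  | comm' (i j k l : ℕ) (a b : A) : i ≠ j → k ≠ l → j ≠ k → i ≠ l →
      StRel ⁅FreeGroup.of (i, j, a), FreeGroup.of (k, l, b)⁆

/-- The (stable) Steinberg group. -/
def St : Type _ := PresentedGroup {w | StRel A w}

noncomputable instance : Group (St A) := instGroupPresentedGroup {w | StRel A w}

end defs

variable {A : Type*} [CommRing A]

/-- The generator `x_{ij}(a)`. -/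
def x (i j : ℕ) (a : A) : St A := PresentedGroup.of (rels := {w | StRel A w}) (i, j, a)

theorem mk_rel {w : FreeGroup (ℕ × ℕ × A)} (h : StRel A w) :
    (PresentedGroup.mk {w | StRel A w} w : St A) = 1 :=
  PresentedGroup.one_of_mem (rels := {w | StRel A w}) h

theorem x_self (i : ℕ) (a : A) : x i i a = 1 := mk_rel (StRel.diag i a)

theorem x_add (i j : ℕ) (a b : A) : x i j (a + b) = x i j a * x i j b := by
  by_cases h : i = j
  · subst h; simp [x_self]
  · have := mk_rel (StRel.add i j a b h)
    rw [map_mul, map_mul, map_inv, mul_inv_eq_one] at this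
    exact this.symm

theorem x_zero (i j : ℕ) : x i j (0 : A) = 1 := by
  have := x_add i j (0 : A) 0
  rw [add_zero] at this
  exact left_eq_mul.1 this

theorem x_neg (i j : ℕ) (a : A) : x i j (-a) = (x i j a)⁻¹ := by
  rw [eq_inv_iff_mul_eq_one, ← x_add, neg_add_cancel, x_zero]

theorem x_comm {i j k : ℕ} (a b : A) (hij : i ≠ j) (hjk : j ≠ k) (hik : i ≠ k) :
    ⁅x i j a, x j k b⁆ = x i k (a * b) := by
  have := mk_rel (StRel.comm i j k a b hij hjk hik)
  rw [map_mul, map_inv, mul_inv_eq_one, map_commutatorElement] at this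
  exact this

theorem x_commute {i j k l : ℕ} (a b : A) (hjk : j ≠ k) (hil : i ≠ l) :
    x i j a * x k l b = x k l b * x i j a := by
  by_cases hij : i = j
  · subst hij; simp [x_self]
  · by_cases hkl : k = l
    · subst hkl; simp [x_self]
    · have := mk_rel (StRel.comm' i j k l a b hij hkl hjk hil)
      rw [map_commutatorElement, commutatorElement_eq_one_iff_mul_comm] at this
      exact this

/-- Functions satisfying the Steinberg relations. -/
structure IsSt {G : Type*} [Group G] (f : ℕ → ℕ → A → G) : Prop where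
  diag : ∀ i a, f i i a = 1
  add : ∀ i j a b, i ≠ j → f i j (a + b) = f i j a * f i j b
  comm : ∀ i j k a b, i ≠ j → j ≠ k → i ≠ k → ⁅f i j a, f j k b⁆ = f i k (a * b)
  comm' : ∀ i j k l a b, i ≠ j → k ≠ l → j ≠ k → i ≠ l → f i j a * f k l b = f k l b * f i j a

/-- The universal property. -/
noncomputable def St.lift {G : Type*} [Group G] (f : ℕ → ℕ → A → G) (hf : IsSt f) : St A →* G :=
  PresentedGroup.toGroup (rels := {w | StRel A w}) (f := fun p : ℕ × ℕ × A => f p.1 p.2.1 p.2.2) (by
    intro w hw
    cases hw with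
    | diag i a => simp [hf.diag]
    | add i j a b h => simp [hf.add i j a b h]
    | comm i j k a b h1 h2 h3 =>
      rw [map_mul, map_inv, mul_inv_eq_one, map_commutatorElement]
      simp [hf.comm i j k a b h1 h2 h3]
    | comm' i j k l a b h1 h2 h3 h4 =>
      rw [map_commutatorElement, commutatorElement_eq_one_iff_mul_comm]
      simp [hf.comm' i j k l a b h1 h2 h3 h4])

theorem St.lift_x {G : Type*} [Group G] (f : ℕ → ℕ → A → G) (hf : IsSt f) (i j : ℕ) (a : A) :
    St.lift f hf (x i j a) = f i j a :=
  PresentedGroup.toGroup.of _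

theorem St.induction {p : St A → Prop} (one : p 1) (mul : ∀ g h, p g → p h → p (g * h))
    (inv : ∀ g, p g → p g⁻¹) (gen : ∀ i j a, p (x i j a)) (g : St A) : p g := by
  have h : g ∈ Subgroup.closure (Set.range (PresentedGroup.of (rels := {w | StRel A w}))) := by
    rw [PresentedGroup.closure_range_of]; trivial
  induction h using Subgroup.closure_induction with
  | mem y hy => obtain ⟨⟨i, j, a⟩, rfl⟩ := hy; exact gen i j a
  | one => exact one
  | mul y z _ _ hy hz => exact mul y z hy hz
  | inv y _ hy => exact inv y hy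

/-! ### The linear action -/

/-- The matrix unit `a E_{ij}` acting on `A^(ℕ)`. -/
noncomputable def N0 (i j : ℕ) (a : A) : Module.End A (ℕ →₀ A) := a • (Finsupp.lsingle i ∘ₗ Finsupp.lapply j)

theorem N0_apply (i j : ℕ) (a : A) (v : ℕ →₀ A) : N0 i j a v = Finsupp.single i (a * v j) := by
  simp [N0]

theorem N0_mul_same (i j l : ℕ) (a b : A) : N0 i j a * N0 j l b = N0 i l (a * b) := by
  refine LinearMap.ext fun v => ?_
  rw [Module.End.mul_apply, N0_apply, N0_apply, N0_apply, Finsupp.single_eq_same, mul_assoc]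

theorem N0_mul_ne {i j k l : ℕ} (h : j ≠ k) (a b : A) : N0 i j a * N0 k l b = 0 := by
  refine LinearMap.ext fun v => ?_
  rw [Module.End.mul_apply, N0_apply, N0_apply, Finsupp.single_eq_of_ne h, mul_zero,
    Finsupp.single_zero]
  rfl

theorem N0_add (i j : ℕ) (a b : A) : N0 i j (a + b) = N0 i j a + N0 i j b := add_smul _ _ _

theorem N0_zero (i j : ℕ) : N0 i j (0 : A) = 0 := zero_smul _ _

theorem el_aux {i j : ℕ} (h : i ≠ j) (a b : A) (hab : b + a = 0) :
    (1 + N0 i j a) * (1 + N0 i j b) = 1 := by
  rw [mul_add, add_mul, add_mul, N0_mul_ne (Ne.symm h), one_mul, one_mul, mul_one, add_zero,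
    add_assoc, ← N0_add, add_comm a b, hab, N0_zero, add_zero]

/-- The elementary matrix `1 + a E_{ij}`, as an endomorphism of `A^(ℕ)`. -/
noncomputable def eM (i j : ℕ) (a : A) : Module.End A (ℕ →₀ A) := 1 + N0 i j a

/-- The elementary matrix `1 + a E_{ij}`, as an automorphism of `A^(ℕ)`; it is `1` for `i = j`. -/
noncomputable def el (i j : ℕ) (a : A) : (Module.End A (ℕ →₀ A))ˣ :=
  if h : i = j then 1 else
    ⟨eM i j a, eM i j (-a), el_aux h a (-a) (neg_add_cancel a),
      el_aux h (-a) a (add_neg_cancel a)⟩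

theorem el_val {i j : ℕ} (h : i ≠ j) (a : A) :
    ((el i j a : (Module.End A (ℕ →₀ A))ˣ) : Module.End A (ℕ →₀ A)) = 1 + N0 i j a := by
  simp [el, eM, h]

theorem isSt_el : IsSt (el (A := A)) where
  diag i a := by simp [el]
  add i j a b h := by
    apply Units.ext
    rw [Units.val_mul, el_val h, el_val h, el_val h, N0_add, mul_add, add_mul, add_mul,
      N0_mul_ne (Ne.symm h)]
    simp [add_assoc]
  comm i j k a b h1 h2 h3 := by
    rw [commutatorElement_def, mul_inv_eq_iff_eq_mul, mul_inv_eq_iff_eq_mul]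
    apply Units.ext
    simp only [Units.val_mul, el_val h1, el_val h2, el_val h3, mul_add, add_mul, one_mul, mul_one,
      N0_mul_same, N0_mul_ne h2.symm, N0_mul_ne h3.symm, add_zero]
    abel
  comm' i j k l a b h1 h2 h3 h4 := by
    apply Units.ext
    simp only [Units.val_mul, el_val h1, el_val h2, mul_add, add_mul, one_mul, mul_one,
      N0_mul_ne h3, N0_mul_ne h4.symm, add_zero]
    abel

variable (A) in
/-- The homomorphism from the Steinberg group to the group of automorphisms of `A^(ℕ)`. -/
noncomputable def phi : St A →* (Module.End A (ℕ →₀ A))ˣ := St.lift el isSt_el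

theorem phi_x (i j : ℕ) (a : A) : phi A (x i j a) = el i j a := St.lift_x _ _ _ _ _

variable (A) in
/-- `K₂(A)`, the kernel of the homomorphism from the Steinberg group to the elementary group. -/
noncomputable def K2 : Subgroup (St A) := (phi A).ker

theorem el_apply_of_ne {i j : ℕ} (h : i ≠ j) (a : A) (v : ℕ →₀ A) :
    (el i j a : Module.End A (ℕ →₀ A)) v = v + Finsupp.single i (a * v j) := by
  rw [el_val h]
  simp [N0_apply]

/-! ### Functoriality -/

section map

variable {B C : Type*} [CommRing B] [CommRing C]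

theorem isSt_map (f : A →+* B) : IsSt (fun i j (a : A) => x i j (f a)) where
  diag i a := x_self _ _
  add i j a b h := by rw [map_add, x_add]
  comm i j k a b h1 h2 h3 := by rw [map_mul, x_comm _ _ h1 h2 h3]
  comm' i j k l a b h1 h2 h3 h4 := x_commute _ _ h3 h4

/-- Functoriality of the Steinberg group. -/
noncomputable def St.map (f : A →+* B) : St A →* St B := St.lift _ (isSt_map f)

theorem St.map_x (f : A →+* B) (i j : ℕ) (a : A) : St.map f (x i j a) = x i j (f a) :=
  St.lift_x _ _ _ _ _

theorem St.map_map (f : A →+* B) (g : B →+* C) (w : St A) :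
    St.map g (St.map f w) = St.map (g.comp f) w := by
  induction w using St.induction with
  | one => simp
  | mul w v hw hv => simp only [map_mul, hw, hv]
  | inv w hw => simp only [map_inv, hw]
  | gen i j a => simp [St.map_x]

theorem phi_map (f : A →+* B) (w : St A) (v : ℕ →₀ A) :
    (phi B (St.map f w) : Module.End B (ℕ →₀ B)) (v.mapRange f (map_zero f)) =
      ((phi A w : Module.End A (ℕ →₀ A)) v).mapRange f (map_zero f) := by
  induction w using St.induction generalizing v with
  | one => simp
  | mul w w' hw hw' =>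
    simp only [map_mul, Units.val_mul, Module.End.mul_apply]
    rw [hw', hw]
  | inv w hw =>
    have h1 := hw ((((phi A w)⁻¹ : (Module.End A (ℕ →₀ A))ˣ) : Module.End A (ℕ →₀ A)) v)
    have h2 : (phi A w : Module.End A (ℕ →₀ A))
        ((((phi A w)⁻¹ : (Module.End A (ℕ →₀ A))ˣ) : Module.End A (ℕ →₀ A)) v) = v := by
      rw [← Module.End.mul_apply, ← Units.val_mul, mul_inv_cancel]; rfl
    rw [h2] at h1
    rw [map_inv, map_inv, map_inv, ← h1, ← Module.End.mul_apply, ← Units.val_mul, inv_mul_cancel]
    rfl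
  | gen i j a =>
    rw [St.map_x, phi_x, phi_x]
    by_cases h : i = j
    · subst h; simp [el]
    · rw [el_apply_of_ne h, el_apply_of_ne h]
      ext k
      simp [Finsupp.single_apply]
      split_ifs <;> simp

theorem map_mem_K2 (f : A →+* B) (w : St A) (hw : w ∈ K2 A) : St.map f w ∈ K2 B := by
  have hw' : phi A w = 1 := hw
  change phi B (St.map f w) = 1
  apply Units.ext
  apply Finsupp.lhom_ext
  intro k b
  have h := phi_map f w (Finsupp.single k 1)
  rw [hw'] at h
  simp only [Units.val_one, Module.End.one_apply, Finsupp.mapRange_single, map_one] at h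
  have h2 : Finsupp.single k b = b • (Finsupp.single k (1 : B)) := by simp
  rw [h2, map_smul, h]
  simp

/-- Functoriality of `K₂`. -/
noncomputable def K2.map (f : A →+* B) : K2 A →* K2 B :=
  ((St.map f).comp (K2 A).subtype).codRestrict (K2 B) (fun w => map_mem_K2 f w w.2)

theorem K2.map_coe (f : A →+* B) (w : K2 A) : (K2.map f w : St B) = St.map f w := rfl

end map

end Pool.Agent.H30.KT
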