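import Mathlib

/-!
# Symbols over dual numbers: the map `Ω¹ → K₂`

Only formal properties of symbols are used.
-/

namespace Pool.Agent.H30.KT

/-- Formal properties of a symbol: bimultiplicative, and trivial on pairs with sum one. -/
structure IsSymbol {L K : Type*} [CommRing L] [AddCommGroup K] (σ : Lˣ → Lˣ → K) : Prop where
  mul_left : ∀ u u' v, σ (u * u') v = σ u v + σ u' v
  mul_right : ∀ u v v', σ u (v * v') = σ u v + σ u v'
  steinberg : ∀ u v : Lˣ, (u : L) + v = 1 → σ u v = 0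

namespace IsSymbol

variable {L K : Type*} [CommRing L] [AddCommGroup K] {σ : Lˣ → Lˣ → K} (h : IsSymbol σ)

include h

theorem one_left (v : Lˣ) : σ 1 v = 0 := by
  have := h.mul_left 1 1 v
  rw [mul_one] at this
  exact left_eq_add.1 this

theorem one_right (u : Lˣ) : σ u 1 = 0 := by
  have := h.mul_right u 1 1
  rw [mul_one] at this
  exact left_eq_add.1 this

theorem inv_left (u v : Lˣ) : σ u⁻¹ v = - σ u v := by
  have := h.mul_left u⁻¹ u v
  rw [inv_mul_cancel, h.one_left] at this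
  exact eq_neg_of_add_eq_zero_left this.symm

theorem inv_right (u v : Lˣ) : σ u v⁻¹ = - σ u v := by
  have := h.mul_right u v⁻¹ v
  rw [inv_mul_cancel, h.one_right] at this
  exact eq_neg_of_add_eq_zero_left this.symm

theorem self_neg (X Y : Lˣ) (hXY : (X : L) + Y = 1) : σ X (-X) = 0 := by
  have hY : (Y : L) = 1 - X := by rw [← hXY]; ring
  have h1 : ((X⁻¹ : Lˣ) : L) + ((-Y * X⁻¹ : Lˣ) : L) = 1 := by
    have : (X : L) * ((X⁻¹ : Lˣ) : L) = 1 := by simp
    rw [Units.val_mul, Units.val_neg, hY]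
    linear_combination this
  have h2 := h.steinberg _ _ h1
  have h3 : (-X : Lˣ) = Y * (-Y * X⁻¹)⁻¹ := by
    rw [eq_mul_inv_iff_mul_eq]
    apply Units.ext
    have : (X : L) * ((X⁻¹ : Lˣ) : L) = 1 := by simp
    simp only [Units.val_mul, Units.val_neg]
    linear_combination (Y : L) * this
  have h4 := h.steinberg X Y hXY
  rw [h3, h.mul_right, h4, h.inv_right, zero_add]
  rw [h.inv_left] at h2
  exact h2

end IsSymbol

section dual

variable {R L K : Type*} [CommRing R] [CommRing L] [AddCommGroup K]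
  (i : R →+* L) (ε : L) (hε : ε * ε = 0)

/-- The unit `1 + a ε`. -/
def ee (a : R) : Lˣ where
  val := 1 + i a * ε
  inv := 1 - i a * ε
  val_inv := by linear_combination (-(i a) ^ 2) * hε
  inv_val := by linear_combination (-(i a) ^ 2) * hε

theorem ee_add (a b : R) : ee i ε hε (a + b) = ee i ε hε a * ee i ε hε b := by
  apply Units.ext
  simp only [ee, Units.val_mul, map_add]
  linear_combination (-(i a * i b)) * hε

theorem ee_zero : ee i ε hε 0 = 1 := by
  apply Units.ext
  simp [ee]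

theorem ee_neg (a : R) : ee i ε hε (-a) = (ee i ε hε a)⁻¹ := by
  rw [eq_inv_iff_mul_eq_one, ← ee_add, neg_add_cancel, ee_zero]

/-- The image of a unit. -/
abbrev iu (c : Rˣ) : Lˣ := Units.map (i : R →* L) c

theorem iu_mul (c c' : Rˣ) : iu i (c * c') = iu i c * iu i c' := map_mul _ _ _

theorem iu_one : iu i (1 : Rˣ) = 1 := map_one _

variable {σ : Lˣ → Lˣ → K} (h : IsSymbol σ)

/-- `T(a, c) = {1 + a c ε, c}`, which plays the role of `a dc`. -/
def TT (σ : Lˣ → Lˣ → K) (a : R) (c : Rˣ) : K := σ (ee i ε hε (a * c)) (iu i c)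

/-- A quadratic function plus an additive function being zero forces both to vanish. -/
theorem quad_zero {R K : Type*} [CommRing R] [Algebra ℚ R] [AddCommGroup K] (A B : R → K)
    (hA : ∀ β, A (β + β) = A β + A β)
    (hB : ∀ β, B (β + β) = (B β + B β) + (B β + B β)) (hAB : ∀ β, A β + B β = 0) :
    ∀ β, A β = 0 ∧ B β = 0 := by
  have h2 : ∀ β, B β + B β = 0 := by
    intro β
    have e1 := hAB β
    have e2 := hAB (β + β)
    rw [hA, hB] at e2
    have : (B β + B β) = (A β + A β + (B β + B β + (B β + B β))) - (A β + B β) - (A β + B β) := by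
      abel
    rw [this, e2, e1]
    simp
  have h3 : ∀ β, B β = 0 := by
    intro β
    have : β = (1 / 2 : ℚ) • β + (1 / 2 : ℚ) • β := by
      rw [← add_smul]; norm_num
    rw [this, hB, h2, add_zero]
  intro β
  refine ⟨?_, h3 β⟩
  have := hAB β
  rwa [h3, add_zero] at this

include h

theorem se_add_left (a b : R) (v : Lˣ) :
    σ (ee i ε hε (a + b)) v = σ (ee i ε hε a) v + σ (ee i ε hε b) v := by
  rw [ee_add, h.mul_left]

theorem se_add_right (a b : R) (v : Lˣ) :
    σ v (ee i ε hε (a + b)) = σ v (ee i ε hε a) + σ v (ee i ε hε b) := by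
  rw [ee_add, h.mul_right]

variable [Algebra ℚ R]

theorem se_half (a : R) (v : Lˣ) :
    σ (ee i ε hε a) v = σ (ee i ε hε ((1 / 2 : ℚ) • a)) v + σ (ee i ε hε ((1 / 2 : ℚ) • a)) v := by
  rw [← se_add_left i ε hε h]
  congr 2
  rw [← add_smul]
  norm_num

theorem se_neg_one (a : R) : σ (ee i ε hε a) (-1) = 0 := by
  rw [se_half i ε hε h, ← h.mul_right]
  simp [h.one_right]

theorem sym_anti (p q : Rˣ) (hpq : (p : R) + q = 1) (β : R) :
    σ (iu i p) (ee i ε hε β) + σ (ee i ε hε β) (iu i p) = 0 := by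
  have hpq' : (i p : L) + i q = 1 := by rw [← map_add, hpq, map_one]
  have hqi : (q : R) * ((q⁻¹ : Rˣ) : R) = 1 := by simp
  refine (quad_zero (fun β => σ (iu i p) (ee i ε hε β) + σ (ee i ε hε β) (iu i p))
    (fun β => σ (ee i ε hε β) (ee i ε hε β)) ?_ ?_ ?_ β).1
  · intro β
    beta_reduce
    rw [se_add_left i ε hε h, se_add_right i ε hε h]
    abel
  · intro β
    beta_reduce
    rw [se_add_left i ε hε h, se_add_right i ε hε h]
  · intro β
    beta_reduce
    have h0 : ((iu i p * ee i ε hε β : Lˣ) : L) +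
        ((iu i q * ee i ε hε (-(p * β * (q⁻¹ : Rˣ))) : Lˣ) : L) = 1 := by
      have hq2 : i q * i ((q⁻¹ : Rˣ) : R) = 1 := by rw [← map_mul, hqi, map_one]
      simp only [Units.val_mul, iu, Units.coe_map, MonoidHom.coe_coe, ee, map_neg, map_mul]
      linear_combination hpq' - (i p * i β * ε) * hq2
    have h1 := h.self_neg _ _ h0
    have h2 : -(iu i p * ee i ε hε β) = (-iu i p) * ee i ε hε β := by
      rw [neg_mul]
    rw [h2, h.mul_right, h.mul_left, h.mul_left] at h1
    have h3 : σ (iu i p) (-iu i p) = 0 := h.self_neg _ (iu i q) hpq'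
    have h4 : (-iu i p : Lˣ) = (-1) * iu i p := by rw [neg_one_mul]
    have h5 : σ (ee i ε hε β) (-iu i p) = σ (ee i ε hε β) (iu i p) := by
      rw [h4, h.mul_right, se_neg_one i ε hε h, zero_add]
    rw [h3, h5] at h1
    rw [← h1]
    abel

theorem TT_sum_one (p q : Rˣ) (hpq : (p : R) + q = 1) (α : R) :
    TT i ε hε σ α p + TT i ε hε σ α q = 0 := by
  have hpq' : (i p : L) + i q = 1 := by rw [← map_add, hpq, map_one]
  have hqi : (q : R) * ((q⁻¹ : Rˣ) : R) = 1 := by simp
  have key := quad_zero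
    (fun β => σ (iu i p) (ee i ε hε (-(p * β * (q⁻¹ : Rˣ)))) + σ (ee i ε hε β) (iu i q))
    (fun β => σ (ee i ε hε β) (ee i ε hε (-(p * β * (q⁻¹ : Rˣ))))) ?_ ?_ ?_ (α * q)
  · have h1 := key.1
    beta_reduce at h1
    have h2 : -((p : R) * (α * q) * (q⁻¹ : Rˣ)) = -(α * p) := by
      linear_combination (-(p * α)) * hqi
    rw [h2, ee_neg, h.inv_right] at h1
    have h3 := sym_anti i ε hε h p q hpq (α * p)
    unfold TT
    have h4 : σ (ee i ε hε (α * p)) (iu i p) = - σ (iu i p) (ee i ε hε (α * p)) :=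
      eq_neg_of_add_eq_zero_right h3
    rw [h4]
    exact h1
  · intro β
    beta_reduce
    have : -((p : R) * (β + β) * (q⁻¹ : Rˣ)) = -(p * β * (q⁻¹ : Rˣ)) + -(p * β * (q⁻¹ : Rˣ)) := by
      ring
    rw [this, se_add_left i ε hε h, se_add_right i ε hε h]
    abel
  · intro β
    beta_reduce
    have : -((p : R) * (β + β) * (q⁻¹ : Rˣ)) = -(p * β * (q⁻¹ : Rˣ)) + -(p * β * (q⁻¹ : Rˣ)) := by
      ring
    rw [this, se_add_left i ε hε h, se_add_right i ε hε h]
  · intro β
    beta_reduce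
    have h0 : ((iu i p * ee i ε hε β : Lˣ) : L) +
        ((iu i q * ee i ε hε (-(p * β * (q⁻¹ : Rˣ))) : Lˣ) : L) = 1 := by
      have hq2 : i q * i ((q⁻¹ : Rˣ) : R) = 1 := by rw [← map_mul, hqi, map_one]
      simp only [Units.val_mul, iu, Units.coe_map, MonoidHom.coe_coe, ee, map_neg, map_mul]
      linear_combination hpq' - (i p * i β * ε) * hq2
    have h1 := h.steinberg _ _ h0
    have h3 : σ (iu i p) (iu i q) = 0 := h.steinberg _ _ hpq'
    rw [h.mul_left, h.mul_right, h.mul_right, h3] at h1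
    rw [← h1]
    abel

theorem TT_add (a : R) (c c' s : Rˣ) (hs : (c : R) + c' = s) :
    TT i ε hε σ a s = TT i ε hε σ a c + TT i ε hε σ a c' := by
  have hsi : (s : R) * ((s⁻¹ : Rˣ) : R) = 1 := by simp
  have h1 : ((c * s⁻¹ : Rˣ) : R) + ((c' * s⁻¹ : Rˣ) : R) = 1 := by
    rw [Units.val_mul, Units.val_mul, ← add_mul, hs, hsi]
  have h2 := TT_sum_one i ε hε h (c * s⁻¹) (c' * s⁻¹) h1 (a * s)
  have h3 : ∀ d : Rˣ, TT i ε hε σ a d = TT i ε hε σ (a * s) (d * s⁻¹) +
      σ (ee i ε hε (a * d)) (iu i s) := by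
    intro d
    unfold TT
    have h4 : a * (s : R) * ((d * s⁻¹ : Rˣ) : R) = a * d := by
      rw [Units.val_mul]
      linear_combination (a * d) * hsi
    rw [h4, ← h.mul_right, ← iu_mul, inv_mul_cancel_right]
  rw [h3 c, h3 c']
  have h5 : TT i ε hε σ a s = σ (ee i ε hε (a * c)) (iu i s) + σ (ee i ε hε (a * c')) (iu i s) := by
    unfold TT
    rw [← se_add_left i ε hε h, ← mul_add, hs]
  rw [h5]
  have h6 : TT i ε hε σ (a * ↑s) (c * s⁻¹) + σ (ee i ε hε (a * ↑c)) (iu i s) +
      (TT i ε hε σ (a * ↑s) (c' * s⁻¹) + σ (ee i ε hε (a * ↑c')) (iu i s)) =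
      (TT i ε hε σ (a * ↑s) (c * s⁻¹) + TT i ε hε σ (a * ↑s) (c' * s⁻¹)) +
      (σ (ee i ε hε (a * ↑c)) (iu i s) + σ (ee i ε hε (a * ↑c')) (iu i s)) := by abel
  rw [h6, h2, zero_add]

theorem TT_add_left (a b : R) (c : Rˣ) :
    TT i ε hε σ (a + b) c = TT i ε hε σ a c + TT i ε hε σ b c := by
  unfold TT
  rw [add_mul, se_add_left i ε hε h]

theorem TT_mul (a : R) (c c' : Rˣ) :
    TT i ε hε σ a (c * c') = TT i ε hε σ (a * c) c' + TT i ε hε σ (a * c') c := by
  unfold TT
  rw [iu_mul, h.mul_right, Units.val_mul]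
  rw [show a * (c : R) * c' = a * (c * c') by ring, show a * (c' : R) * c = a * (c * c') by ring,
    add_comm]

theorem TT_one (a : R) : TT i ε hε σ a 1 = 0 := by
  unfold TT
  rw [iu_one, h.one_right]

end dual

end Pool.Agent.H30.KT
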