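import Pool.Agent.H30.KT.Cen
import Pool.Agent.H30.KT.Sym

/-!
# Steinberg symbols in `K₂`
-/

namespace Pool.Agent.H30.KT

open scoped commutatorElement

variable {A : Type*} [CommRing A]

/-- `w_{ij}(u) = x_{ij}(u) x_{ji}(-u⁻¹) x_{ij}(u)`. -/
noncomputable def ww (i j : ℕ) (u : Aˣ) : St A :=
  x i j (u : A) * x j i (-((u⁻¹ : Aˣ) : A)) * x i j (u : A)

/-- `h_{ij}(u) = w_{ij}(u) w_{ij}(-1)`. -/
noncomputable def hh (i j : ℕ) (u : Aˣ) : St A := ww i j u * ww i j (-1)

theorem ww_inv (i j : ℕ) (u : Aˣ) : (ww i j u)⁻¹ = ww i j (-u) := by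
  have h1 : (((-u)⁻¹ : Aˣ) : A) = -((u⁻¹ : Aˣ) : A) := by
    rw [inv_neg, Units.val_neg]
  unfold ww
  rw [h1, Units.val_neg, neg_neg, x_neg, x_neg]
  group

/-- The linear action of the Steinberg group. -/
noncomputable def act (g : St A) (v : ℕ →₀ A) : ℕ →₀ A :=
  (phi A g : Module.End A (ℕ →₀ A)) v

theorem act_mul (g h : St A) (v : ℕ →₀ A) : act (g * h) v = act g (act h v) := by
  unfold act
  rw [map_mul, Units.val_mul, Module.End.mul_apply]

theorem act_x {i j : ℕ} (h : i ≠ j) (a : A) (v : ℕ →₀ A) :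
    act (x i j a) v = v + Finsupp.single i (a * v j) := by
  unfold act
  rw [phi_x, el_apply_of_ne h]

theorem act_ww_right {i j : ℕ} (h : i ≠ j) (u : Aˣ) (b : A) :
    act (ww i j u) (Finsupp.single j b) = Finsupp.single i (u * b) := by
  have hu : (u : A) * ((u⁻¹ : Aˣ) : A) = 1 := by simp
  unfold ww
  rw [act_mul, act_mul, act_x h, act_x h.symm, act_x h]
  have h2 : j ≠ i := h.symm
  ext k
  simp only [Finsupp.add_apply, Finsupp.single_apply, if_neg h, if_neg h2, if_true]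
  by_cases hki : i = k
  · subst hki
    simp only [if_true, if_neg h2]
    linear_combination (-(u : A) * b) * hu
  · by_cases hkj : j = k
    · subst hkj
      simp only [if_true, if_neg h]
      linear_combination (-b) * hu
    · simp [hki, hkj]

theorem act_ww_left {i j : ℕ} (h : i ≠ j) (u : Aˣ) (b : A) :
    act (ww i j u) (Finsupp.single i b) = Finsupp.single j (-((u⁻¹ : Aˣ) : A) * b) := by
  have hu : (u : A) * ((u⁻¹ : Aˣ) : A) = 1 := by simp
  unfold ww
  rw [act_mul, act_mul, act_x h, act_x h.symm, act_x h]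
  have h2 : j ≠ i := h.symm
  ext k
  simp only [Finsupp.add_apply, Finsupp.single_apply, if_neg h, if_neg h2, if_true]
  by_cases hki : i = k
  · subst hki
    simp only [if_true, if_neg h2]
    linear_combination (-b) * hu
  · by_cases hkj : j = k
    · subst hkj
      simp only [if_true, if_neg h]
      ring
    · simp [hki, hkj]

theorem act_ww_other {i j k : ℕ} (h : i ≠ j) (hi : k ≠ i) (hj : k ≠ j) (u : Aˣ) (b : A) :
    act (ww i j u) (Finsupp.single k b) = Finsupp.single k b := by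
  unfold ww
  rw [act_mul, act_mul, act_x h, act_x h.symm, act_x h]
  simp [Finsupp.single_apply, hi, hj, h, h.symm]

theorem chi_ww (i j : ℕ) (u : Aˣ) : chi (ww i j u) = ww j i (-u) := by
  have h1 : (((-u)⁻¹ : Aˣ) : A) = -((u⁻¹ : Aˣ) : A) := by
    rw [inv_neg, Units.val_neg]
  unfold ww
  rw [map_mul, map_mul, chi_x, chi_x, h1, Units.val_neg]

theorem ww_conj_same {i j : ℕ} (h : i ≠ j) (u : Aˣ) (a : A) :
    ww i j u * x i j a * (ww i j u)⁻¹ = x j i (-((u⁻¹ : Aˣ) : A) * a * ((u⁻¹ : Aˣ) : A)) := by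
  refine conj_mono _ h h.symm _ _ ?_ ?_ a
  · have := act_ww_left h u 1
    rw [mul_one] at this
    exact this
  · rw [chi_ww]
    have := act_ww_left h.symm (-u) 1
    rw [mul_one, inv_neg, Units.val_neg, neg_neg] at this
    exact this

theorem ww_conj_opp {i j : ℕ} (h : i ≠ j) (u : Aˣ) (a : A) :
    ww i j u * x j i a * (ww i j u)⁻¹ = x i j ((u : A) * a * (-(u : A))) := by
  refine conj_mono _ h.symm h _ _ ?_ ?_ a
  · have := act_ww_right h u 1
    rw [mul_one] at this
    exact this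
  · rw [chi_ww]
    have := act_ww_right h.symm (-u) 1
    rw [mul_one, Units.val_neg] at this
    exact this

theorem ww_flip {i j : ℕ} (h : i ≠ j) (u : Aˣ) : ww i j u = ww j i (-u⁻¹) := by
  have h0 : ww i j u = ww i j u * ww i j u * (ww i j u)⁻¹ := by group
  have h1 : ww i j u * ww i j u * (ww i j u)⁻¹ =
      (ww i j u * x i j (u : A) * (ww i j u)⁻¹) *
      (ww i j u * x j i (-((u⁻¹ : Aˣ) : A)) * (ww i j u)⁻¹) *
      (ww i j u * x i j (u : A) * (ww i j u)⁻¹) := by
    conv_lhs => rw [show ww i j u * ww i j u = ww i j u *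
      (x i j (u : A) * x j i (-((u⁻¹ : Aˣ) : A)) * x i j (u : A)) from rfl]
    group
  rw [h0, h1, ww_conj_same h, ww_conj_opp h]
  unfold ww
  have hu : (u : A) * ((u⁻¹ : Aˣ) : A) = 1 := by simp
  have e1 : -((u⁻¹ : Aˣ) : A) * (u : A) * ((u⁻¹ : Aˣ) : A) = ((-u⁻¹ : Aˣ) : A) := by
    rw [Units.val_neg]
    linear_combination (-((u⁻¹ : Aˣ) : A)) * hu
  have e2 : (u : A) * -((u⁻¹ : Aˣ) : A) * (-(u : A)) = -(((-u⁻¹)⁻¹ : Aˣ) : A) := by
    rw [inv_neg, inv_inv, Units.val_neg, neg_neg]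
    linear_combination (u : A) * hu
  rw [e1, e2]

/-- The key relation behind the Steinberg relation for symbols. -/
theorem hh_mul {i j : ℕ} (h : i ≠ j) (u v : Aˣ) (huv : (u : A) + v = 1) :
    hh i j u * hh i j v = hh i j (u * v) := by
  have hu : (u : A) * ((u⁻¹ : Aˣ) : A) = 1 := by simp
  have hv : (v : A) * ((v⁻¹ : Aˣ) : A) = 1 := by simp
  have e1 : ww i j u * x j i (1 : A) = x i j (-(u : A) * u) * ww i j u := by
    have := ww_conj_opp h u 1
    rw [mul_inv_eq_iff_eq_mul] at this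
    rw [this]
    congr 2
    ring
  have e2 : x j i (1 : A) * ww i j v = ww i j v * x i j (-(v : A) * v) := by
    have := ww_conj_opp h (-v) 1
    rw [← ww_inv, inv_inv] at this
    rw [Units.val_neg] at this
    have h3 : -(v : A) * 1 * -(-(v : A)) = -(v : A) * v := by ring
    rw [h3] at this
    rw [← this]
    group
  have e3 : ww i j (-1 : Aˣ) = x j i (1 : A) * x i j (-1) * x j i 1 := by
    rw [ww_flip h]
    unfold ww
    simp
  have e4 : ww i j u = x i j (u : A) * x j i (-((u⁻¹ : Aˣ) : A)) * x i j (u : A) := rfl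
  have e5 : ww i j v = x i j (v : A) * x j i (-((v⁻¹ : Aˣ) : A)) * x i j (v : A) := rfl
  have e6 : ww i j (u * v) = x i j ((u : A) * v) *
      x j i (-(((u⁻¹ : Aˣ) : A) * ((v⁻¹ : Aˣ) : A))) * x i j ((u : A) * v) := by
    unfold ww
    rw [mul_inv, Units.val_mul, Units.val_mul]
  have hvu : (v : A) = 1 - u := by rw [← huv]; ring
  calc hh i j u * hh i j v
      = ww i j u * (ww i j (-1)) * ww i j v * ww i j (-1) := by unfold hh; group
    _ = (ww i j u * x j i (1 : A)) * x i j (-1) * (x j i 1 * ww i j v) * ww i j (-1) := by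
        conv_lhs => rw [show ww i j u * ww i j (-1) * ww i j v * ww i j (-1) =
          ww i j u * (ww i j (-1)) * (ww i j v * ww i j (-1)) by group]
        conv_lhs => enter [1, 2]; rw [e3]
        group
    _ = x i j (-(u : A) * u) * ww i j u * x i j (-1) * ww i j v * x i j (-(v : A) * v) *
          ww i j (-1) := by
        rw [e1, e2]; group
    _ = (x i j (-(u : A) * u) * x i j (u : A)) * x j i (-((u⁻¹ : Aˣ) : A)) *
          (x i j (u : A) * x i j (-1) * x i j (v : A)) * x j i (-((v⁻¹ : Aˣ) : A)) *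
          (x i j (v : A) * x i j (-(v : A) * v)) * ww i j (-1) := by
        rw [e4, e5]; group
    _ = x i j ((u : A) * v) * x j i (-((u⁻¹ : Aˣ) : A)) * 1 * x j i (-((v⁻¹ : Aˣ) : A)) *
          x i j ((u : A) * v) * ww i j (-1) := by
        rw [← x_add, ← x_add, ← x_add, ← x_add]
        have a1 : -(u : A) * u + u = u * v := by rw [hvu]; ring
        have a2 : (u : A) + -1 + v = 0 := by rw [hvu]; ring
        have a3 : (v : A) + -(v : A) * v = u * v := by rw [hvu]; ring
        rw [a1, a2, a3, x_zero]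
    _ = ww i j (u * v) * ww i j (-1) := by
        have a4 : -(((u⁻¹ : Aˣ) : A) * ((v⁻¹ : Aˣ) : A)) =
            -((u⁻¹ : Aˣ) : A) + -((v⁻¹ : Aˣ) : A) := by
          have : ((u⁻¹ : Aˣ) : A) * ((v⁻¹ : Aˣ) : A) = ((u⁻¹ : Aˣ) : A) + ((v⁻¹ : Aˣ) : A) := by
            linear_combination (-((u⁻¹ : Aˣ) : A) * ((v⁻¹ : Aˣ) : A)) * huv +
              ((v⁻¹ : Aˣ) : A) * hu + ((u⁻¹ : Aˣ) : A) * hv
          rw [this]; ring
        rw [e6, a4, x_add]
        group

theorem act_hh_left {i j : ℕ} (h : i ≠ j) (u : Aˣ) (b : A) :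
    act (hh i j u) (Finsupp.single i b) = Finsupp.single i (u * b) := by
  unfold hh
  rw [act_mul, act_ww_left h, act_ww_right h]
  congr 1
  simp

theorem act_hh_right {i j : ℕ} (h : i ≠ j) (u : Aˣ) (b : A) :
    act (hh i j u) (Finsupp.single j b) = Finsupp.single j (((u⁻¹ : Aˣ) : A) * b) := by
  unfold hh
  rw [act_mul, act_ww_right h, act_ww_left h]
  congr 1
  simp

theorem act_hh_other {i j k : ℕ} (h : i ≠ j) (hi : k ≠ i) (hj : k ≠ j) (u : Aˣ) (b : A) :
    act (hh i j u) (Finsupp.single k b) = Finsupp.single k b := by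
  unfold hh
  rw [act_mul, act_ww_other h hi hj, act_ww_other h hi hj]

theorem act_chi_hh_left {i j : ℕ} (h : i ≠ j) (u : Aˣ) (b : A) :
    act (chi (hh i j u)) (Finsupp.single i b) = Finsupp.single i (((u⁻¹ : Aˣ) : A) * b) := by
  unfold hh
  rw [map_mul, chi_ww, chi_ww, act_mul, act_ww_right h.symm, act_ww_left h.symm, inv_neg,
    Units.val_neg]
  congr 1
  simp

theorem act_chi_hh_other {i j k : ℕ} (h : i ≠ j) (hi : k ≠ i) (hj : k ≠ j) (u : Aˣ) (b : A) :
    act (chi (hh i j u)) (Finsupp.single k b) = Finsupp.single k b := by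
  unfold hh
  rw [map_mul, chi_ww, chi_ww, act_mul, act_ww_other h.symm hj hi, act_ww_other h.symm hj hi]

theorem hh_conj_left {i j k : ℕ} (h : i ≠ j) (hi : k ≠ i) (hj : k ≠ j) (u : Aˣ) (a : A) :
    hh i j u * x i k a * (hh i j u)⁻¹ = x i k (u * a) := by
  have := conj_mono (hh i j u) hi.symm hi.symm (u : A) 1
    (by have := act_hh_left h u 1; rw [mul_one] at this; exact this)
    (act_chi_hh_other h hi hj u 1) a
  rw [mul_one] at this
  exact this

theorem hh_conj_right {i j k : ℕ} (h : i ≠ j) (hi : k ≠ i) (hj : k ≠ j) (u : Aˣ) (a : A) :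
    hh i j u * x k i a * (hh i j u)⁻¹ = x k i (a * ((u⁻¹ : Aˣ) : A)) := by
  have := conj_mono (hh i j u) hi hi 1 ((u⁻¹ : Aˣ) : A)
    (act_hh_other h hi hj u 1)
    (by have := act_chi_hh_left h u 1; rw [mul_one] at this; exact this) a
  rw [one_mul] at this
  exact this

theorem hh_conj_ww {i j k : ℕ} (h : i ≠ j) (hi : k ≠ i) (hj : k ≠ j) (u v : Aˣ) :
    hh i j u * ww i k v * (hh i j u)⁻¹ = ww i k (u * v) := by
  have h1 : hh i j u * ww i k v * (hh i j u)⁻¹ =
      (hh i j u * x i k (v : A) * (hh i j u)⁻¹) *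
      (hh i j u * x k i (-((v⁻¹ : Aˣ) : A)) * (hh i j u)⁻¹) *
      (hh i j u * x i k (v : A) * (hh i j u)⁻¹) := by
    unfold ww
    group
  rw [h1, hh_conj_left h hi hj, hh_conj_right h hi hj]
  unfold ww
  rw [Units.val_mul, mul_inv, Units.val_mul]
  congr 3
  ring

/-- The commutator formula for symbols. -/
theorem comm_hh {i j k : ℕ} (h : i ≠ j) (hi : k ≠ i) (hj : k ≠ j) (u v : Aˣ) :
    ⁅hh i j u, hh i k v⁆ = hh i k (u * v) * (hh i k u)⁻¹ * (hh i k v)⁻¹ := by
  have h1 : hh i j u * hh i k v * (hh i j u)⁻¹ = ww i k (u * v) * ww i k (-u) := by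
    have : hh i j u * hh i k v * (hh i j u)⁻¹ = (hh i j u * ww i k v * (hh i j u)⁻¹) *
        (hh i j u * ww i k (-1) * (hh i j u)⁻¹) := by
      rw [show hh i k v = ww i k v * ww i k (-1) from rfl]
      group
    rw [this, hh_conj_ww h hi hj, hh_conj_ww h hi hj]
    congr 2
    simp
  rw [commutatorElement_def, h1, show hh i k (u * v) = ww i k (u * v) * ww i k (-1) from rfl,
    show hh i k u = ww i k u * ww i k (-1) from rfl, ← ww_inv i k u]
  group

theorem mem_K2_iff (g : St A) : g ∈ K2 A ↔ ∀ k (b : A), act g (Finsupp.single k b) =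
    Finsupp.single k b := by
  constructor
  · intro hg k b
    have hg' : phi A g = 1 := hg
    unfold act
    rw [hg']
    rfl
  · intro h
    change phi A g = 1
    apply Units.ext
    apply Finsupp.lhom_ext
    intro k b
    exact h k b

theorem K2_of_eq {g h : St A} (hgh : ∀ k (b : A), act g (Finsupp.single k b) =
    act h (Finsupp.single k b)) : g * h⁻¹ ∈ K2 A := by
  change phi A (g * h⁻¹) = 1
  rw [map_mul, map_inv, mul_inv_eq_one]
  apply Units.ext
  apply Finsupp.lhom_ext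
  intro k b
  exact hgh k b

theorem act_diag (i j : ℕ) (h : i ≠ j) (u : Aˣ) (k : ℕ) (b : A) :
    act (hh i j u) (Finsupp.single k b) =
      Finsupp.single k ((if k = i then (u : A) else if k = j then ((u⁻¹ : Aˣ) : A) else 1) * b) := by
  by_cases hi : k = i
  · subst hi; rw [if_pos rfl]; exact act_hh_left h u b
  · by_cases hj : k = j
    · subst hj; rw [if_neg hi, if_pos rfl]; exact act_hh_right h u b
    · rw [if_neg hi, if_neg hj, one_mul]; exact act_hh_other h hi hj u b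

theorem comm_mem (u v : Aˣ) : ⁅hh 0 1 u, hh 0 2 v⁆ ∈ K2 A := by
  have h : (hh 0 1 u * hh 0 2 v) * (hh 0 2 v * hh 0 1 u)⁻¹ ∈ K2 A := by
    refine K2_of_eq fun k b => ?_
    rw [act_mul, act_mul, act_diag 0 2 (by norm_num), act_diag 0 1 (by norm_num),
      act_diag 0 1 (by norm_num), act_diag 0 2 (by norm_num)]
    congr 1
    ring
  have e : ⁅hh 0 1 u, hh 0 2 v⁆ = (hh 0 1 u * hh 0 2 v) * (hh 0 2 v * hh 0 1 u)⁻¹ := by
    rw [commutatorElement_def]; group
  rw [e]
  exact h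

noncomputable instance : CommGroup (K2 A) :=
  { (inferInstance : Group (K2 A)) with
    mul_comm := fun a b => Subtype.ext
      (show (a : St A) * (b : St A) = (b : St A) * (a : St A) from K2_central (a : St A) a.2 b) }

/-- The Steinberg symbol `{u, v} ∈ K₂(A)`. -/
noncomputable def symS (u v : Aˣ) : K2 A := ⟨⁅hh 0 1 u, hh 0 2 v⁆, comm_mem u v⟩

theorem comm_central_left {z g h : St A} (hz : z ∈ K2 A) : ⁅z * g, h⁆ = ⁅g, h⁆ := by
  rw [commutatorElement_def, commutatorElement_def, mul_inv_rev]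
  have h1 := K2_central z hz (g * h * g⁻¹)
  calc z * g * h * (g⁻¹ * z⁻¹) * h⁻¹ = (z * (g * h * g⁻¹)) * z⁻¹ * h⁻¹ := by group
    _ = (g * h * g⁻¹) * z * z⁻¹ * h⁻¹ := by rw [h1]
    _ = g * h * g⁻¹ * h⁻¹ := by group

theorem comm_central_right {z g h : St A} (hz : z ∈ K2 A) : ⁅g, z * h⁆ = ⁅g, h⁆ := by
  rw [← commutatorElement_inv, comm_central_left hz, commutatorElement_inv]

theorem comm_mul_left {g g' h : St A} (hc : ⁅g', h⁆ ∈ K2 A) : ⁅g * g', h⁆ = ⁅g, h⁆ * ⁅g', h⁆ := by
  have h1 := K2_central _ hc (g⁻¹)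
  calc ⁅g * g', h⁆ = g * (⁅g', h⁆ * (h * g⁻¹ * h⁻¹)) := by
        rw [commutatorElement_def, commutatorElement_def]; group
    _ = g * ((h * g⁻¹ * h⁻¹) * ⁅g', h⁆) := by rw [K2_central _ hc]
    _ = ⁅g, h⁆ * ⁅g', h⁆ := by rw [commutatorElement_def g h]; group

theorem comm_mul_right {g h h' : St A} (hc : ⁅g, h'⁆ ∈ K2 A) :
    ⁅g, h * h'⁆ = ⁅g, h⁆ * ⁅g, h'⁆ := by
  have h1 := K2_central _ hc h
  calc ⁅g, h * h'⁆ = ⁅g, h⁆ * (h * ⁅g, h'⁆ * h⁻¹) := by
        rw [commutatorElement_def, commutatorElement_def, commutatorElement_def]; group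
    _ = ⁅g, h⁆ * (⁅g, h'⁆ * h * h⁻¹) := by rw [← h1]
    _ = ⁅g, h⁆ * ⁅g, h'⁆ := by group

theorem symS_mul_left (u u' v : Aˣ) : symS (u * u') v = symS u v * symS u' v := by
  apply Subtype.ext
  change ⁅hh 0 1 (u * u'), hh 0 2 v⁆ = ⁅hh 0 1 u, hh 0 2 v⁆ * ⁅hh 0 1 u', hh 0 2 v⁆
  have hz : hh 0 1 (u * u') * (hh 0 1 u * hh 0 1 u')⁻¹ ∈ K2 A := by
    refine K2_of_eq fun k b => ?_
    rw [act_mul, act_diag 0 1 (by norm_num), act_diag 0 1 (by norm_num),
      act_diag 0 1 (by norm_num)]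
    congr 1
    split_ifs
    · rw [Units.val_mul]; ring
    · rw [mul_inv, Units.val_mul]; ring
    · ring
  have e : hh 0 1 (u * u') = (hh 0 1 (u * u') * (hh 0 1 u * hh 0 1 u')⁻¹) *
      (hh 0 1 u * hh 0 1 u') := by group
  rw [e, comm_central_left hz, comm_mul_left (comm_mem u' v)]

theorem symS_mul_right (u v v' : Aˣ) : symS u (v * v') = symS u v * symS u v' := by
  apply Subtype.ext
  change ⁅hh 0 1 u, hh 0 2 (v * v')⁆ = ⁅hh 0 1 u, hh 0 2 v⁆ * ⁅hh 0 1 u, hh 0 2 v'⁆
  have hz : hh 0 2 (v * v') * (hh 0 2 v * hh 0 2 v')⁻¹ ∈ K2 A := by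
    refine K2_of_eq fun k b => ?_
    rw [act_mul, act_diag 0 2 (by norm_num), act_diag 0 2 (by norm_num),
      act_diag 0 2 (by norm_num)]
    congr 1
    split_ifs
    · rw [Units.val_mul]; ring
    · rw [mul_inv, Units.val_mul]; ring
    · ring
  have e : hh 0 2 (v * v') = (hh 0 2 (v * v') * (hh 0 2 v * hh 0 2 v')⁻¹) *
      (hh 0 2 v * hh 0 2 v') := by group
  rw [e, comm_central_right hz, comm_mul_right (comm_mem u v')]

theorem symS_steinberg (u v : Aˣ) (huv : (u : A) + v = 1) : symS u v = 1 := by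
  apply Subtype.ext
  change ⁅hh 0 1 u, hh 0 2 v⁆ = 1
  rw [comm_hh (by norm_num) (by norm_num) (by norm_num), mul_assoc, ← mul_inv_rev,
    hh_mul (by norm_num) v u (by rw [add_comm]; exact huv), mul_comm v u, mul_inv_cancel]

/-- The Steinberg symbol, written additively. -/
noncomputable def symA (A : Type*) [CommRing A] (u v : Aˣ) : Additive (K2 A) :=
  Additive.ofMul (symS u v)

theorem isSymbol_symA (A : Type*) [CommRing A] : IsSymbol (symA A) where
  mul_left u u' v := by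
    unfold symA
    rw [symS_mul_left, ofMul_mul]
  mul_right u v v' := by
    unfold symA
    rw [symS_mul_right, ofMul_mul]
  steinberg u v huv := by
    unfold symA
    rw [symS_steinberg u v huv, ofMul_one]

/-! ### Naturality -/

variable {B : Type*} [CommRing B]

theorem map_ww (f : A →+* B) (i j : ℕ) (u : Aˣ) :
    St.map f (ww i j u) = ww i j (Units.map (f : A →* B) u) := by
  unfold ww
  rw [map_mul, map_mul, St.map_x, St.map_x, map_neg]
  rfl

theorem map_hh (f : A →+* B) (i j : ℕ) (u : Aˣ) :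
    St.map f (hh i j u) = hh i j (Units.map (f : A →* B) u) := by
  unfold hh
  rw [map_mul, map_ww, map_ww]
  congr 2
  apply Units.ext
  simp

theorem K2_map_symS (f : A →+* B) (u v : Aˣ) :
    K2.map f (symS u v) = symS (Units.map (f : A →* B) u) (Units.map (f : A →* B) v) := by
  apply Subtype.ext
  rw [K2.map_coe]
  change St.map f ⁅hh 0 1 u, hh 0 2 v⁆ = _
  rw [map_commutatorElement, map_hh, map_hh]
  rfl

end Pool.Agent.H30.KT
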