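import Pool.Agent.H30.KT.Der

/-!
# Derivations and power series
-/

namespace Pool.Agent.H30.KT

open PowerSeries

/-- The derivative of power series. -/
noncomputable abbrev dd : Derivation ℚ ℚ⟦X⟧ ℚ⟦X⟧ := d⁄dX ℚ

/-- The tail `(h - h(0))/X` of a power series. -/
noncomputable def tail (h : ℚ⟦X⟧) : ℚ⟦X⟧ := PowerSeries.mk fun p => coeff (p + 1) h

theorem eq_tail (h : ℚ⟦X⟧) : h = C (constantCoeff h) + X * tail h := by
  have := PowerSeries.sub_const_eq_X_mul_shift h
  rw [tail, ← this]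
  ring

section

variable {R M : Type*} [CommRing R] [AddCommGroup M] [Module R M] (φ : ℚ⟦X⟧ →+* R)
  (δ : Derivation ℤ R M)

/-- `θ(h) = δ(h) - h' δ(t)`. -/
noncomputable def theta (h : ℚ⟦X⟧) : M := δ (φ h) - φ (dd h) • δ (φ X)

theorem der_rat (c : ℚ) : δ (φ (C c)) = 0 := by
  have h1 : δ ((c.num : ℤ) : R) = 0 := by
    have := δ.map_algebraMap c.num
    simpa using this
  have h2 : (φ (C c)) * ((c.den : ℕ) : R) = ((c.num : ℤ) : R) := by
    have e1 : ((c.den : ℕ) : R) = φ (C ((c.den : ℕ) : ℚ)) := by simp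
    have e2 : ((c.num : ℤ) : R) = φ (C ((c.num : ℤ) : ℚ)) := by simp
    rw [e1, e2, ← map_mul, ← map_mul, Rat.mul_den_eq_num]
  have h3 : δ (((c.den : ℕ) : R)) = 0 := by
    have := δ.map_algebraMap (c.den : ℤ)
    simpa using this
  have h4 : (φ (C (c.den : ℚ))) • δ (φ (C c)) = 0 := by
    have h5 := congrArg δ h2
    rw [Derivation.leibniz, h3, smul_zero, zero_add, h1] at h5
    have e1 : ((c.den : ℕ) : R) = φ (C ((c.den : ℕ) : ℚ)) := by simp
    rw [e1] at h5
    exact h5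
  have h6 : φ (C ((c.den : ℚ)⁻¹)) * φ (C (c.den : ℚ)) = 1 := by
    rw [← map_mul, ← map_mul, inv_mul_cancel₀ (by exact_mod_cast c.den_nz), map_one, map_one]
  calc δ (φ (C c)) = (φ (C ((c.den : ℚ)⁻¹)) * φ (C (c.den : ℚ))) • δ (φ (C c)) := by
        rw [h6, one_smul]
    _ = 0 := by rw [mul_smul, h4, smul_zero]

theorem theta_add (h h' : ℚ⟦X⟧) : theta φ δ (h + h') = theta φ δ h + theta φ δ h' := by
  unfold theta
  rw [map_add, map_add, map_add, map_add, add_smul]
  abel

theorem theta_C (c : ℚ) : theta φ δ (C c) = 0 := by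
  unfold theta
  rw [der_rat]
  simp

theorem theta_X_mul (h : ℚ⟦X⟧) : theta φ δ (X * h) = φ X • theta φ δ h := by
  unfold theta
  rw [map_mul, Derivation.leibniz, Derivation.leibniz, smul_sub, smul_smul, map_add]
  have : dd (X : ℚ⟦X⟧) = 1 := PowerSeries.derivative_X
  rw [this]
  simp only [smul_eq_mul, mul_one, map_mul, add_smul]
  abel

theorem theta_tail (h : ℚ⟦X⟧) : theta φ δ h = φ X • theta φ δ (tail h) := by
  conv_lhs => rw [eq_tail h]
  rw [theta_add, theta_C, zero_add, theta_X_mul]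

theorem theta_iter (h : ℚ⟦X⟧) (N : ℕ) :
    theta φ δ h = φ X ^ N • theta φ δ (tail^[N] h) := by
  induction N with
  | zero => simp
  | succ n ih => rw [ih, theta_tail φ δ (tail^[n] h), smul_smul, ← pow_succ,
      Function.iterate_succ_apply']

end

end Pool.Agent.H30.KT
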