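import Pool.Agent.H30.KT.DetR

/-!
# Vanishing of the symbol expression
-/

namespace Pool.Agent.H30.KT

open PowerSeries

section

variable {R T : Type*} [CommRing R] [CommRing T] (i : R →+* T) (ε : T) (hε : ε * ε = 0)

theorem ee_eq_one (a : R) (ha : i a = 0) : ee i ε hε a = 1 := by
  apply Units.ext
  change 1 + i a * ε = 1
  rw [ha, zero_mul, add_zero]

variable [Algebra ℚ R] [IsLocalRing R]

theorem TX_zero_of (a c : R) (ha : i a = 0) : TX i ε hε (symA T) a c = 0 := by
  unfold TX TT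
  rw [ee_eq_one i ε hε _ (by rw [map_mul, ha, zero_mul]), (isSymbol_symA T).one_left]

variable (φ : ℚ⟦X⟧ →+* R) (w : R) (c : ℚ⟦X⟧) (C V : Rˣ) (hC : (C : R) = φ c)
  (hV : (V : R) = φ (1 + X))

include hC hV in
theorem van_core (h : theta φ (derS i ε hε (isSymbol_symA T)) c w = 0) :
    symS (ee i ε hε (w * C)) (iu i C) =
      symS (ee i ε hε (w * φ (dd c) * V)) (iu i V) := by
  unfold theta at h
  rw [HM.sub_apply, HM.smul_apply] at h
  have e1 : derS i ε hε (isSymbol_symA T) (V : R) = derS i ε hε (isSymbol_symA T) (φ X) := by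
    rw [hV, map_add, map_one, map_add, Derivation.map_one_eq_zero, zero_add]
  rw [← e1, ← hC, derS_unit, derS_unit, sub_eq_zero] at h
  unfold TT symA at h
  have h2 := Additive.ofMul.injective h
  rw [h2, mul_comm (φ (dd c)) w]

/-- The unit power series. -/
noncomputable def cM (g : ℚ⟦X⟧) (M : ℕ) : ℚ⟦X⟧ := 1 + X * tail^[M] g

omit [Algebra ℚ R] [IsLocalRing R] in
theorem theta_cM {N : Type*} [AddCommGroup N] [Module R N] (δ : Derivation ℤ R N) (g : ℚ⟦X⟧)
    (M : ℕ) : φ X ^ M • theta φ δ (cM g M) = φ X • theta φ δ g := by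
  have h1 : theta φ δ (1 : ℚ⟦X⟧) = 0 := by
    have := theta_C φ δ 1
    rwa [map_one] at this
  rw [cM, theta_add, h1, zero_add, theta_X_mul, theta_iter φ δ g M, smul_smul, smul_smul,
    mul_comm]

theorem van_unit (g : ℚ⟦X⟧) (M : ℕ) (hX : IsUnit (φ X))
    (hw : w • theta φ (derS i ε hε (isSymbol_symA T)) g = 0) :
    theta φ (derS i ε hε (isSymbol_symA T)) (cM g M) w = 0 := by
  have h1 := theta_cM φ (derS i ε hε (isSymbol_symA T)) g M
  have h2 : φ X ^ M • (w • theta φ (derS i ε hε (isSymbol_symA T)) (cM g M)) = 0 := by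
    rw [smul_comm, h1, smul_comm, hw, smul_zero]
  have h3 : w • theta φ (derS i ε hε (isSymbol_symA T)) (cM g M) = 0 := by
    obtain ⟨u, hu⟩ := hX.pow M
    rw [← hu] at h2
    have h4 : ((u⁻¹ : Rˣ) : R) • ((u : R) •
        (w • theta φ (derS i ε hε (isSymbol_symA T)) (cM g M))) = 0 := by
      rw [h2, smul_zero]
    rwa [smul_smul, Units.inv_mul, one_smul] at h4
  have h5 : (w • theta φ (derS i ε hε (isSymbol_symA T)) (cM g M)) 1 = 0 := by rw [h3]; rfl
  rwa [HM.smul_apply, mul_one] at h5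

theorem van_nil (m : ℕ) (hX : i (φ X) ^ m = 0) :
    theta φ (derS i ε hε (isSymbol_symA T)) c w = 0 := by
  rw [theta_iter φ _ c m, HM.smul_apply]
  unfold theta
  have h1 : i (φ X ^ m * w) = 0 := by rw [map_mul, map_pow, hX, zero_mul]
  rw [HM.sub_apply, HM.smul_apply, derS_apply, derS_apply, TX_zero_of _ _ _ _ _ h1,
    TX_zero_of _ _ _ _ _ (by rw [map_mul, h1, mul_zero]), sub_zero]

end

end Pool.Agent.H30.KT
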